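import Pool.Agent.P.MP_f8f34d_lc.a.Sat
import Pool.Agent.P.MP_f8f34d_lc.Force

/-! Interface of section 8. -/

namespace Pool.Agent.MinDeg

open FirstOrder FirstOrder.Language Pool.Agent.Lib.ComputableProp

/-- column `m` -/
def colm (X : CS) (m : ℕ) : CS := fun n => X (Nat.pair m n)

/-- the columns below `b`, zero elsewhere (equal to `lev (List.range b) X`) -/
def cutc (b : ℕ) (X : CS) : CS := fun n => leb (n.unpair.1 + 1) b && X n

/-- paths through classes that only look at the columns below `b` are found effectively -/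
def PathP (X : CS) : Prop :=
  ∀ (α : Type) [Primcodable α] (Z : CS → α → Prop), Sig Z → ∃ k : ℕ × α → ℕ, Computable k ∧
    ∀ b a, (∃ Y, ¬ Z (jn (cutc b X) Y) a) → ¬ Z (jn (cutc b X) (colm X (k (b, a)))) a

/-- `y` is a jump of `x`: effectively open in `x` and complete -/
def IsJump (x y : CS) : Prop :=
  (∃ P : CS → ℕ → Prop, Sig P ∧ ∀ n, y n = true ↔ P x n) ∧
  ∀ (α : Type) [Primcodable α] (P : CS → α → Prop), Sig P →
    ∃ s : α → ℕ, Computable s ∧ ∀ a, P x a ↔ y (s a) = true

/-- the statement of section 8 -/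
def SolovayStmt : Prop :=
  ∀ (N : Type) [LA.Structure N] [Infinite N] (X X1 X2 : CS), PathP X → IsJump X X1 → IsJump X1 X2 →
    ∀ S : CS → ℕ × ℕ → Prop, Sig S → (∀ K, ∃ m, S X2 (K, m)) →
      (∀ K m, S X2 (K, m) → colm X m = TK (PreLA N) K) →
      ∃ A : LA.Structure ℕ, (∀ K, TK (@PreLA ℕ A) K = TK (PreLA N) K) ∧
        TuringReducible (hat (dg A)) (hat X)

end Pool.Agent.MinDeg
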