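import Pool.Agent.P.MP_f8f34d_lc.Diag

/-! Block formulas over pre-structures. -/

namespace Pool.Agent.MinDeg

open FirstOrder FirstOrder.Language Pool.Agent.Lib.ComputableProp

/-- a pre-structure: kind of atom and three elements -/
abbrev Pre (M : Type) : Type := ℕ → M → M → M → Prop

/-- a literal of a fixed level: sign, code, renaming list -/
abbrev Lt : Type := Bool × ℕ × List ℕ

/-- `v ∘ r` -/
def ren {M : Type} (v : ℕ → M) (r : List ℕ) : ℕ → M := fun i => v (r.getD i 0)

/-- decoding of a block: number of kept variables, list of literals -/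
def blk (c : ℕ) : ℕ × List Lt := (Encodable.decode (α := ℕ × List Lt) c).getD (0, [])

/-- truth of the code `c` of level `k` at the assignment `v` -/
def sat {M : Type} (P : Pre M) : ℕ → ℕ → (ℕ → M) → Prop
  | 0, c, v => P c (v 0) (v 1) (v 2)
  | k + 1, c, v => if c % 2 = 0 then sat P k (c / 2) v else
      ∃ w : ℕ → M, (∀ i < (blk (c / 2)).1, w i = v i) ∧
        ∀ l ∈ (blk (c / 2)).2, (sat P k l.2.1 (ren w l.2.2) ↔ l.1 = true)

/-- all literals of the list hold -/
def Hold {M : Type} (P : Pre M) (k : ℕ) (L : List Lt) (v : ℕ → M) : Prop :=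
  ∀ l ∈ L, (sat P k l.2.1 (ren v l.2.2) ↔ l.1 = true)

/-- the list of literals is realized -/
def th {M : Type} (P : Pre M) (k : ℕ) (L : List Lt) : Prop := ∃ v, Hold P k L v

def decL (n : ℕ) : List Lt := (Encodable.decode (α := List Lt) n).getD []

open Classical in
/-- the existential theory over level `k` as a point of Cantor space -/
noncomputable def TK {M : Type} (P : Pre M) (k : ℕ) : CS := fun n => decide (th P k (decL n))

/-- the code of level `k + 1` of: keep the first `n` variables, the list holds for some rest -/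
def exC (n : ℕ) (L : List Lt) : ℕ := 2 * Encodable.encode (n, L) + 1

/-- the pre-structure of a structure -/
def PreLA (M : Type) [LA.Structure M] : Pre M := fun c x y z =>
  if c = 0 then x = y else if c = 1 then lM x y else if c = 2 then aM x y = z
  else if c = 3 then mM x y = z else if c = 4 then x = zM else x = oM

/-- number of the atomic sentence of kind `c` about `a`, `b`, `d` in a diagram -/
def gA (c a b d : ℕ) : ℕ :=
  cond (eqb c 0) (2 * Nat.pair (3 * a + 2) (3 * b + 2))
  (cond (eqb c 1) (2 * Nat.pair (3 * a + 2) (3 * b + 2) + 1)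
  (cond (eqb c 2) (2 * Nat.pair (3 * Nat.pair (3 * a + 2) (3 * b + 2) + 3) (3 * d + 2))
  (cond (eqb c 3) (2 * Nat.pair (3 * Nat.pair (3 * a + 2) (3 * b + 2) + 4) (3 * d + 2))
  (cond (eqb c 4) (2 * Nat.pair (3 * a + 2) 0) (2 * Nat.pair (3 * a + 2) 1)))))

/-- a point of Cantor space read as an atomic diagram -/
def PreD (y : CS) : Pre ℕ := fun c a b d => y (gA c a b d) = true

section Comp
variable {α : Type} [Primcodable α]

@[fun_prop] theorem c_blk {f : α → ℕ} (hf : Computable f) : Computable (fun a => blk (f a)) :=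
  Computable.option_getD (by fun_prop) (Computable.const _)

@[fun_prop] theorem c_decL {f : α → ℕ} (hf : Computable f) : Computable (fun a => decL (f a)) :=
  Computable.option_getD (by fun_prop) (Computable.const _)

@[fun_prop] theorem c_exC {f : α → ℕ} {g : α → List Lt} (hf : Computable f) (hg : Computable g) :
    Computable (fun a => exC (f a) (g a)) := by
  unfold exC; fun_prop

@[fun_prop] theorem c_gA {f g h j : α → ℕ} (hf : Computable f) (hg : Computable g)
    (hh : Computable h) (hj : Computable j) : Computable (fun a => gA (f a) (g a) (h a) (j a)) := by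
  unfold gA; fun_prop

end Comp

@[simp] theorem blk_encode (n : ℕ) (L : List Lt) : blk (Encodable.encode (n, L)) = (n, L) := by
  rw [blk, Encodable.encodek]; rfl

@[simp] theorem decL_encode (L : List Lt) : decL (Encodable.encode L) = L := by
  rw [decL, Encodable.encodek]; rfl

variable {M : Type} (P : Pre M)

theorem sat_zero (c : ℕ) (v : ℕ → M) : sat P 0 c v ↔ P c (v 0) (v 1) (v 2) := Iff.rfl

theorem sat_even {c : ℕ} (h : c % 2 = 0) (k : ℕ) (v : ℕ → M) :
    sat P (k + 1) c v ↔ sat P k (c / 2) v := by
  rw [sat, if_pos h]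

theorem sat_odd {c : ℕ} (h : c % 2 = 1) (k : ℕ) (v : ℕ → M) :
    sat P (k + 1) c v ↔ ∃ w : ℕ → M, (∀ i < (blk (c / 2)).1, w i = v i) ∧
      Hold P k (blk (c / 2)).2 w := by
  rw [sat, if_neg (by omega)]; rfl

theorem sat_two_mul (k c : ℕ) (v : ℕ → M) : sat P (k + 1) (2 * c) v ↔ sat P k c v := by
  rw [sat_even P (by omega), Nat.mul_div_cancel_left _ (by omega)]

theorem sat_exC (k n : ℕ) (L : List Lt) (v : ℕ → M) :
    sat P (k + 1) (exC n L) v ↔ ∃ w : ℕ → M, (∀ i < n, w i = v i) ∧ Hold P k L w := by
  have h : exC n L / 2 = Encodable.encode (n, L) := by unfold exC; omega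
  rw [sat_odd P (by unfold exC; omega), h, blk_encode]

theorem TK_iff (k : ℕ) (L : List Lt) : TK P k (Encodable.encode L) = true ↔ th P k L := by
  simp [TK]

theorem preD_dg (B : LA.Structure ℕ) : PreD (dg B) = @PreLA ℕ B := by
  funext c a b d
  have e := mem_diagram_eq B
  have e0 := e (Term.var a) (Term.var b)
  have e1 := mem_diagram_lt B (Term.var a) (Term.var b)
  have e2 := e (addT (Term.var a) (Term.var b)) (Term.var d)
  have e3 := e (mulT (Term.var a) (Term.var b)) (Term.var d)
  have e4 := e (Term.var a) zeroT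
  have e5 := e (Term.var a) oneT
  simp only [code_var, code_add, code_mul, code_zero, code_one, realize_addT, realize_mulT,
    realize_zeroT, realize_oneT, Term.realize_var, id] at e0 e1 e2 e3 e4 e5
  have hd : ∀ n, dg B n = true ↔ n ∈ diagram B := fun n => by simp [dg]
  apply propext
  rw [PreD, hd, PreLA, gA]
  split_ifs with h0 h1 h2 h3 h4
  · simpa [eqb, h0] using e0
  · simpa [eqb, h1] using e1
  · simpa [eqb, h2] using e2
  · simpa [eqb, h3] using e3
  · simpa [eqb, h4] using e4
  · simpa [eqb, h0, h1, h2, h3, h4] using e5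

end Pool.Agent.MinDeg
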