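import Pool.Agent.P.MP_f8f34d_lc.a.SolD

/-! The two extension steps. -/

namespace Pool.Agent.MinDeg.Sol

open Pool.Agent.Lib.ComputableProp

/-- the largest admissible number below a computable bound -/
theorem solE_max {α : Type} [Primcodable α] {x : CS} {OK : α → ℕ → Prop} {l : α → ℕ}
    (hl : Computable l) (h : DE x (fun z : α × ℕ => OK z.1 z.2)) (h0 : ∀ a, OK a 0) :
    ∃ N : α → ℕ, CF x N ∧ ∀ a, OK a (N a) ∧ ∀ m ≤ l a, OK a m → m ≤ N a := by
  have hR : SE x (fun z : α × ℕ => OK z.1 z.2 ∧ ∀ m < l z.1 + 1, z.2 < m → ¬ OK z.1 m) := by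
    refine h.1.and (SE.forall_lt (l := fun z : α × ℕ => l z.1 + 1) (by fun_prop) ?_)
    exact (DE.imp (DE.lt (f := fun u : (α × ℕ) × ℕ => u.1.2) (g := fun u => u.2) (by fun_prop)
      (by fun_prop)) (h.comp (f := fun u : (α × ℕ) × ℕ => (u.1.1, u.2)) (by fun_prop)).not).1
  obtain ⟨N, hN, H⟩ := SE.unif (R := fun a n => OK a n ∧ ∀ m < l a + 1, n < m → ¬ OK a m) hR
    (fun a => by
      classical
      refine ⟨Nat.findGreatest (OK a) (l a), Nat.findGreatest_spec (Nat.zero_le _) (h0 a),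
        fun m hm hn => Nat.findGreatest_is_greatest hn (by omega)⟩)
  refine ⟨N, hN, fun a => ⟨(H a).1, fun m hm hk => ?_⟩⟩
  by_contra hc
  exact (H a).2 m (by omega) (by omega) hk

/-- the list after the decision about the literal number `t` -/
def solE_new (t : ℕ) (F : List Lt) (b : Bool) : List Lt :=
  (b, t.unpair.1, Denumerable.ofNat (List ℕ) t.unpair.2) :: F

theorem solE_ix (t : ℕ) : ix t.unpair.1 (Denumerable.ofNat (List ℕ) t.unpair.2) = t := by
  rw [ix, Denumerable.encode_ofNat, Nat.pair_unpair]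

@[fun_prop] theorem solE_cnew {α : Type} [Primcodable α] {f : α → ℕ} {g : α → List Lt}
    {b : α → Bool} (hf : Computable f) (hg : Computable g) (hb : Computable b) :
    Computable (fun a => solE_new (f a) (g a) (b a)) := by
  unfold solE_new
  exact c_cons (c_pair hb (c_pair (by fun_prop) (c_ofNat _ (by fun_prop)))) hg

/-- the argument of an extension step -/
abbrev solE_A : Type := ℕ × Pm × List (ℕ × ℕ)

theorem solE_lits0 {X : CS} {p : Pm} (h : p.2.1 = 0) (l : Lt) : lits X p l ↔ l ∈ p.2.2 := by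
  refine ⟨fun k => k.elim id fun k => ?_, Or.inl⟩
  have := k.1.1
  omega

theorem ext0 (X : CS) : ExtP X X 0 Inv0 := by
  let G : solE_A → ℕ → Bool → Prop := fun a m b =>
    ∀ j < m, cmp X (a.2.2.getD j (0, 0)) (solE_new a.1 a.2.1.2.2 b)
  have hc : DE X (fun u : (ℕ × ℕ) × List Lt => cmp X u.1 u.2) :=
    ⟨(sig_cmp CM.id (g := fun u : (ℕ × ℕ) × List Lt => u.1) (L := fun u => u.2) (by fun_prop)
      (by fun_prop)).se X, (Pii.neg (pii_cmp CM.id (g := fun u : (ℕ × ℕ) × List Lt => u.1)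
      (L := fun u => u.2) (by fun_prop) (by fun_prop))).se X⟩
  have hG : DE X (fun u : (solE_A × ℕ) × Bool => G u.1.1 u.1.2 u.2) :=
    DE.forall_lt (l := fun u : (solE_A × ℕ) × Bool => u.1.2) (by fun_prop)
      (hc.comp (f := fun v : ((solE_A × ℕ) × Bool) × ℕ => (v.1.1.1.2.2.getD v.2 (0, 0),
        solE_new v.1.1.1.1 v.1.1.1.2.1.2.2 v.1.2)) (by fun_prop))
  have hO : DE X (fun u : solE_A × ℕ => G u.1 u.2 true ∨ G u.1 u.2 false) :=
    (hG.comp (f := fun u : solE_A × ℕ => (u, true)) (by fun_prop)).or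
      (hG.comp (f := fun u : solE_A × ℕ => (u, false)) (by fun_prop))
  obtain ⟨N, hN, H⟩ := solE_max (OK := fun a m => G a m true ∨ G a m false)
    (l := fun a : solE_A => a.2.2.length) (by fun_prop) hO
    (fun a => Or.inl fun j hj => absurd hj (Nat.not_lt_zero j))
  obtain ⟨B, hB, HB⟩ := SE.unif (R := fun (a : solE_A) b => G a (N a) b)
    (hG.1.compCF (f := fun u : solE_A × Bool => ((u.1, N u.1), u.2))
      (((CF.of_computable Computable.fst).pair (hN.compC Computable.fst)).pair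
        (CF.of_computable Computable.snd)))
    (fun a => (H a).1.elim (fun h => ⟨_, h⟩) fun h => ⟨_, h⟩)
  refine ⟨fun a => ((a.2.1.1, 0, solE_new a.1 a.2.1.2.2 (B a)), N a), CF.pair ?_ hN, ?_⟩
  · exact (CF.of_computable (f := fun u : solE_A × Bool =>
      ((u.1.2.1.1, 0, solE_new u.1.1 u.1.2.1.2.2 u.2) : Pm)) (by fun_prop)).comp
      ((CF.of_computable Computable.id).pair hB)
  intro P t p gs n w hI hn hR hC
  obtain ⟨i1, i2, i3⟩ := hI
  have hlt : n < N (t, p, gs) := by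
    obtain ⟨w', a1, a2⟩ := ((hR n le_rfl).1.cmp_iff P (hR n le_rfl).2.1 p.2.2).1
      (hC _ fun l hl => Or.inl hl)
    have key : ∀ b, H1 P 0 (b, t.unpair.1, Denumerable.ofNat (List ℕ) t.unpair.2) w' →
        G (t, p, gs) (n + 1) b := fun b hb j hj =>
      ((hR j (by omega)).1.cmp_iff P (hR j (by omega)).2.1 _).2
        ⟨w', fun i hi => a1 i (hi.trans_le (hR j (by omega)).2.2),
          List.forall_mem_cons.2 ⟨hb, a2⟩⟩
    refine (H (t, p, gs)).2 (n + 1) hn ?_
    by_cases hs : sat P 0 t.unpair.1 (ren w' (Denumerable.ofNat (List ℕ) t.unpair.2))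
    · exact Or.inl (key true (by simpa [H1] using hs))
    · exact Or.inr (key false (by simpa [H1] using hs))
  refine ⟨⟨rfl, ⟨Nat.zero_le _, fun l hl => ?_⟩, fun c r hcr => ?_⟩, fun l hl => ?_, hlt,
    fun j hj L hL => ?_⟩
  · rcases List.mem_cons.1 hl with rfl | hl
    · refine ⟨Nat.succ_pos _, fun i hi => ?_⟩
      have := lt_ix (p := t.unpair.1) hi
      rw [solE_ix] at this
      omega
    · exact (i2.2 l hl).mono (Nat.le_succ _)
  · by_cases e : ix c r < t
    · obtain ⟨s, hs⟩ := i3 c r e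
      exact ⟨s, List.mem_cons_of_mem _ hs⟩
    · have e' : ix c r = t := by omega
      refine ⟨B (t, p, gs), ?_⟩
      subst e'
      simp only [solE_new, ix, Nat.unpair_pair, Denumerable.ofNat_encode]
      exact List.mem_cons_self
  · exact Or.inl (List.mem_cons_of_mem _ ((solE_lits0 i1 l).1 hl))
  · obtain ⟨w', a1, a2⟩ := ((hR j hj).1.cmp_iff P (hR j hj).2.1 _).1
      (HB (t, p, gs) j (by omega))
    exact ((hR j hj).1.cmp_iff P (hR j hj).2.1 _).2
      ⟨w', a1, fun l hl => a2 l ((solE_lits0 rfl l).1 (hL l hl))⟩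

/-- `Y` extends the column of `p` by one variable, compatibly with the first `m` columns -/
def solE_C (X Y : CS) (a : solE_A × ℕ) : Prop :=
  (∀ u : ℕ × List ℕ, bd a.1.1 u.2 → Y (ix u.1 u.2) = colm X a.1.2.1.1 (ix u.1 u.2)) ∧
  ∀ u : ℕ × List Lt, (u.1 < a.2 ∧ ∀ l ∈ u.2, bd (a.1.1 + 1) l.2.2 ∧ Y (ix l.2.1 l.2.2) = l.1) →
    cmp X (a.1.2.2.getD u.1 (0, 0)) u.2

theorem solE_pii : Pii (fun z a => solE_C (lf z) (rt z) a) := by
  refine Pii.and (Pii.all (Pii.imp (Sig.of_re (re_bd (by fun_prop) (by fun_prop)))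
    (Pii.beq CM.id.rt (cm_colm CM.id.lf (by fun_prop)) (by fun_prop) (by fun_prop))))
    (Pii.all (Pii.imp (Sig.and (Sig.of_re (RE.lt (by fun_prop) (by fun_prop)))
      (Sig.forall_mem (by fun_prop) (Sig.and (Sig.of_re (re_bd (by fun_prop) (by fun_prop)))
        (CM.id.rt.bit (by fun_prop) (by fun_prop)))))
      (pii_cmp CM.id.lf (by fun_prop) (by fun_prop))))

theorem solE_getD (gs : List (ℕ × ℕ)) (j : ℕ) :
    (gs.getD j (0, 0)).1 ≤ (gs.map fun g => g.1).sum := by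
  by_cases hj : j < gs.length
  · rw [List.getD_eq_getElem _ _ hj]
    exact List.single_le_sum (fun _ _ => Nat.zero_le _) _
      (List.mem_map.2 ⟨_, List.getElem_mem hj, rfl⟩)
  · rw [List.getD_eq_default _ _ (by omega)]
    exact Nat.zero_le _

theorem ext1 {X : CS} (hP : PathP X) (k : ℕ) : ExtP X (jp X) k Inv1 := by
  obtain ⟨κ, hκ, Hκ⟩ := path_use hP (C := solE_C) solE_pii
    (b := fun a => a.1.2.1.1 + (a.1.2.2.map fun g => g.1).sum + 1) (by fun_prop) (fun Y a => by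
      have e : ∀ j, cmp (cutc (a.1.2.1.1 + (a.1.2.2.map fun g => g.1).sum + 1) X)
          (a.1.2.2.getD j (0, 0)) = cmp X (a.1.2.2.getD j (0, 0)) := fun j =>
        cmp_cutc (by have := solE_getD a.1.2.2 j; omega) X
      unfold solE_C
      rw [colm_cutc (by omega)]
      simp only [e])
  obtain ⟨N, hN, H⟩ := solE_max (x := jp X) (OK := fun (a : solE_A) m => ∃ Y, solE_C X Y (a, m))
    (l := fun a : solE_A => a.2.2.length) (by fun_prop)
    ((Pii.exC (P := fun x w a => solE_C x w a) solE_pii).de X)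
    (fun a => ⟨colm X a.2.1.1, fun _ _ => rfl, fun u hu => absurd hu.1 (Nat.not_lt_zero _)⟩)
  refine ⟨fun a => ((κ (a, N a), a.1 + 1, []), N a), CF.pair ?_ hN, ?_⟩
  · exact (CF.of_computable (f := fun u : solE_A × ℕ => ((κ u, u.1.1 + 1, []) : Pm))
      (by fun_prop)).comp ((CF.of_computable Computable.id).pair hN)
  intro P t p gs n w hI hn hR hC
  obtain ⟨i1, i2⟩ := hI
  obtain ⟨c1, c2⟩ := Hκ _ (H (t, p, gs)).1
  have hlt : n < N (t, p, gs) := by
    obtain ⟨U, u1, u2⟩ := exists_ultra P k {v | ∀ i < (gs.getD n (0, 0)).2, v i = w i} (lits X p)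
      fun L hL => ((hR n le_rfl).1.cmp_iff P (hR n le_rfl).2.1 L).1 (hC L hL)
    refine (H (t, p, gs)).2 (n + 1) hn ⟨tpU P U k, fun u hu => ?_, fun u hu => ?_⟩
    · exact (tpU_eq P U k (colm X p.1 (ix u.1 u.2), u.1, u.2)).2
        (u2 _ (Or.inr ⟨by rw [i1]; exact hu, rfl⟩))
    · have hj : u.1 ≤ n := Nat.lt_succ_iff.1 hu.1
      obtain ⟨v, v1, v2⟩ := U.nonempty_of_mem (Filter.inter_mem u1
        (hold_mem P (L := u.2) fun l hl => (tpU_eq P U k l).1 (hu.2 l hl).2))
      exact ((hR _ hj).1.cmp_iff P (hR _ hj).2.1 _).2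
        ⟨v, fun i hi => v1 i (hi.trans_le (hR _ hj).2.2), v2⟩
  refine ⟨⟨rfl, rfl⟩, fun l hl => ?_, hlt, fun j hj L hL => ?_⟩
  · rcases hl with hl | ⟨h1, h2⟩
    · rw [i2] at hl
      exact absurd hl List.not_mem_nil
    · rw [i1] at h1
      exact Or.inr ⟨h1.mono (Nat.le_succ _), (c1 (l.2.1, l.2.2) h1).trans h2⟩
  · exact c2 (j, L) ⟨lt_of_le_of_lt hj hlt, fun l hl =>
      (hL l hl).elim (fun h => absurd h List.not_mem_nil) id⟩

end Pool.Agent.MinDeg.Sol
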