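import Pool.Agent.P.MP_f8f34d_lc.a.SolW

/-! The lowering lemma. -/

namespace Pool.Agent.MinDeg.Sol

open Pool.Agent.Lib.ComputableProp Filter

variable {X x : CS} {P : Pre ℕ} {k : ℕ}

def val (a : En) : List ℕ × ℕ := (a.1, a.2.1)

/-- the entry pushed at stage `t` on height `j` -/
def mkE (kk : (List ℕ × ℕ) × Pm × ℕ × ℕ → ℕ) (g : List ℕ × ℕ) (p : Pm) (t j : ℕ) : En :=
  (g.1, g.2, g.1.length + t, j, kk (g, p, g.1.length + t, j))

section Comp
variable {α : Type} [Primcodable α]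

theorem c_en (e0 : En) {S : α → List En} {i : α → ℕ} (hS : Computable S) (hi : Computable i) :
    Computable fun a => en e0 (S a) (i a) := by
  unfold en; fun_prop

theorem c_take {β : Type} [Primcodable β] {S : α → List β} {n : α → ℕ} (hS : Computable S)
    (hn : Computable n) : Computable fun a => (S a).take (n a) :=
  Primrec.list_take.to_comp.comp hn hS

end Comp

theorem low_run {kk : (List ℕ × ℕ) × Pm × ℕ × ℕ → ℕ} (hk : Computable kk) {G : En × ℕ → List ℕ × ℕ}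
    (hG : CF x G) {E : ℕ × Pm × List (ℕ × ℕ) → Pm × ℕ} (hE : CF x E) (e0 : En) :
    ∃ st : ℕ → Pm × List En, CF x st ∧ st 0 = ((0, 0, []), []) ∧ ∀ t, ∃ (n : ℕ) (b : En),
      n ≤ (st t).2.length ∧ (∀ i < n, G (en e0 (st t).2 i, t) = val (en e0 (st t).2 (i + 1))) ∧
      (n = (st t).2.length ∨ G (en e0 (st t).2 n, t) ≠ val (en e0 (st t).2 (n + 1))) ∧
      b = mkE kk (G (en e0 (st t).2 n, t)) (st t).1 t (n + 1) ∧
      st (t + 1) = ((E (t, (st t).1, (e0 :: ((st t).2.take n ++ [b])).map gd)).1,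
        ((st t).2.take n ++ [b]).take
          ((E (t, (st t).1, (e0 :: ((st t).2.take n ++ [b])).map gd)).2 - 1)) := by
  have hv : Computable val := by unfold val; fun_prop
  have hd : Computable gd := by unfold gd; fun_prop
  have hf : Computable fun w : (ℕ × Pm × List En) × ℕ =>
      ((en e0 w.1.2.2 w.2, w.1.1), val (en e0 w.1.2.2 (w.2 + 1))) :=
    c_pair (c_pair (c_en e0 (by fun_prop) (by fun_prop)) (by fun_prop))
      (hv.comp (c_en e0 (by fun_prop) (by fun_prop)))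
  have hD : DE x fun w : (ℕ × Pm × List En) × ℕ =>
      G (en e0 w.1.2.2 w.2, w.1.1) = val (en e0 w.1.2.2 (w.2 + 1)) := hG.de.comp hf
  obtain ⟨N, hN, H⟩ := SE.unif (y := x) (R := fun (w : ℕ × Pm × List En) (n : ℕ) =>
      n ≤ w.2.2.length ∧ (∀ i < n, G (en e0 w.2.2 i, w.1) = val (en e0 w.2.2 (i + 1))) ∧
      (n = w.2.2.length ∨ G (en e0 w.2.2 n, w.1) ≠ val (en e0 w.2.2 (n + 1))))
    (SE.and (SE.of_re (RE.le (by fun_prop) (by fun_prop))) (SE.and
      (SE.forall_lt (l := fun w : (ℕ × Pm × List En) × ℕ => w.2) (by fun_prop)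
        (hD.1.comp (f := fun w : ((ℕ × Pm × List En) × ℕ) × ℕ => (w.1.1, w.2)) (by fun_prop)))
      (SE.or (SE.of_re (RE.eq (by fun_prop) (by fun_prop))) hD.2))) (fun w => by
      classical
      have hex : ∃ n, n = w.2.2.length ∨ G (en e0 w.2.2 n, w.1) ≠ val (en e0 w.2.2 (n + 1)) :=
        ⟨_, Or.inl rfl⟩
      refine ⟨Nat.find hex, Nat.find_min' hex (Or.inl rfl), fun i hi => ?_, Nat.find_spec hex⟩
      exact not_not.1 (not_or.1 (Nat.find_min hex hi)).2)
  have h1 : CF x fun w : ℕ × Pm × List En => (w, N w) := (CF.of_computable Computable.id).pair hN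
  have h2 : CF x fun w : (ℕ × Pm × List En) × ℕ => (w, G (en e0 w.1.2.2 w.2, w.1.1)) :=
    (CF.of_computable Computable.id).pair (hG.compC
      (c_pair (c_en e0 (by fun_prop) (by fun_prop)) (by fun_prop)))
  have h3 : Computable fun w : ((ℕ × Pm × List En) × ℕ) × List ℕ × ℕ =>
      (w.1.1.1, w.1.1.2.1, w.1.1.2.2.take w.1.2 ++ [mkE kk w.2 w.1.1.2.1 w.1.1.1 (w.1.2 + 1)]) := by
    refine c_pair (by fun_prop) (c_pair (by fun_prop) (c_append (c_take (by fun_prop) (by fun_prop))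
      (c_cons ?_ (by fun_prop))))
    unfold mkE
    exact c_pair (by fun_prop) (c_pair (by fun_prop) (c_pair (by fun_prop) (c_pair (by fun_prop)
      (hk.comp (by fun_prop)))))
  have h4 : CF x fun w : ℕ × Pm × List En => (w, E (w.1, w.2.1, (e0 :: w.2.2).map gd)) :=
    (CF.of_computable Computable.id).pair (hE.compC (c_pair (by fun_prop) (c_pair (by fun_prop)
      (c_map (by fun_prop) (hd.comp Computable.snd)))))
  have h5 : Computable fun w : (ℕ × Pm × List En) × Pm × ℕ => (w.2.1, w.1.2.2.take (w.2.2 - 1)) :=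
    c_pair (by fun_prop) (c_take (by fun_prop) (by fun_prop))
  have h6 := (CF.of_computable h5).comp (h4.comp ((CF.of_computable h3).comp (h2.comp h1)))
  refine ⟨_, h6.iter ((0, 0, []), []), rfl, fun t => ?_⟩
  exact ⟨_, _, (H (t, _)).1, (H (t, _)).2.1, (H (t, _)).2.2, rfl, rfl⟩

theorem chain {a : ℕ → En} {n : ℕ} (h1 : ∀ i < n, Ans X P k (a i) (val (a (i + 1))))
    (h2 : ∀ i ≤ n, (a i).1.length ≤ (a i).2.2.1) {w : ℕ → ℕ}
    (hw : ∀ m < (a n).1.length, w m = asg (a n).1 m) : ∀ i ≤ n,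
      (a i).2.2.1 ≤ (a n).2.2.1 ∧ (∀ m < (a i).1.length, w m = asg (a i).1 m) := by
  intro i hi
  induction hi using Nat.decreasingInduction with
  | self => exact ⟨le_rfl, hw⟩
  | of_succ i hi ih =>
    obtain ⟨a1, ⟨a2, -⟩, -⟩ := h1 i hi
    have a3 := h2 (i + 1) hi
    have a4 := h2 i hi.le
    have a5 : (a (i + 1)).1.length = (a i).2.2.1 + 1 := a1
    exact ⟨by omega, fun m hm => (ih.2 m (by omega)).trans (a2 m hm)⟩

theorem lower (hP : PathP X) (hx : LeT X x) (hI : Idx X (jp x) P (k + 2)) (hS : Satu X P (k + 1))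
    {Inv : ℕ → Pm → Prop} (h0 : Inv 0 (0, 0, [])) (hV : ∀ t p, Inv t p → Vb p t)
    (hE : ExtP X x k Inv) : ∃ f : ℕ → ℕ, Function.Surjective f ∧ ∃ ps : ℕ → Pm, CF x ps ∧
      ∀ t, Inv t (ps t) ∧ ∀ l, lits X (ps t) l → H1 P k l f := by
  obtain ⟨G, hG, HG⟩ := low_ans hx hI
  obtain ⟨kk, hk, Hk⟩ := low_mk hP hS
  obtain ⟨E, cE, HE⟩ := hE
  obtain ⟨τ, -, Hτ⟩ := hI
  obtain ⟨e0, r0, j0, c0⟩ : ∃ e0 : En, Rea X P k e0 ∧ e0.2.2.2.1 = 0 ∧ Cpt X (0, 0, []) (gd e0) := by
    obtain ⟨a, b⟩ := Hk ([], τ 1) (0, 0, []) 0 0 le_rfl ⟨le_rfl, by simp⟩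
      (fun c => Hτ 1 c _ ⟨by omega, by simp⟩) fun L hL => ⟨id, by simp, fun l hl =>
        (hL l hl).elim (by simp) fun h => absurd h.1.1 (lt_irrefl _)⟩
    exact ⟨_, a, rfl, b⟩
  obtain ⟨st, cs, s0, hs⟩ := low_run hk hG cE e0
  let Lim : En → En → Prop := fun a c => Ans X P k a (val c) ∧ ∀ᶠ s in atTop, G (a, s) = val c
  let J : Pm → List En → Prop := fun p S => ∀ n, Cr e0 Lim S n → ∀ i ≤ n,
    Rea X P k (en e0 S i) ∧ (en e0 S i).2.2.2.1 = i ∧ Cpt X p (gd (en e0 S i))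
  have ext : ∀ t p S, Inv t p → J p S → ∀ n, Cr e0 Lim S n →
      Inv (t + 1) (E (t, p, (e0 :: S).map gd)).1 ∧
      (∀ l, lits X p l → lits X (E (t, p, (e0 :: S).map gd)).1 l) ∧
      n < (E (t, p, (e0 :: S).map gd)).2 ∧
      ∀ j ≤ n, Cpt X (E (t, p, (e0 :: S).map gd)).1 (gd (en e0 S j)) := by
    intro t p S hi hJ n hn
    have hg : ∀ j ≤ n, ((e0 :: S).map gd).getD j (0, 0) = gd (en e0 S j) := fun j hj => by
      have : j < (e0 :: S).length := by have := hn.1; simp; omega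
      rw [en, List.getD_eq_getElem _ _ this, List.getD_eq_getElem _ _ (by simpa using this),
        List.getElem_map]
    obtain ⟨⟨-, w, w1, w2⟩, -, c⟩ := hJ n hn n le_rfl
    have hc := chain (a := en e0 S) (fun i hi => (hn.2 i hi).1) (fun i hi => (hJ n hn i hi).1.1) w1.1
    obtain ⟨a1, a2, a3, a4⟩ := HE P t p ((e0 :: S).map gd) n w hi (by have := hn.1; simp; omega)
      (fun j hj => by
        rw [hg j hj, hg n le_rfl]
        refine ⟨?_, Nat.succ_pos _, Nat.succ_le_succ (hc j hj).1⟩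
        rcases hj.eq_or_lt with rfl | h
        · exact w2
        · obtain ⟨b1, -, b2, -⟩ := (hn.2 j h).1
          exact b2.congr fun i hi => (hc (j + 1) h).2 i (lt_of_lt_of_eq hi b1.symm))
      (by rw [hg n le_rfl]; exact c)
    exact ⟨a1, a2, a3, fun j hj => hg j hj ▸ a4 j hj⟩
  have cr0 : ∀ S, Cr e0 Lim S 0 := fun S => ⟨Nat.zero_le _, by simp⟩
  have push : ∀ t p (S : List En) n, Inv t p → J p S → n ≤ S.length →
      J p (S.take n ++ [mkE kk (G (en e0 S n, t)) p t (n + 1)]) := by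
    intro t p S n hi hJ hn m hm i him
    generalize hb : mkE kk (G (en e0 S n, t)) p t (n + 1) = b at hm ⊢
    have hlen : (S.take n).length = n := by simp [hn]
    have e1 : ∀ i ≤ n, en e0 (S.take n ++ [b]) i = en e0 S i := fun i hi => by
      rw [en_append _ _ _ (by omega), en_take _ _ hi]
    have e2 : en e0 (S.take n ++ [b]) (n + 1) = b := by
      have := en_last e0 (S.take n) b
      rwa [hlen] at this
    have hm1 : m ≤ n + 1 := by simpa [hn] using hm.1
    rcases (by omega : i ≤ n ∨ i = n + 1) with h | rfl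
    · rw [e1 i h]
      exact hJ i ((hm.mono him).congr (by omega) fun j hj => (e1 j (by omega)).symm) i le_rfl
    · have c1 : Cr e0 Lim S n := (hm.mono (by omega)).congr hn fun j hj => (e1 j hj).symm
      have c2 := (hm.2 n (by omega)).1
      obtain ⟨-, c3, c4⟩ := hJ n c1 n le_rfl
      rw [e1 n le_rfl, e2, ← hb] at c2
      rw [e2, ← hb]
      obtain ⟨b1, -, b2, b3⟩ := c2
      rw [c3] at b3
      obtain ⟨d1, d2⟩ := Hk (G (en e0 S n, t)) p ((G (en e0 S n, t)).1.length + t) (n + 1) (by omega)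
        ((hV t p hi).mono (by omega)) b3 fun L hL => by
          obtain ⟨w, w1, w2⟩ := (Rz.cmp_iff P b2 (Nat.succ_pos _) L).1 (c4 L hL)
          exact ⟨w, fun i hi => w1 i (lt_of_lt_of_eq hi b1), w2⟩
      exact ⟨d1, rfl, d2⟩
  have inv : ∀ t, Inv t (st t).1 ∧ J (st t).1 (st t).2 := by
    intro t
    induction t with
    | zero =>
      rw [s0]
      refine ⟨h0, fun n hn i hi => ?_⟩
      obtain rfl : i = 0 := by have := hn.1; simp at this; omega
      exact ⟨r0, j0, c0⟩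
    | succ t ih =>
      obtain ⟨n, b, s1, -, -, rfl, s2⟩ := hs t
      have hJ := push t _ _ n ih.1 ih.2 s1
      rw [s2]
      refine ⟨(ext t _ _ ih.1 hJ 0 (cr0 _)).1, fun m hm i hi => ?_⟩
      have h1 := hm.1
      rw [List.length_take] at h1
      have hm' := hm.congr (le_trans h1 (min_le_right _ _)) fun j hj =>
        (en_take e0 _ (le_trans hj (le_trans h1 (min_le_left _ _)))).symm
      dsimp only
      rw [en_take e0 _ (le_trans hi (le_trans h1 (min_le_left _ _)))]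
      exact ⟨(hJ m hm' i hi).1, (hJ m hm' i hi).2.1, (ext t _ _ ih.1 hJ m hm').2.2.2 i hi⟩
  have mono : ∀ t t', t ≤ t' → ∀ l, lits X (st t).1 l → lits X (st t').1 l := by
    intro t t' h l hl
    induction t', h using Nat.le_induction with
    | base => exact hl
    | succ t' _ ih =>
      obtain ⟨n, b, s1, -, -, rfl, s2⟩ := hs t'
      rw [s2]
      exact (ext t' _ _ (inv t').1 (push t' _ _ n (inv t').1 (inv t').2 s1) 0 (cr0 _)).2.1 l ih
  obtain ⟨a, ha⟩ := stack e0 val G (Ans X P k) (fun t => (st t).2) (fun t => by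
      obtain ⟨n, b, s1, s2, s3, s4, s5⟩ := hs t
      refine ⟨n, b, s1, s2, s3, by rw [s4]; rfl, fun m hm => ?_⟩
      have hJ := push t _ _ n (inv t).1 (inv t).2 s1
      rw [← s4] at hJ
      have h1 := (ext t _ _ (inv t).1 hJ m hm).2.2.1
      have h2 := hm.1
      rw [s5]
      exact ⟨by rw [List.length_take]; omega, fun i hi => en_take e0 _ (by omega)⟩)
    fun t n hn => HG _ ((inv t).2 n hn n le_rfl).1
  have a1 : ∀ i, Ans X P k (a i) (val (a (i + 1))) := fun i => by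
    obtain ⟨t, h1, h2⟩ := (ha (i + 1)).exists
    rw [← h2 i (by omega), ← h2 (i + 1) le_rfl]
    exact (h1.2 i (by omega)).1
  have a2 : ∀ i, (a i).1.length ≤ (a i).2.2.1 ∧ (a i).2.2.2.1 = i := fun i => by
    obtain ⟨t, h1, h2⟩ := (ha i).exists
    rw [← h2 i le_rfl]
    exact ⟨((inv t).2 i h1 i le_rfl).1.1, ((inv t).2 i h1 i le_rfl).2.1⟩
  have a3 : ∀ i, (a (i + 1)).1.length = (a i).2.2.1 + 1 := fun i => (a1 i).1
  have a4 : ∀ i, i ≤ (a i).2.2.1 := fun i => by
    induction i with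
    | zero => omega
    | succ i ih => have := a3 i; have := (a2 (i + 1)).1; omega
  have a5 : ∀ n m, m < (a n).1.length → asg (a (m + 1)).1 m = asg (a n).1 m := fun n m hm => by
    have hc := chain (a := a) (n := n + m + 1) (fun i _ => a1 i) (fun i _ => (a2 i).1)
      fun _ _ => rfl
    rw [← (hc n (by omega)).2 m hm, ← (hc (m + 1) (by omega)).2 m (by
      have := a3 m; have := a4 m; omega)]
  refine ⟨fun m => asg (a (m + 1)).1 m, fun j => ⟨(a j).2.2.1, ?_⟩, fun t => (st t).1,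
    (CF.of_computable Computable.fst).comp cs, fun t => ⟨(inv t).1, fun l hl => ?_⟩⟩
  · exact (a5 (j + 1) _ (by rw [a3]; omega)).trans ((a1 j).2.1.2.trans (a2 j).2)
  · obtain ⟨t', ⟨h1, h2⟩, h3⟩ := ((ha t).and (eventually_ge_atTop t)).exists
    have c := ((inv t').2 t h1 t le_rfl).2.2
    rw [h2 t le_rfl] at c
    have hz : Rz X P (k + 1) (gd (a t)) fun m => asg (a (m + 1)).1 m :=
      (a1 t).2.2.1.congr fun i hi => a5 (t + 1) i (lt_of_lt_of_eq hi (a3 t).symm)
    obtain ⟨w, w1, w2⟩ := (Rz.cmp_iff P hz (Nat.succ_pos _) [l]).1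
      (c [l] (by simpa using mono t t' h3 l hl))
    exact (H1_congr P ((hl.bd (hV t _ (inv t).1)).mono ((a4 t).trans (Nat.le_succ _))) w1).1
      (w2 l List.mem_cons_self)

end Pool.Agent.MinDeg.Sol
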