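import Pool.Agent.P.MP_f8f34d_lc.a.PaBr
import Pool.Agent.P.MP_f8f34d_lc.W.PaStmt

/-! The facts about models of arithmetic, collected. -/

namespace Pool.Agent.MinDeg

open FirstOrder FirstOrder.Language

theorem paFacts : PaFacts where
  inf := fun _ _ _ h => Pa.infinite_of_model h
  rep := fun _ hT hP _ _ _ hM k => Pa.rep_TK hT hP hM k
  same := fun _ hT hP _ _ _ _ _ _ hM hN k => Pa.TK_eq hT hP hM hN k
  le := fun _ hT hP hne B hB _ hA => Pa.rep_le hT hP hne B hB hA fun _ => by simp [chi]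
  nf := fun _ _ _ _ _ _ h => Pa.nf h

end Pool.Agent.MinDeg
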