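import Pool.Agent.P.MP_f8f34d_lc.Fm

/-! Predicates and functions that one formula (term) defines in all structures. -/

namespace Pool.Agent.MinDeg.Pa

open FirstOrder FirstOrder.Language

/-- predicates of a valuation, in every structure -/
abbrev UP : Type 1 := ∀ (M : Type) [LA.Structure M], (ℕ → M) → Prop
/-- functions of a valuation, in every structure -/
abbrev UF : Type 1 := ∀ (M : Type) [LA.Structure M], (ℕ → M) → M

def UD (P : UP) : Prop :=
  ∃ (b : ℕ) (φ : Fm), ∀ (M : Type) [LA.Structure M] (v : ℕ → M),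
    P M v ↔ Sat φ ((List.range b).map v)

def UT (f : UF) : Prop :=
  ∃ t : LA.Term ℕ, ∀ (M : Type) [LA.Structure M] (v : ℕ → M), t.realize v = f M v

theorem ud_getD {M : Type} (v : ℕ → M) (d : M) {n i : ℕ} (h : i < n) :
    ((List.range n).map v).getD i d = v i := by
  simp [List.getD_eq_getElem?_getD, h]

theorem ud_bound (t : LA.Term ℕ) : ∃ b, ∀ n, b ≤ n → ∀ (M : Type) [LA.Structure M] (v : ℕ → M),
    ev ((List.range n).map v) t = t.realize v := by
  induction t using term_ind with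
  | hv i => exact ⟨i + 1, fun _ hn _ _ v => ud_getD v _ hn⟩
  | h0 => exact ⟨0, fun _ _ _ _ v => by simp⟩
  | h1 => exact ⟨0, fun _ _ _ _ v => by simp⟩
  | ha s t i j =>
    obtain ⟨a, hs⟩ := i
    obtain ⟨b, ht⟩ := j
    exact ⟨a + b, fun n hn M _ v => by
      rw [ev_add, realize_addT, hs n (by omega), ht n (by omega)]⟩
  | hm s t i j =>
    obtain ⟨a, hs⟩ := i
    obtain ⟨b, ht⟩ := j
    exact ⟨a + b, fun n hn M _ v => by
      rw [ev_mul, realize_mulT, hs n (by omega), ht n (by omega)]⟩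

namespace UT

theorem var (i : ℕ) : UT fun _ _ v => v i := ⟨Term.var i, fun _ _ _ => rfl⟩

theorem zero : UT fun _ _ _ => zM := ⟨zeroT, fun _ _ _ => realize_zeroT _⟩

theorem one : UT fun _ _ _ => oM := ⟨oneT, fun _ _ _ => realize_oneT _⟩

theorem add {f g : UF} (hf : UT f) (hg : UT g) : UT fun M _ v => aM (f M v) (g M v) := by
  obtain ⟨s, hs⟩ := hf
  obtain ⟨t, ht⟩ := hg
  exact ⟨addT s t, fun M _ v => by rw [realize_addT, hs, ht]⟩

theorem mul {f g : UF} (hf : UT f) (hg : UT g) : UT fun M _ v => mM (f M v) (g M v) := by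
  obtain ⟨s, hs⟩ := hf
  obtain ⟨t, ht⟩ := hg
  exact ⟨mulT s t, fun M _ v => by rw [realize_mulT, hs, ht]⟩

theorem num : ∀ k : ℕ, UT fun _ _ _ => num k
  | 0 => zero
  | k + 1 => add (num k) one

theorem ren {f : UF} (hf : UT f) (r : ℕ → ℕ) : UT fun M _ v => f M fun i => v (r i) := by
  obtain ⟨s, hs⟩ := hf
  exact ⟨s.relabel r, fun M _ v => by rw [Term.realize_relabel]; exact hs M _⟩

theorem big {f : UF} (hf : UT f) : ∃ (b : ℕ) (t : LA.Term ℕ), ∀ n, b ≤ n →
    ∀ (M : Type) [LA.Structure M] (v : ℕ → M), ev ((List.range n).map v) t = f M v := by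
  obtain ⟨s, hs⟩ := hf
  obtain ⟨b, hb⟩ := ud_bound s
  exact ⟨b, s, fun n hn M _ v => (hb n hn M v).trans (hs M v)⟩

end UT

namespace UD

theorem of_iff {P Q : UP} (h : UD P) (H : ∀ (M : Type) [LA.Structure M] v, P M v ↔ Q M v) :
    UD Q := by
  obtain ⟨b, φ, h⟩ := h
  exact ⟨b, φ, fun M _ v => (H M v).symm.trans (h M v)⟩

theorem ren {P : UP} (h : UD P) (r : ℕ → ℕ) : UD fun M _ v => P M fun i => v (r i) := by
  obtain ⟨b, φ, h⟩ := h
  refine ⟨(Finset.range b).sup r + 1, φ.ren (mv b ((Finset.range b).sup r + 1) r),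
    fun M _ v => (h M _).trans ?_⟩
  have := sat_ren r φ ((List.range ((Finset.range b).sup r + 1)).map v)
    ((List.range b).map fun i => v (r i)) fun i hi => by
      simp only [List.length_map, List.length_range] at hi ⊢
      have h1 : r i < (Finset.range b).sup r + 1 :=
        Nat.lt_succ_of_le (Finset.le_sup (f := r) (Finset.mem_range.2 hi))
      exact ⟨h1, by rw [ud_getD _ _ h1, ud_getD _ _ hi]⟩
  simpa only [List.length_map, List.length_range] using this.symm

theorem big {P : UP} (h : UD P) : ∃ b, ∀ n, b ≤ n → ∃ φ : Fm,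
    ∀ (M : Type) [LA.Structure M] (v : ℕ → M), P M v ↔ Sat φ ((List.range n).map v) := by
  obtain ⟨b, φ, h⟩ := h
  refine ⟨b, fun n hn => ⟨φ.ren (mv b n id), fun M _ v => (h M _).trans ?_⟩⟩
  have := sat_ren id φ ((List.range n).map v) ((List.range b).map v) fun i hi => by
    simp only [List.length_map, List.length_range, id] at hi ⊢
    exact ⟨by omega, by rw [ud_getD _ _ (by omega), ud_getD _ _ hi]⟩
  simpa only [List.length_map, List.length_range] using this.symm

theorem fal : UD fun _ _ _ => False := ⟨0, .fal, fun _ _ _ => Iff.rfl⟩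

theorem eq {f g : UF} (hf : UT f) (hg : UT g) : UD fun M _ v => f M v = g M v := by
  obtain ⟨a, s, hs⟩ := hf.big
  obtain ⟨b, t, ht⟩ := hg.big
  exact ⟨a + b, .eq s t, fun M _ v => by rw [sat_eq, hs _ (by omega), ht _ (by omega)]⟩

theorem lt {f g : UF} (hf : UT f) (hg : UT g) : UD fun M _ v => lM (f M v) (g M v) := by
  obtain ⟨a, s, hs⟩ := hf.big
  obtain ⟨b, t, ht⟩ := hg.big
  exact ⟨a + b, .lt s t, fun M _ v => by rw [sat_lt, hs _ (by omega), ht _ (by omega)]⟩

theorem imp {P Q : UP} (hP : UD P) (hQ : UD Q) : UD fun M _ v => P M v → Q M v := by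
  obtain ⟨a, ha⟩ := hP.big
  obtain ⟨b, hb⟩ := hQ.big
  obtain ⟨p, hp⟩ := ha (a + b) (by omega)
  obtain ⟨q, hq⟩ := hb (a + b) (by omega)
  exact ⟨a + b, .imp p q, fun M _ v => by rw [sat_imp, ← hp, ← hq]⟩

theorem not {P : UP} (hP : UD P) : UD fun M _ v => ¬ P M v := hP.imp fal

theorem and {P Q : UP} (hP : UD P) (hQ : UD Q) : UD fun M _ v => P M v ∧ Q M v :=
  (hP.imp hQ.not).not.of_iff fun _ _ _ => by tauto

theorem or {P Q : UP} (hP : UD P) (hQ : UD Q) : UD fun M _ v => P M v ∨ Q M v :=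
  (hP.not.imp hQ).of_iff fun _ _ _ => by tauto

theorem iff {P Q : UP} (hP : UD P) (hQ : UD Q) : UD fun M _ v => P M v ↔ Q M v :=
  ((hP.imp hQ).and (hQ.imp hP)).of_iff fun _ _ _ => iff_def.symm

theorem snoc {P : ∀ (M : Type) [LA.Structure M], (ℕ → M) → M → Prop}
    (h : UD fun M _ w => P M (fun i => w (i + 1)) (w 0)) : ∃ (b : ℕ) (φ : Fm),
      ∀ (M : Type) [LA.Structure M] (v : ℕ → M) (a : M),
        P M v a ↔ Sat φ ((List.range b).map v ++ [a]) := by
  obtain ⟨b, φ, h⟩ := h
  let r : ℕ → ℕ := fun i => if i = 0 then b else i - 1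
  refine ⟨b, φ.ren (mv b (b + 1) r), fun M _ v a => ?_⟩
  have h1 := h M fun i => Nat.casesOn i a v
  have := sat_ren r φ ((List.range b).map v ++ [a])
    ((List.range b).map fun i => Nat.casesOn i a v) fun i hi => by
      simp only [List.length_map, List.length_range, List.length_append,
        List.length_singleton] at hi ⊢
      rw [ud_getD _ _ hi]
      rcases i with _ | i
      · refine ⟨Nat.lt_succ_self b, ?_⟩
        show List.getD _ b _ = a
        rw [List.getD_append_right _ _ _ _ (by simp)]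
        simp
      · refine ⟨show i < b + 1 by omega, ?_⟩
        show List.getD _ i _ = v i
        rw [List.getD_append _ _ _ _ (by simp; omega), ud_getD _ _ (by omega)]
  simp only [List.length_map, List.length_range, List.length_append,
    List.length_singleton] at this
  exact h1.trans this.symm

theorem all {P : ∀ (M : Type) [LA.Structure M], (ℕ → M) → M → Prop}
    (h : UD fun M _ w => P M (fun i => w (i + 1)) (w 0)) : UD fun M _ v => ∀ a, P M v a := by
  obtain ⟨b, φ, h⟩ := snoc h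
  exact ⟨b, .all φ, fun M _ v => forall_congr' fun a => h M v a⟩

theorem ex {P : ∀ (M : Type) [LA.Structure M], (ℕ → M) → M → Prop}
    (h : UD fun M _ w => P M (fun i => w (i + 1)) (w 0)) : UD fun M _ v => ∃ a, P M v a :=
  (all (P := fun M _ v a => ¬ P M v a) h.not).not.of_iff fun _ _ _ => by simp

theorem sat (φ : Fm) (i : ℕ) : UD fun _ _ v => Sat φ [v i] :=
  ren (P := fun _ _ v => Sat φ [v 0]) ⟨1, φ, fun _ _ _ => Iff.rfl⟩ fun _ => i

theorem one {P : UP} (h : UD P) : ∃ φ : Fm, ∀ (M : Type) [LA.Structure M] (a : M),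
    P M (fun _ => a) ↔ Sat φ [a] := by
  obtain ⟨b, φ, h⟩ := h
  refine ⟨φ.ren (mv b 1 fun _ => 0), fun M _ a => (h M _).trans ?_⟩
  have := sat_ren (fun _ => 0) φ [a] ((List.range b).map fun _ => a) fun i hi => by
    simp only [List.length_map, List.length_range] at hi
    exact ⟨Nat.zero_lt_one, by rw [ud_getD _ _ hi]; rfl⟩
  simpa only [List.length_map, List.length_range, List.length_singleton] using this.symm

/-- substitution of two terms -/
theorem app2 {P : ∀ (M : Type) [LA.Structure M], M → M → Prop}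
    (h : UD fun M _ v => P M (v 0) (v 1)) {f g : UF} (hf : UT f) (hg : UT g) :
    UD fun M _ v => P M (f M v) (g M v) :=
  (ex (P := fun M _ v a => ∃ b, b = f M v ∧ a = g M v ∧ P M b a)
    (ex (P := fun M _ w b => b = f M (fun i => w (i + 1)) ∧ w 0 = g M (fun i => w (i + 1)) ∧
      P M b (w 0)) ((eq (.var 0) (hf.ren fun i => i + 1 + 1)).and
        ((eq (.var 1) (hg.ren fun i => i + 1 + 1)).and h)))).of_iff fun _ _ _ => by simp

theorem app1 {P : ∀ (M : Type) [LA.Structure M], M → Prop}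
    (h : UD fun M _ v => P M (v 0)) {f : UF} (hf : UT f) : UD fun M _ v => P M (f M v) :=
  app2 (P := fun M _ a _ => P M a) h hf hf

end UD

end Pool.Agent.MinDeg.Pa
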