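import Pool.Agent.P.MP_f8f34d_lc.a.Sat
import Pool.Agent.P.MP_f8f34d_lc.a.PaUd

/-! Every formula is equivalent to a block formula. -/

namespace Pool.Agent.MinDeg.Pa

open FirstOrder FirstOrder.Language

theorem sat_supp (k : ℕ) : ∀ c, ∃ b, ∀ (M : Type) (P : Pre M) (v w : ℕ → M),
    (∀ i < b, v i = w i) → sat P k c v → sat P k c w := by
  induction k with
  | zero =>
    refine fun c => ⟨3, fun M P v w h => ?_⟩
    rw [sat_zero, sat_zero, h 0 (by omega), h 1 (by omega), h 2 (by omega)]
    exact id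
  | succ k ih =>
    intro c
    by_cases hc : c % 2 = 0
    · obtain ⟨b, hb⟩ := ih (c / 2)
      exact ⟨b, fun M P v w h => by rw [sat_even P hc, sat_even P hc]; exact hb M P v w h⟩
    · refine ⟨(blk (c / 2)).1, fun M P v w h => ?_⟩
      rw [sat_odd P (by omega), sat_odd P (by omega)]
      rintro ⟨u, h1, h2⟩
      exact ⟨u, fun i hi => (h1 i hi).trans (h i hi), h2⟩

/-- predicates that are given by a block formula -/
def BK (P : UP) : Prop :=
  ∃ k c, ∀ (M : Type) [LA.Structure M] (v : ℕ → M), P M v ↔ sat (PreLA M) k c v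

namespace BK

theorem of_iff {P Q : UP} (h : BK P) (H : ∀ (M : Type) [LA.Structure M] v, P M v ↔ Q M v) :
    BK Q := by
  obtain ⟨k, c, h⟩ := h
  exact ⟨k, c, fun M _ v => (H M v).symm.trans (h M v)⟩

theorem supp {P : UP} (h : BK P) : ∃ b, ∀ (M : Type) [LA.Structure M] (v w : ℕ → M),
    (∀ i < b, v i = w i) → (P M v ↔ P M w) := by
  obtain ⟨k, c, h⟩ := h
  obtain ⟨b, hb⟩ := sat_supp k c
  refine ⟨b, fun M _ v w e => ?_⟩
  rw [h, h]
  exact ⟨hb M _ v w e, hb M _ w v fun i hi => (e i hi).symm⟩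

theorem lift {P : UP} {k c : ℕ}
    (h : ∀ (M : Type) [LA.Structure M] (v : ℕ → M), P M v ↔ sat (PreLA M) k c v) (d : ℕ) :
    ∃ c, ∀ (M : Type) [LA.Structure M] (v : ℕ → M), P M v ↔ sat (PreLA M) (k + d) c v := by
  induction d with
  | zero => exact ⟨c, h⟩
  | succ d ih =>
    obtain ⟨c, hc⟩ := ih
    exact ⟨2 * c, fun M _ v => (hc M v).trans (sat_two_mul _ _ _ _).symm⟩

theorem block {P Q : UP} (hP : BK P) (hQ : BK Q) (s t : Bool) (n : ℕ) (r r' : ℕ → ℕ) :
    BK fun M _ v => ∃ w : ℕ → M, (∀ i < n, w i = v i) ∧ (P M (fun i => w (r i)) ↔ s = true) ∧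
      (Q M (fun i => w (r' i)) ↔ t = true) := by
  obtain ⟨a, ha⟩ := hP.supp
  obtain ⟨b, hb⟩ := hQ.supp
  obtain ⟨k, c, hc⟩ := hP
  obtain ⟨l, d, hd⟩ := hQ
  obtain ⟨c, hc⟩ := lift hc l
  obtain ⟨d, hd⟩ := lift hd k
  rw [Nat.add_comm] at hd
  refine ⟨k + l + 1, exC n [(s, c, (List.range a).map r), (t, d, (List.range b).map r')],
    fun M _ v => ?_⟩
  rw [sat_exC]
  refine exists_congr fun w => and_congr_right fun _ => ?_
  simp only [Hold, List.forall_mem_cons, List.not_mem_nil, false_imp_iff, implies_true, and_true,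
    ← hc, ← hd]
  rw [ha M _ (ren w ((List.range a).map r)) fun i hi => congrArg w (ud_getD r 0 hi).symm,
    hb M _ (ren w ((List.range b).map r')) fun i hi => congrArg w (ud_getD r' 0 hi).symm]

theorem both {P Q : UP} (hP : BK P) (hQ : BK Q) (s t : Bool) (r : ℕ → ℕ) :
    BK fun M _ v => (P M (fun i => v (r i)) ↔ s = true) ∧ (Q M (fun i => v (r i)) ↔ t = true) := by
  obtain ⟨a, ha⟩ := hP.supp
  obtain ⟨b, hb⟩ := hQ.supp
  refine (hP.block hQ s t ((Finset.range (a + b)).sup r + 1) r r).of_iff fun M _ v =>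
    ⟨?_, fun h => ⟨v, fun _ _ => rfl, h⟩⟩
  rintro ⟨w, h1, h2⟩
  have e : ∀ i < a + b, w (r i) = v (r i) := fun i hi =>
    h1 _ (Nat.lt_succ_of_le (Finset.le_sup (f := r) (Finset.mem_range.2 hi)))
  rwa [ha M _ (fun i => v (r i)) fun i hi => e i (by omega),
    hb M _ (fun i => v (r i)) fun i hi => e i (by omega)] at h2

theorem ren {P : UP} (h : BK P) (r : ℕ → ℕ) : BK fun M _ v => P M fun i => v (r i) :=
  (h.both h true true r).of_iff fun _ _ _ => by simp

theorem not {P : UP} (h : BK P) : BK fun M _ v => ¬ P M v :=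
  (h.both h false false id).of_iff fun _ _ _ => by simp

theorem and {P Q : UP} (hP : BK P) (hQ : BK Q) : BK fun M _ v => P M v ∧ Q M v :=
  (hP.both hQ true true id).of_iff fun _ _ _ => by simp

theorem ex {P : ∀ (M : Type) [LA.Structure M], (ℕ → M) → M → Prop}
    (h : BK fun M _ w => P M (fun i => w (i + 1)) (w 0)) : BK fun M _ v => ∃ a, P M v a := by
  obtain ⟨b, hb⟩ := h.supp
  refine (h.block h true true b (fun i => Nat.casesOn i b id) fun i => Nat.casesOn i b id).of_iff
    fun M _ v => ?_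
  simp only [iff_true, and_self]
  constructor
  · rintro ⟨w, h1, h2⟩
    refine ⟨w b, (hb M (fun i => Nat.casesOn i (w b) w) (fun i => Nat.casesOn i (w b) v)
      fun i hi => ?_).1 h2⟩
    rcases i with _ | i
    · rfl
    · exact h1 i (by omega)
  · rintro ⟨a, ha⟩
    refine ⟨Function.update v b a, fun i hi => Function.update_of_ne hi.ne _ _,
      (hb M (fun i => Nat.casesOn i a v) (fun i => Function.update v b a (Nat.casesOn i b id))
        fun i hi => ?_).1 ha⟩
    rcases i with _ | i
    · exact (Function.update_self b a v).symm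
    · exact (Function.update_of_ne (show i ≠ b by omega) _ _).symm

theorem atom (c i j l : ℕ) : BK fun M _ v => PreLA M c (v i) (v j) (v l) :=
  ren (P := fun M _ v => PreLA M c (v 0) (v 1) (v 2)) ⟨0, c, fun _ _ _ => Iff.rfl⟩
    fun t => Nat.casesOn t i fun t => Nat.casesOn t j fun _ => l

theorem term (t : LA.Term ℕ) : ∀ (j : ℕ) (r : ℕ → ℕ),
    BK fun _ _ v => v j = t.realize fun i => v (r i) := by
  induction t using term_ind with
  | hv i => exact fun j r => atom 0 j (r i) 0
  | h0 => exact fun j r => (atom 4 j 0 0).of_iff fun _ _ _ => by simp [PreLA]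
  | h1 => exact fun j r => (atom 5 j 0 0).of_iff fun _ _ _ => by simp [PreLA]
  | ha s t i1 i2 =>
    exact fun j r => (ex (P := fun M _ v a => ∃ b, a = s.realize (fun i => v (r i)) ∧
      b = t.realize (fun i => v (r i)) ∧ PreLA M 2 a b (v j))
      (ex ((i1 1 fun i => r i + 1 + 1).and ((i2 0 fun i => r i + 1 + 1).and
        (atom 2 1 0 (j + 1 + 1)))))).of_iff fun _ _ _ => by simp [PreLA, eq_comm]
  | hm s t i1 i2 =>
    exact fun j r => (ex (P := fun M _ v a => ∃ b, a = s.realize (fun i => v (r i)) ∧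
      b = t.realize (fun i => v (r i)) ∧ PreLA M 3 a b (v j))
      (ex ((i1 1 fun i => r i + 1 + 1).and ((i2 0 fun i => r i + 1 + 1).and
        (atom 3 1 0 (j + 1 + 1)))))).of_iff fun _ _ _ => by simp [PreLA, eq_comm]

theorem rel (c n : ℕ) (s t : LA.Term ℕ) : BK fun M _ v =>
    PreLA M c (ev ((List.range n).map v) s) (ev ((List.range n).map v) t) (v 0) := by
  let g : ℕ → LA.Term ℕ := fun i => if i < n then Term.var i else zeroT
  have e : ∀ (M : Type) [LA.Structure M] (v : ℕ → M) (u : LA.Term ℕ),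
      (u.subst g).realize v = ev ((List.range n).map v) u := fun M _ v u => by
    rw [Term.realize_subst, ev]
    congr 1
    funext i
    simp only [g]
    split_ifs with h
    · exact (ud_getD v _ h).symm
    · rw [realize_zeroT, List.getD_eq_default _ _ (by simpa using h)]
  exact (ex (P := fun M _ v a => ∃ b, a = (s.subst g).realize v ∧
    b = (t.subst g).realize v ∧ PreLA M c a b (v 0))
    (ex ((term _ 1 fun i => i + 1 + 1).and ((term _ 0 fun i => i + 1 + 1).and
      (atom c 1 0 2))))).of_iff fun M _ v => by simp only [e, exists_and_left, exists_eq_left]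

theorem fm (p : Fm) : ∀ n, BK fun _ _ v => Sat p ((List.range n).map v) := by
  induction p with
  | fal => exact fun n => (atom 0 0 0 0).not.of_iff fun _ _ _ => by simp [PreLA]
  | eq s t => exact fun n => rel 0 n s t
  | lt s t => exact fun n => rel 1 n s t
  | imp p q i j => exact fun n => ((i n).and (j n).not).not.of_iff fun _ _ _ => by simp
  | all p i =>
    refine fun n => (ex (P := fun _ _ v a => ¬ Sat p ((List.range n).map v ++ [a]))
      (((i (n + 1)).ren fun t => if t < n then t + 1 else 0).not.of_iff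
        fun M _ w => ?_)).not.of_iff fun _ _ _ => by simp
    rw [List.range_succ, List.map_append, List.map_singleton, if_neg (lt_irrefl n),
      List.map_congr_left (g := fun i => w (i + 1)) fun t ht =>
        congrArg w (if_pos (List.mem_range.1 ht))]

end BK

/-- structures with the same block theories satisfy the same sentences -/
theorem nf {M N : Type} [LA.Structure M] [LA.Structure N]
    (h : ∀ K, TK (PreLA M) K = TK (PreLA N) K) : completeTheory LA M = completeTheory LA N := by
  ext σ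
  obtain ⟨k, c, hc⟩ := BK.fm (T1 Empty.elim 0 σ) 0
  have key : ∀ (M : Type) [LA.Structure M], M ⊨ σ ↔
      TK (PreLA M) k (Encodable.encode [((true, c, []) : Lt)]) = true := fun M _ => by
    rw [TK_iff, ← sat_T1_sentence]
    simp only [th, Hold, List.forall_mem_cons, List.not_mem_nil, false_imp_iff, implies_true,
      and_true, iff_true, ← hc]
    exact ⟨fun h => ⟨fun _ => zM, h⟩, fun ⟨_, h⟩ => h⟩
  rw [mem_completeTheory, mem_completeTheory, key, key, h]

end Pool.Agent.MinDeg.Pa
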