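import Pool.Agent.P.MP_f8f34d_lc.a.PaRep
import Pool.Agent.P.MP_f8f34d_lc.Diag
import Pool.Agent.P.MP_f8f34d_lc.NatPA

/-! Sets that a nonstandard model defines on its numerals are computable in its diagram. -/

namespace Pool.Agent.MinDeg.Pa

open FirstOrder FirstOrder.Language Pool.Agent.Lib.ComputableProp

/-- overspill: a definable set of numerals has a code -/
theorem PM.overspill {M : Type} [LA.Structure M] (h : PM M) (hns : ∃ c : M, ∀ n, c ≠ num n)
    (φ : Fm) : ∃ a b : M, ∀ n : ℕ, (Sat (M := M) φ [num n] → Bt a b (num n) oM) ∧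
      (¬ Sat (M := M) φ [num n] → Bt a b (num n) zM) := by
  classical
  let θ : ∀ (M : Type) [LA.Structure M], (ℕ → M) → M → Prop := fun M _ _ y =>
    ¬ ∃ a b, ∀ i, lM i y → (Sat φ [i] → Bt a b i oM) ∧ (¬ Sat φ [i] → Bt a b i zM)
  have hθ : UD fun M _ w => θ M (fun i => w (i + 1)) (w 0) := by
    simp only [θ]
    repeat' first
      | exact UD.sat φ _ | apply UD.bt | apply UD.and | apply UD.not | apply UD.imp
      | apply UD.ex | apply UD.all | apply UD.lt | exact UT.var _ | exact UT.zero | exact UT.one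
  have std : ∀ n : ℕ, ¬ θ M (fun _ => zM) (num n) := fun n hn => by
    obtain ⟨a, b, -, H⟩ := h.exists_bt (fun i => if Sat (M := M) φ [num i] then oM else zM) n
    refine hn ⟨a, b, fun i hi => ?_⟩
    obtain ⟨k, hk, rfl⟩ := (rep_lt_num h.qa _ _).1 hi
    exact ⟨fun e => by simpa only [if_pos e] using H k hk,
      fun e => by simpa only [if_neg e] using H k hk⟩
  have big : ∀ y : M, (∀ n, y ≠ num n) → ∀ n, lM (num n) y := fun y hy n => by
    rcases h.qa.tri (num n) y with e | e | e
    · exact e
    · exact (hy n e.symm).elim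
    · obtain ⟨k, -, e⟩ := (rep_lt_num h.qa _ _).1 e
      exact (hy k e).elim
  obtain ⟨y, hy, H⟩ : ∃ y : M, (∀ n, y ≠ num n) ∧ ¬ θ M (fun _ => zM) y := by
    by_cases e : ∃ y, θ M (fun _ => zM) y
    · obtain ⟨y, h1, h2⟩ := h.least hθ (fun _ => zM) e
      rcases h.qa.pred y with rfl | ⟨z, rfl⟩
      · exact (std 0 h1).elim
      · refine ⟨z, ?_, h2 z ((h.qa.a8 _ _).2 (Or.inr rfl))⟩
        rintro n rfl
        exact std (n + 1) h1
    · obtain ⟨c, hc⟩ := hns
      exact ⟨c, hc, fun h1 => e ⟨c, h1⟩⟩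
  obtain ⟨a, b, H⟩ := not_not.1 H
  exact ⟨a, b, fun n => H _ (big y hy n)⟩

/-- the numeral as a term -/
def nT {α : Type} : ℕ → LA.Term α
  | 0 => zeroT
  | n + 1 => addT (nT n) oneT

theorem realize_nT {α M : Type} [LA.Structure M] (v : α → M) (n : ℕ) :
    (nT n : LA.Term α).realize v = num n := by
  induction n with
  | zero => exact realize_zeroT _
  | succ n ih => rw [nT, realize_addT, realize_oneT, ih]; rfl

theorem c_nT : Computable fun n => code (nT n) := by
  have : Computable fun n : ℕ => (List.range n).foldl (fun a _ => 3 * Nat.pair a 1 + 3) 0 :=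
    c_foldl (f := fun n : ℕ => List.range n) (g := fun _ => 0)
      (h := fun _ a _ => 3 * Nat.pair a 1 + 3) (by fun_prop) (by fun_prop) (by fun_prop)
  refine this.of_eq fun n => ?_
  induction n with
  | zero => rfl
  | succ n ih => rw [List.range_succ, List.foldl_append, ih]; rfl

theorem pa_ss (B : LA.Structure ℕ) (h : @PM ℕ B) (hns : ∃ c : ℕ, ∀ n, c ≠ @num ℕ B n) (φ : Fm)
    {A : CS} (hA : ∀ n, A n = true ↔ @Sat ℕ B φ [@num ℕ B n]) :
    TuringReducible (hat A) (hat (dg B)) := by
  obtain ⟨a, b, H⟩ := h.overspill hns φ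
  let m : ℕ → LA.Term ℕ := fun n => addT oneT (mulT (addT (nT n) oneT) (Term.var b))
  obtain ⟨g, hm, hg⟩ : ∃ g : ℕ → ℕ, Computable g ∧ ∀ n, code (m n) = g n := by
    refine ⟨_, ?_, fun _ => rfl⟩
    simp only [m, code_add, code_mul, code_one, code_var]
    exact c_add (c_mul (Computable.const _) (c_natPair (Computable.const _) (c_add (c_mul
      (Computable.const _) (c_natPair (c_add (c_mul (Computable.const _) (c_natPair c_nT
      (Computable.const _))) (Computable.const _)) (Computable.const _))) (Computable.const _))))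
      (Computable.const _)
  have hS : Sig fun y (z : ℕ × ℕ) => ∃ w : Bool × ℕ × ℕ,
      (y (2 * Nat.pair (cond w.1 1 0) (g z.1) + 1) = true ∧
        y (2 * Nat.pair (3 * Nat.pair (3 * a + 2)
            (3 * Nat.pair (g z.1) (3 * w.2.1 + 2) + 4) + 3)
          (3 * Nat.pair (cond w.1 1 0) (3 * Nat.pair (g z.1) (3 * w.2.2 + 2) + 4) + 3)) =
          true) ∧ z.2 = cond w.1 1 0 :=
    Sig.ex (Sig.and (Sig.and (Sig.bit (by fun_prop) (by fun_prop))
      (Sig.bit (by fun_prop) (by fun_prop))) (Sig.of_re (RE.eq (by fun_prop) (by fun_prop))))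
  have key : ∀ (n : ℕ) (x : Bool), (∃ s t : ℕ,
      dg B (2 * Nat.pair (cond x 1 0) (g n) + 1) = true ∧
        dg B (2 * Nat.pair (3 * Nat.pair (3 * a + 2)
            (3 * Nat.pair (g n) (3 * s + 2) + 4) + 3)
          (3 * Nat.pair (cond x 1 0) (3 * Nat.pair (g n) (3 * t + 2) + 4) + 3)) = true) ↔
      Bt a b (num n) (cond x oM zM) := fun n x => by
    have e0 : code (cond x oneT zeroT) = cond x 1 0 := by cases x <;> rfl
    have e1 : (cond x oneT zeroT : LA.Term ℕ).realize id = cond x oM zM := by cases x <;> simp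
    have e2 := mem_diagram_lt B (cond x oneT zeroT) (m n)
    have e3 := fun s t => mem_diagram_eq B (addT (Term.var a) (mulT (m n) (Term.var s)))
      (addT (cond x oneT zeroT) (mulT (m n) (Term.var t)))
    have e4 : (m n).realize id = aM oM (mM (aM (num n) oM) b) := by simp [m, realize_nT]
    simp only [code_add, code_mul, code_var, hg, e0, e1, e4, realize_addT, realize_mulT,
      Term.realize_var, id] at e2 e3
    simp only [dg, decide_eq_true_eq, e2, e3, exists_and_left, Bt]
  refine RecursiveIn.iff_nat.2 (hS.tr (y := dg B) (f := fun n => cond (A n) 1 0) fun n v => ?_)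
  have hb : Bt a b (num n) (cond (A n) oM zM) := by
    cases e : A n
    · exact (H n).2 fun e' => by simp [(hA n).2 e'] at e
    · exact (H n).1 ((hA n).1 e)
  constructor
  · rintro ⟨⟨x, s, t⟩, h1, rfl⟩
    have e := h.bt_unique ((key n x).1 ⟨s, t, h1⟩) hb
    have ne : (oM : ℕ) ≠ zM := fun e => h.qa.a1 zM ((h.zero_add _).trans e)
    revert e
    cases x <;> cases A n <;> simp [ne, ne.symm]
  · rintro rfl
    obtain ⟨s, t, h1⟩ := (key n _).2 hb
    exact ⟨(A n, s, t), h1, rfl⟩

/-- a model all of whose elements are numerals satisfies true arithmetic -/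
theorem pa_std {M : Type} [LA.Structure M] (hp : PM M) (hs : ∀ c : M, ∃ n, c = num n) :
    completeTheory LA M = TA := by
  have h := hp.qa
  let _ := natS
  have ht : ∀ (l : List ℕ) (t : LA.Term ℕ), ev (l.map num) t = (num (ev l t) : M) := by
    intro l t
    induction t using term_ind with
    | hv i => exact List.getD_map l 0 num
    | h0 => rw [ev_zero, ev_zero]; rfl
    | h1 =>
      rw [ev_one, ev_one]
      exact (hp.zero_add _).symm
    | ha s t i j => rw [ev_add, ev_add, i, j]; exact (rep_num_add h _ _).symm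
    | hm s t i j => rw [ev_mul, ev_mul, i, j]; exact (rep_num_mul h _ _).symm
  have key : ∀ (p : Fm) (l : List ℕ), Sat (M := M) p (l.map num) ↔ Sat p l := by
    intro p
    induction p with
    | fal => exact fun _ => Iff.rfl
    | eq s t => exact fun l => by rw [sat_eq, sat_eq, ht, ht]; exact ⟨rep_num_inj h _ _, congrArg _⟩
    | lt s t => exact fun l => by rw [sat_lt, sat_lt, ht, ht]; exact rep_lt_num_num h _ _
    | imp p q i j => exact fun l => by rw [sat_imp, sat_imp, i, j]
    | all p i =>
      refine fun l => ⟨fun H a => (i _).1 (by simpa using H (num a)), fun H a => ?_⟩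
      obtain ⟨n, rfl⟩ := hs a
      simpa using (i _).2 (H n)
  ext σ
  rw [TA, mem_completeTheory, mem_completeTheory, ← sat_T1_sentence, ← sat_T1_sentence]
  exact key _ []

end Pool.Agent.MinDeg.Pa
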