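import Pool.Agent.P.MP_f8f34d_lc.a.PaPhi
import Pool.Agent.P.MP_f8f34d_lc.a.PaNf
import Pool.Agent.P.MP_f8f34d_lc.a.PaSS
import Pool.Agent.P.MP_f8f34d_lc.W.RepDef

/-! Represented sets of a completion of Peano arithmetic and its models. -/

namespace Pool.Agent.MinDeg.Pa

open FirstOrder FirstOrder.Language

variable {T : LA.Theory} {M : Type} [LA.Structure M]

theorem pm_of_model (h : M ⊨ PA) : PM M :=
  have : Nonempty M := ⟨zM⟩
  ⟨((model_PA_iff M).1 h).1, ((model_PA_iff M).1 h).2⟩

theorem mem_iff (hT : T.IsMaximal) (hM : M ⊨ T) (σ : LA.Sentence) : σ ∈ T ↔ M ⊨ σ :=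
  ⟨fun h => hM.realize_of_mem σ h, fun h => (hT.mem_or_not_mem σ).resolve_right fun h' =>
    hM.realize_of_mem _ h' h⟩

theorem eq_completeTheory (hT : T.IsMaximal) (hM : M ⊨ T) : T = completeTheory LA M :=
  Set.ext fun σ => mem_iff hT hM σ

theorem realize_numT (v : Empty → M) (n : ℕ) : (numT n).realize v = num n := by
  induction n with
  | zero => exact realize_zeroT _
  | succ n ih => rw [numT, realize_addT, realize_oneT, ih]; rfl

theorem realize_inst (φ : LA.Formula Unit) (n : ℕ) :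
    M ⊨ (BoundedFormula.subst φ fun _ => numT n : LA.Sentence) ↔
      φ.Realize fun _ => (num n : M) := by
  unfold Sentence.Realize Formula.Realize
  rw [BoundedFormula.realize_subst]
  simp only [realize_numT]

/-- membership in `Rep(T)`, read in a model -/
theorem repT_iff (hT : T.IsMaximal) (hM : M ⊨ T) (A : Set ℕ) :
    A ∈ RepT T ↔ ∃ φ : Fm, ∀ n, n ∈ A ↔ Sat (M := M) φ [num n] := by
  constructor
  · rintro ⟨φ, h⟩
    refine ⟨T1 (fun _ => 0) 1 φ, fun n => ?_⟩
    rw [h, mem_iff hT hM, realize_inst]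
    exact (sat_T1 (fun _ : Unit => 0) [(num n : M)] (fun _ => Nat.zero_lt_one) φ default).symm
  · rintro ⟨φ, h⟩
    refine ⟨Formula.relabel (fun _ => ()) (T2 φ 1).toFormula, fun n => ?_⟩
    rw [h, mem_iff hT hM, realize_inst, Formula.realize_relabel, BoundedFormula.realize_toFormula,
      Subsingleton.elim (_ ∘ Sum.inl) default, sat_T2]
    rfl

theorem rep_TK (hT : T.IsMaximal) (hP : PA ⊆ T) (hM : M ⊨ T) (k : ℕ) :
    {n | TK (PreLA M) k n = true} ∈ RepT T := by
  obtain ⟨φ, h⟩ := pa_TK k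
  exact (repT_iff hT hM _).2 ⟨φ, fun n => (h M (pm_of_model (hM.mono hP)) n).symm⟩

theorem TK_eq (hT : T.IsMaximal) (hP : PA ⊆ T) (hM : M ⊨ T) {N : Type} [LA.Structure N]
    (hN : N ⊨ T) (k : ℕ) : TK (PreLA M) k = TK (PreLA N) k := by
  obtain ⟨φ, h⟩ := pa_TK k
  funext n
  rw [Bool.eq_iff_iff, ← h M (pm_of_model (hM.mono hP)), ← h N (pm_of_model (hN.mono hP))]
  have key : ∀ (M : Type) [LA.Structure M], M ⊨ (BoundedFormula.subst (Formula.relabel
      (fun _ => ()) (T2 φ 1).toFormula) fun _ => numT n : LA.Sentence) ↔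
      Sat (M := M) φ [num n] := fun M _ => by
    rw [realize_inst, Formula.realize_relabel, BoundedFormula.realize_toFormula,
      Subsingleton.elim (_ ∘ Sum.inl) default, sat_T2]
    rfl
  rw [← key, ← key, ← mem_iff hT hM, ← mem_iff hT hN]

/-- a represented set is computable in every model of a completion other than true arithmetic -/
theorem rep_le (hT : T.IsMaximal) (hP : PA ⊆ T) (hne : T ≠ TA) (B : LA.Structure ℕ)
    (hB : @Theory.Model LA ℕ B T) {A : Set ℕ} (hA : A ∈ RepT T) {x : CS}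
    (hx : ∀ n, x n = true ↔ n ∈ A) : TuringReducible (hat x) (hat (dg B)) := by
  have h := pm_of_model (hB.mono hP)
  obtain ⟨φ, hφ⟩ := (repT_iff hT hB A).1 hA
  refine pa_ss B h ?_ φ fun n => (hx n).trans (hφ n)
  by_contra hc
  refine hne ((eq_completeTheory hT hB).trans (pa_std h fun c => ?_))
  by_contra h2
  exact hc ⟨c, fun n e => h2 ⟨n, e⟩⟩

theorem infinite_of_model (h : M ⊨ PA) : Infinite M :=
  Infinite.of_injective num (rep_num_inj (pm_of_model h).qa)

theorem exists_model (hT : T.IsMaximal) : ∃ (N : Type) (_ : LA.Structure N), N ⊨ T := by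
  obtain ⟨N⟩ := hT.1
  exact ⟨N, inferInstance, N.is_model⟩

/-- `Rep(T)` is countable -/
theorem countable_repT (hT : T.IsMaximal) : (RepT T).Countable := by
  have : Countable Fm := enc_inj.countable
  obtain ⟨N, _, hN⟩ := exists_model hT
  refine (Set.countable_range fun φ : Fm => {n | Sat (M := N) φ [num n]}).mono fun A hA => ?_
  obtain ⟨φ, h⟩ := (repT_iff hT hN A).1 hA
  exact ⟨φ, Set.ext fun n => (h n).symm⟩

/-- a structure with the block theories of a model of `T` is a model of `T` -/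
theorem model_of_TK (hT : T.IsMaximal) (hM : M ⊨ T) {N : Type} [LA.Structure N]
    (h : ∀ K, TK (PreLA N) K = TK (PreLA M) K) : N ⊨ T := by
  rw [eq_completeTheory hT hM, ← nf h]
  exact model_completeTheory

end Pool.Agent.MinDeg.Pa
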