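import Pool.Agent.P.MP_f8f34d_lc.a.SolD

/-! The quotient of a pre-structure. -/

namespace Pool.Agent.MinDeg.Sol

open FirstOrder FirstOrder.Language Pool.Agent.Lib.ComputableProp

/-- one step of the table of term values -/
def solq_st (z o n a m : ℕ) : ℕ :=
  cond (eqb n 0) z (cond (eqb n 1) o (cond (eqb (n % 3) 2) (n / 3) (cond (eqb (n % 3) 0) a m)))

theorem solq_dg {X : CS} (A : LA.Structure ℕ) (ha : CF X fun p : ℕ × ℕ => @aM ℕ A p.1 p.2)
    (hm : CF X fun p : ℕ × ℕ => @mM ℕ A p.1 p.2) (hl : DE X fun p : ℕ × ℕ => @lM ℕ A p.1 p.2) :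
    LeT (dg A) X := by
  choose T hT using code_surj
  let val : ℕ → ℕ := fun n => @Term.realize LA ℕ A ℕ id (T n)
  have hv : ∀ t, val (code t) = @Term.realize LA ℕ A ℕ id t := fun t => by
    simp only [val, code_inj (hT (code t))]
  let u : ℕ × List ℕ → ℕ × ℕ := fun w =>
    (w.2.getD (w.1 / 3 - 1).unpair.1 0, w.2.getD (w.1 / 3 - 1).unpair.2 0)
  have hu : Computable u := by fun_prop
  have hg : CF X fun w : ℕ × List ℕ => w.2 ++ [solq_st (@zM ℕ A) (@oM ℕ A) w.1
      (@aM ℕ A (u w).1 (u w).2) (@mM ℕ A (u w).1 (u w).2)] :=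
    CF.comp (f := fun y : (ℕ × List ℕ) × ℕ × ℕ =>
        y.1.2 ++ [solq_st (@zM ℕ A) (@oM ℕ A) y.1.1 y.2.1 y.2.2])
      (CF.of_computable (by unfold solq_st; fun_prop))
      ((CF.of_computable Computable.id).pair ((ha.compC hu).pair (hm.compC hu)))
  have hst : ∀ n, val n = solq_st (@zM ℕ A) (@oM ℕ A) n
      (@aM ℕ A (u (n, (List.range n).map val)).1 (u (n, (List.range n).map val)).2)
      (@mM ℕ A (u (n, (List.range n).map val)).1 (u (n, (List.range n).map val)).2) := by
    intro n
    obtain ⟨t, rfl⟩ := code_surj n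
    have key : ∀ s t : LA.Term ℕ, ∀ n, n / 3 - 1 = Nat.pair (code s) (code t) → 3 ≤ n →
        u (n, (List.range n).map val) = (val (code s), val (code t)) := fun s t n h h3 => by
      have h1 := Nat.left_le_pair (code s) (code t)
      have h2 := Nat.right_le_pair (code s) (code t)
      simp only [u, h, Nat.unpair_pair]
      rw [getD_range_map _ _ (by omega), getD_range_map _ _ (by omega)]
    induction t using term_ind with
    | hv a =>
      have h1 : (3 * a + 2) % 3 = 2 := by omega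
      have h2 : (3 * a + 2) / 3 = a := by omega
      rw [hv]
      simp [solq_st, eqb, h1, h2]
    | h0 => rw [hv]; simp [solq_st, eqb]
    | h1 => rw [hv]; simp [solq_st, eqb]
    | ha s t _ _ =>
      rw [key s t _ (by rw [code_add]; omega) (by rw [code_add]; omega), hv, hv, hv]
      simp [solq_st, eqb]
    | hm s t _ _ =>
      have h1 : (3 * Nat.pair (code s) (code t) + 4) % 3 = 1 := by omega
      rw [key s t _ (by rw [code_mul]; omega) (by rw [code_mul]; omega), hv, hv, hv]
      simp [solq_st, eqb, h1]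
  have htab : CF X fun n : ℕ => (List.range n).map val := (hg.iter []).of_eq fun n => by
    induction n with
    | zero => rfl
    | succ n ih =>
      rw [List.range_succ, List.map_append, List.map_singleton, hst n]
      exact congrArg (fun L => L ++ [solq_st (@zM ℕ A) (@oM ℕ A) n
        (@aM ℕ A (u (n, L)).1 (u (n, L)).2) (@mM ℕ A (u (n, L)).1 (u (n, L)).2)]) ih
  have hval : CF X val :=
    (CF.comp (f := fun y : ℕ × List ℕ => y.2.getD y.1 0) (CF.of_computable (by fun_prop))
      ((CF.of_computable Computable.id).pair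
        (htab.compC (g := fun n : ℕ => n + 1) (by fun_prop)))).of_eq fun n =>
      getD_range_map _ _ (Nat.lt_succ_self n)
  have hp : CF X fun n : ℕ => (val (n / 2).unpair.1, val (n / 2).unpair.2) :=
    (hval.compC (by fun_prop)).pair (hval.compC (by fun_prop))
  have hd : DE X fun n => n ∈ diagram A := by
    refine (((DE.eq (f := fun n : ℕ => n % 2) (g := fun _ => 0) (by fun_prop) (by fun_prop)).and
      ((DE.eq (f := fun p : ℕ × ℕ => p.1) (g := fun p => p.2) (by fun_prop)
        (by fun_prop)).compCF hp)).or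
      ((DE.eq (f := fun n : ℕ => n % 2) (g := fun _ => 1) (by fun_prop) (by fun_prop)).and
        (hl.compCF hp))).of_iff fun n => ?_
    obtain ⟨s, hs⟩ := code_surj (n / 2).unpair.1
    obtain ⟨t, ht⟩ := code_surj (n / 2).unpair.2
    have h : Nat.pair (code s) (code t) = n / 2 := by rw [hs, ht, Nat.pair_unpair]
    rw [← hs, ← ht, hv, hv]
    rcases Nat.mod_two_eq_zero_or_one n with h2 | h2
    · have := mem_diagram_eq A s t
      rw [h, (by omega : 2 * (n / 2) = n)] at this
      simp [h2, this]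
    · have := mem_diagram_lt A s t
      rw [h, (by omega : 2 * (n / 2) + 1 = n)] at this
      simp [h2, this]
  refine (SE.or (SE.and (SE.of_re (RE.eq (f := fun w : ℕ × Bool => w.2) (g := fun _ => true)
    (by fun_prop) (by fun_prop))) (hd.1.comp Computable.fst)) (SE.and (SE.of_re
    (RE.eq (f := fun w : ℕ × Bool => w.2) (g := fun _ => false) (by fun_prop) (by fun_prop)))
    (hd.2.comp Computable.fst))).of_iff fun w => ?_
  obtain ⟨n, b⟩ := w
  cases b <;> simp [dg]

/-- an enumeration of representatives of a decidable equivalence with infinitely many classes -/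
theorem solq_rep {X : CS} {E : ℕ → ℕ → Prop} (hE : Equivalence E)
    (hd : DE X fun p : ℕ × ℕ => E p.1 p.2)
    (hi : ∀ n, ∃ v : ℕ → ℕ, ∀ i < n, ∀ j < n, E (v i) (v j) → i = j) :
    ∃ e : ℕ → ℕ, CF X e ∧ (∀ x y, E (e x) (e y) → x = y) ∧ ∀ a, ∃ x, E (e x) a := by
  classical
  let R : ℕ → Prop := fun r => ∀ a < r, ¬ E a r
  have hR : DE X R := DE.forall_lt (l := fun r : ℕ => r) (P := fun r a => ¬ E a r) (by fun_prop)
    (hd.comp (f := fun w : ℕ × ℕ => (w.2, w.1)) (by fun_prop)).not
  have hrep : ∀ a, ∃ r, R r ∧ E r a := fun a =>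
    ⟨Nat.find ⟨a, hE.refl a⟩ (p := fun r => E r a), fun b hb h =>
      Nat.find_min _ hb (hE.trans h (Nat.find_spec (p := fun r => E r a) _)),
      Nat.find_spec (p := fun r => E r a) _⟩
  have hbig : ∀ a, ∃ b, a < b ∧ R b := fun a => by
    by_contra hc
    obtain ⟨v, hv⟩ := hi (a + 2)
    choose r h1 h2 using hrep
    obtain ⟨i, hi', j, hj, h3, h4⟩ := Finset.exists_ne_map_eq_of_card_lt_of_maps_to
      (s := Finset.range (a + 2)) (t := Finset.range (a + 1)) (f := fun i => r (v i)) (by simp)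
      fun i _ => Finset.mem_coe.2 (Finset.mem_range.2 (Nat.lt_succ_of_le
        (not_lt.1 fun h => hc ⟨_, h, h1 _⟩)))
    exact h3 (hv i (Finset.mem_range.1 hi') j (Finset.mem_range.1 hj)
      (hE.trans (hE.symm (h2 _)) ((show r (v i) = r (v j) from h4) ▸ h2 _)))
  obtain ⟨e, he, e0, es⟩ := SE.run (y := X)
    (R := fun _ a b => (a < b ∧ R b) ∧ ∀ c < b, ¬ (a < c ∧ R c))
    (((DE.lt (by fun_prop) (by fun_prop)).and (hR.comp Computable.snd)).and
      (DE.forall_lt (l := fun z : (ℕ × ℕ) × ℕ => z.2) (P := fun z c => ¬ (z.1.2 < c ∧ R c))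
        (by fun_prop) ((DE.lt (by fun_prop) (by fun_prop)).and (hR.comp Computable.snd)).not)).1
    (fun _ a => ⟨Nat.find (hbig a), Nat.find_spec (hbig a), fun c hc => Nat.find_min _ hc⟩) 0
  have hm : StrictMono e := strictMono_nat_of_lt_succ fun s => (es s).1.1
  have hr : ∀ s, R (e s) := fun s => by
    cases s with
    | zero => rw [e0]; exact fun a h => absurd h (Nat.not_lt_zero a)
    | succ s => exact (es s).1.2
  refine ⟨e, he, fun x y h => ?_, fun a => ?_⟩
  · rcases lt_trichotomy x y with k | k | k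
    · exact absurd h (hr y _ (hm k))
    · exact k
    · exact absurd (hE.symm h) (hr x _ (hm k))
  · obtain ⟨r, h1, h2⟩ := hrep a
    have hex : ∃ s, r ≤ e s := ⟨r, hm.le_apply⟩
    have h3 := Nat.find_spec hex
    refine ⟨Nat.find hex, (le_antisymm h3 ?_ : r = _) ▸ h2⟩
    rcases hs : Nat.find hex with _ | s
    · rw [e0]; exact Nat.zero_le _
    · have h4 : ¬ r ≤ e s := Nat.find_min hex (by omega)
      exact not_lt.1 fun h => (es s).2 r h ⟨not_le.1 h4, h1⟩

theorem quot {N : Type} [LA.Structure N] [Infinite N] {X : CS} {P : Pre ℕ}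
    (h : ∀ K, TK P K = TK (PreLA N) K)
    (hd : DE X (fun z : ℕ × ℕ × ℕ × ℕ => P z.1 z.2.1 z.2.2.1 z.2.2.2)) :
    ∃ A : LA.Structure ℕ, (∀ K, TK (@PreLA ℕ A) K = TK (PreLA N) K) ∧ LeT (dg A) X := by
  classical
  have hth : ∀ k L, th P k L ↔ th (PreLA N) k L := fun k L => by
    rw [← TK_iff, ← TK_iff, h]
  have loc : ∀ n, ∃ w : ℕ → N, ∀ c < n, ∀ i < n, ∀ j < n, ∀ l < n,
      (P c i j l ↔ PreLA N c (w i) (w j) (w l)) := fun n => by
    obtain ⟨w, hw⟩ := (hth 0 ((List.range n).flatMap fun c => (List.range n).flatMap fun i =>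
      (List.range n).flatMap fun j => (List.range n).map fun l =>
        (decide (P c i j l), c, [i, j, l]))).1 ⟨id, by
          intro x hx
          simp only [List.mem_flatMap, List.mem_map] at hx
          obtain ⟨c, -, i, -, j, -, l, -, rfl⟩ := hx
          exact decide_eq_true_iff.symm⟩
    refine ⟨w, fun c hc i hi j hj l hl => ?_⟩
    have := hw (decide (P c i j l), c, [i, j, l]) (by
      simp only [List.mem_flatMap, List.mem_map, List.mem_range]
      exact ⟨c, hc, i, hi, j, hj, l, hl, rfl⟩)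
    exact (this.trans decide_eq_true_iff).symm
  have cg : ∀ c a a' b b' d d', P 0 a a' 0 → P 0 b b' 0 → P 0 d d' 0 →
      (P c a b d ↔ P c a' b' d') := by
    intro c a a' b b' d d' h1 h2 h3
    obtain ⟨w, hw⟩ := loc (c + a + a' + b + b' + d + d' + 1)
    rw [hw _ (by omega) _ (by omega) _ (by omega) _ (by omega)] at h1 h2 h3
    rw [hw _ (by omega) _ (by omega) _ (by omega) _ (by omega),
      hw _ (by omega) _ (by omega) _ (by omega) _ (by omega), show w a = w a' from h1,
      show w b = w b' from h2, show w d = w d' from h3]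
  have two : ∀ {c a b d c' a' b' d'}, P c a b d → (∀ w : ℕ → N, PreLA N c (w a) (w b) (w d) →
      PreLA N c' (w a') (w b') (w d')) → P c' a' b' d' := by
    intro c a b d c' a' b' d' k0 k
    revert k0
    obtain ⟨w, hw⟩ := loc (c + a + b + d + c' + a' + b' + d' + 1)
    rw [hw _ (by omega) _ (by omega) _ (by omega) _ (by omega),
      hw _ (by omega) _ (by omega) _ (by omega) _ (by omega)]
    exact k w
  have three : ∀ {c a b d c' a' b' d' x y}, P c a b d → P c' a' b' d' →
      (∀ w : ℕ → N, PreLA N c (w a) (w b) (w d) →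
        PreLA N c' (w a') (w b') (w d') → w x = w y) → P 0 x y 0 := by
    intro c a b d c' a' b' d' x y k0 k1 k
    revert k0 k1
    obtain ⟨w, hw⟩ := loc (c + a + b + d + c' + a' + b' + d' + x + y + 1)
    rw [hw _ (by omega) _ (by omega) _ (by omega) _ (by omega),
      hw _ (by omega) _ (by omega) _ (by omega) _ (by omega),
      hw _ (by omega) _ (by omega) _ (by omega) _ (by omega)]
    exact k w
  have hE : Equivalence fun a b => P 0 a b 0 := by
    refine ⟨fun a => ?_, fun k => two k fun w k => Eq.symm k,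
      fun k k' => three k k' fun w k k' => Eq.trans k k'⟩
    obtain ⟨w, hw⟩ := loc (a + 1)
    exact (hw _ (by omega) _ (by omega) _ (by omega) _ (by omega)).2 rfl
  obtain ⟨e, he, e1, e2⟩ := solq_rep (X := X) hE
    (hd.comp (f := fun p : ℕ × ℕ => (0, p.1, p.2, 0)) (by fun_prop)) fun n => by
      obtain ⟨v, hv⟩ := (hth 0 ((List.range n).flatMap fun i => (List.range n).map fun j =>
        (decide (i = j), 0, [i, j, 0]))).2 ⟨Infinite.natEmbedding N, by
          intro x hx
          simp only [List.mem_flatMap, List.mem_map] at hx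
          obtain ⟨i, -, j, -, rfl⟩ := hx
          exact (Infinite.natEmbedding N).injective.eq_iff.trans decide_eq_true_iff.symm⟩
      refine ⟨v, fun i hi j hj k => ?_⟩
      have := hv (decide (i = j), 0, [i, j, 0]) (by
        simp only [List.mem_flatMap, List.mem_map, List.mem_range]
        exact ⟨i, hi, j, hj, rfl⟩)
      exact decide_eq_true_iff.1 (this.1 (show P 0 (v i) (v j) (v 0) from two k fun _ k => k))
  have tot : ∀ c, (∀ x y : N, ∃ z, PreLA N c x y z) → ∀ a b, ∃ z, P c a b (e z) := by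
    intro c k a b
    have : ∃ d, P c a b d := by
      by_contra hc
      obtain ⟨w, hw⟩ := (hth 1 [(false, exC 2 [(true, c, [0, 1, 2])], [0, 1])]).1
        ⟨fun i => [a, b].getD i 0, List.forall_mem_singleton.2 (by
          refine iff_of_false ?_ (by simp)
          rw [sat_exC]
          rintro ⟨u, h1, h2⟩
          have h3 : P c (u 0) (u 1) (u 2) := (h2 _ List.mem_cons_self).2 rfl
          rw [h1 0 (by omega), h1 1 (by omega)] at h3
          exact hc ⟨_, h3⟩)⟩
      obtain ⟨z, hz⟩ := k (w 0) (w 1)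
      have h4 := (hw _ List.mem_cons_self).1 ((sat_exC _ _ _ _ _).2
        ⟨fun i => [w 0, w 1].getD i z, fun i hi => by interval_cases i <;> rfl,
          List.forall_mem_singleton.2 (iff_of_true hz rfl)⟩)
      exact absurd h4 (by simp)
    obtain ⟨d, hd⟩ := this
    obtain ⟨z, hz⟩ := e2 d
    exact ⟨z, (cg c _ _ _ _ _ _ (hE.refl a) (hE.refl b) hz).2 hd⟩
  have cst : ∀ c, (∃ x : N, PreLA N c x x x) → ∃ z, P c (e z) (e z) (e z) := by
    rintro c ⟨x, hx⟩
    obtain ⟨v, hv⟩ := (hth 0 [(true, c, [])]).2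
      ⟨fun _ => x, List.forall_mem_singleton.2 (iff_of_true hx rfl)⟩
    obtain ⟨z, hz⟩ := e2 (v 0)
    exact ⟨z, (cg c _ _ _ _ _ _ hz hz hz).2 ((hv _ List.mem_cons_self).2 rfl)⟩
  have hq : ∀ c, DE X fun w : (ℕ × ℕ) × ℕ => P c (e w.1.1) (e w.1.2) (e w.2) := fun c =>
    hd.compCF (f := fun w : (ℕ × ℕ) × ℕ => (c, e w.1.1, e w.1.2, e w.2))
      ((CF.of_computable (by fun_prop)).pair ((he.compC (by fun_prop)).pair
        ((he.compC (by fun_prop)).pair (he.compC (by fun_prop)))))
  obtain ⟨ad, ad1, ad2⟩ := SE.unif (R := fun (p : ℕ × ℕ) z => P 2 (e p.1) (e p.2) (e z)) (hq 2).1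
    fun p => tot 2 (fun x y => ⟨aM x y, rfl⟩) _ _
  obtain ⟨mu, mu1, mu2⟩ := SE.unif (R := fun (p : ℕ × ℕ) z => P 3 (e p.1) (e p.2) (e z)) (hq 3).1
    fun p => tot 3 (fun x y => ⟨mM x y, rfl⟩) _ _
  obtain ⟨z0, hz0⟩ := cst 4 ⟨zM, rfl⟩
  obtain ⟨z1, hz1⟩ := cst 5 ⟨oM, rfl⟩
  let A : LA.Structure ℕ :=
    { funMap := fun {n} (f : Fn n) v => match f with
        | .zero => z0
        | .one => z1
        | .add => ad (v 0, v 1)
        | .mul => mu (v 0, v 1)
      RelMap := fun {n} (r : Rl n) v => match r with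
        | .lt => P 1 (e (v 0)) (e (v 1)) (e 0) }
  have hA : ∀ c x y z, @PreLA ℕ A c x y z ↔ P c (e x) (e y) (e z) := by
    intro c x y z
    unfold PreLA
    split_ifs with h0 h1 h2 h3 h4
    · subst h0
      exact ⟨fun k => k ▸ two (hE.refl (e x)) fun _ k => k,
        fun k => e1 _ _ (two k fun _ k => k)⟩
    · subst h1
      exact ⟨fun k => two (show P 1 (e x) (e y) (e 0) from k) fun _ k => k,
        fun k => show P 1 (e x) (e y) (e 0) from two k fun _ k => k⟩
    · subst h2
      exact ⟨fun k => k ▸ ad2 (x, y), fun k => e1 _ _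
        (three (ad2 (x, y)) k fun w k k' => Eq.trans (Eq.symm k) k')⟩
    · subst h3
      exact ⟨fun k => k ▸ mu2 (x, y), fun k => e1 _ _
        (three (mu2 (x, y)) k fun w k k' => Eq.trans (Eq.symm k) k')⟩
    · subst h4
      exact ⟨fun k => (show x = z0 from k) ▸ two hz0 fun _ k' => k',
        fun k => e1 _ _ (three k hz0 fun w k k' => Eq.trans k (Eq.symm k'))⟩
    · have h5 : ∀ a b d : N, PreLA N c a b d ↔ a = oM := fun a b d => by
        simp only [PreLA, if_neg h0, if_neg h1, if_neg h2, if_neg h3, if_neg h4]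
      exact ⟨fun k => (show x = z1 from k) ▸ two hz1 fun _ k' => (h5 _ _ _).2 k',
        fun k => e1 _ _ (three k hz1 fun w k k' => Eq.trans ((h5 _ _ _).1 k) (Eq.symm k'))⟩
  refine ⟨A, fun K => ?_, solq_dg A ad1 mu1
    ((hq 1).comp (f := fun p : ℕ × ℕ => (p, 0)) (by fun_prop))⟩
  rw [← h]
  exact TK_bisim _ P (fun x a => P 0 (e x) a 0) (fun x => ⟨_, hE.refl _⟩) e2
    (fun c a a' b b' d d' h1 h2 h3 => (hA c a b d).trans (cg c _ _ _ _ _ _ h1 h2 h3)) K

end Pool.Agent.MinDeg.Sol
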