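import Pool.Agent.P.MP_f8f34d_lc.a.SolT
import Pool.Agent.P.MP_f8f34d_lc.a.SolV
import Pool.Agent.P.MP_f8f34d_lc.a.SolE
import Pool.Agent.P.MP_f8f34d_lc.a.SolQ

/-! Section 8: an effective enumeration whose double jump finds the fragments computes a model. -/

namespace Pool.Agent.MinDeg.Sol

open FirstOrder FirstOrder.Language Pool.Agent.Lib.ComputableProp

/-- re-enumeration of a pre-structure -/
def pull (P : Pre ℕ) (f : ℕ → ℕ) : Pre ℕ := fun c a b d => P c (f a) (f b) (f d)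

variable {P : Pre ℕ} {f : ℕ → ℕ} {X : CS}

theorem sat_pull (hf : Function.Surjective f) (K c : ℕ) (v : ℕ → ℕ) :
    sat (pull P f) K c v ↔ sat P K c (f ∘ v) :=
  sat_bisim (pull P f) P (fun a b => f a = b) (fun _ => ⟨_, rfl⟩) hf
    (by rintro c a _ b _ d _ rfl rfl rfl; rfl) K c v _ fun _ => rfl

theorem TK_pull (hf : Function.Surjective f) (K : ℕ) : TK (pull P f) K = TK P K :=
  TK_bisim (pull P f) P (fun a b => f a = b) (fun _ => ⟨_, rfl⟩) hf
    (by rintro c a _ b _ d _ rfl rfl rfl; rfl) K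

theorem H1_pull (hf : Function.Surjective f) (K : ℕ) (l : Lt) (v : ℕ → ℕ) :
    H1 (pull P f) K l v ↔ H1 P K l (f ∘ v) := iff_congr (sat_pull hf K _ _) Iff.rfl

theorem satu_pull (hf : Function.Surjective f) {K : ℕ} (h : Satu X P K) : Satu X (pull P f) K := by
  intro p d π e j hV he hF
  have e1 : ∀ i < π.length, (π.map f).getD i 0 = f (π.getD i 0) := fun i hi => by
    rw [List.getD_eq_getElem _ _ hi, List.getD_eq_getElem _ _ (by simpa using hi), List.getElem_map]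
  obtain ⟨w, ⟨w1, w2⟩, w3⟩ := h p d (π.map f) e (f j) hV (by simpa using he) fun L hL => by
    obtain ⟨w, ⟨w1, w2⟩, w3⟩ := hF L hL
    refine ⟨f ∘ w, ⟨fun i hi => ?_, congrArg f w2⟩, fun l hl => (H1_pull hf K l w).1 (w3 l hl)⟩
    have hi' : i < π.length := by simpa using hi
    rw [e1 i hi']
    exact congrArg f (w1 i hi')
  have : ∀ i, ∃ b, f b = w i ∧ (i < π.length → b = π.getD i 0) ∧ (i = e → b = j) := fun i => by
    by_cases h1 : i < π.length
    · exact ⟨_, ((w1 i (by simpa using h1)).trans (e1 i h1)).symm, fun _ => rfl, fun _ => by omega⟩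
    · by_cases h2 : i = e
      · exact ⟨j, by rw [h2, w2]; rfl, fun k => absurd k h1, fun _ => rfl⟩
      · obtain ⟨b, hb⟩ := hf (w i)
        exact ⟨b, hb, fun k => absurd k h1, fun k => absurd k h2⟩
  choose u hu using this
  refine ⟨u, ⟨fun i hi => (hu i).2.1 hi, (hu e).2.2 rfl⟩, fun l hl => (H1_pull hf K l u).2 ?_⟩
  rw [show f ∘ u = w from funext fun i => (hu i).1]
  exact w3 l hl

theorem leT_jp (y : CS) : LeT y (jp y) := SE.up (LeT.refl y)

end Pool.Agent.MinDeg.Sol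

namespace Pool.Agent.MinDeg

open FirstOrder FirstOrder.Language Pool.Agent.Lib.ComputableProp Sol

theorem solovay : SolovayStmt := by
  intro N _ _ X X1 X2 hP h1 h2 S hS tot snd
  obtain ⟨ι, hι, Hι⟩ := SE.unif (y := jp (jp X)) (R := fun K m => S X2 (K, m))
    (se_of_isJump h1 h2 (hS.se X2)) tot
  obtain ⟨P2, t2, i2, s2⟩ := top (PreLA N) hP (leT_jp (jp X)) ι hι fun K => snd K _ (Hι K)
  obtain ⟨f1, o1, p1, c1, q1⟩ := lower (k := 2) hP (leT_jp X) (i2 4) (s2 3) (Inv := Inv1) ⟨rfl, rfl⟩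
    (fun t p h => ⟨h.1.le, by rw [h.2]; simp⟩) (ext1 hP 2)
  have i1 : Idx X (jp X) (pull P2 f1) 2 := by
    refine ⟨fun d => (p1 d).1, (CF.of_computable Computable.fst).comp c1, fun d c r hr => ?_⟩
    rw [sat_pull o1]
    exact ((q1 d).2 (_, c, r) (Or.inr ⟨by rw [(q1 d).1.1]; exact hr, rfl⟩)).symm
  obtain ⟨f0, o0, p0, c0, q0⟩ := lower (k := 0) hP (LeT.refl X) i1 (satu_pull o1 (s2 1))
    (Inv := Inv0) ⟨rfl, ⟨le_rfl, by simp⟩, by simp⟩ (fun t p h => h.2.1) (ext0 X)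
  have hm : ∀ s : Bool, SE X fun z : ℕ × ℕ × ℕ × ℕ => (s, z.1, [z.2.1, z.2.2.1, z.2.2.2]) ∈
      (p0 (ix z.1 [z.2.1, z.2.2.1, z.2.2.2] + 1)).2.2 := fun s =>
    (SE.of_re (RE.mem (f := fun w : (ℕ × ℕ × ℕ × ℕ) × Pm =>
      ((s, w.1.1, [w.1.2.1, w.1.2.2.1, w.1.2.2.2]) : Lt)) (l := fun w => w.2.2.2) (by fun_prop)
      (by fun_prop))).compCF ((CF.of_computable Computable.id).pair (c0.compC (by fun_prop)))
  have key : ∀ (s : Bool) (c a b d : ℕ), (s, c, [a, b, d]) ∈ (p0 (ix c [a, b, d] + 1)).2.2 →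
      (pull (pull P2 f1) f0 c a b d ↔ s = true) := fun s c a b d h => (q0 _).2 _ (Or.inl h)
  have tt : ∀ c a b d : ℕ, ∃ s, (s, c, [a, b, d]) ∈ (p0 (ix c [a, b, d] + 1)).2.2 :=
    fun c a b d => (q0 _).1.2.2 c _ (Nat.lt_succ_self _)
  obtain ⟨A, hA, hd⟩ := quot (N := N) (X := X) (P := pull (pull P2 f1) f0)
    (fun K => by rw [TK_pull o0, TK_pull o1, t2])
    ⟨(hm true).of_iff fun z => ⟨fun h => (key _ _ _ _ _ h).2 rfl, fun h => by
        obtain ⟨s, hs⟩ := tt z.1 z.2.1 z.2.2.1 z.2.2.2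
        rwa [(key _ _ _ _ _ hs).1 h] at hs⟩,
      (hm false).of_iff fun z => ⟨fun h k => by simpa using (key _ _ _ _ _ h).1 k, fun h => by
        obtain ⟨s, hs⟩ := tt z.1 z.2.1 z.2.2.1 z.2.2.2
        cases s
        · exact hs
        · exact absurd ((key _ _ _ _ _ hs).2 rfl) h⟩⟩
  exact ⟨A, hA, hd.turing⟩

end Pool.Agent.MinDeg
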