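import Pool.Agent.P.MP_f8f34d_lc.a.PaUd
import Pool.Agent.P.MP_f8f34d_lc.Rep

/-! Arithmetic inside a model of Peano arithmetic: semiring laws and coding of sequences of
standard length. -/

namespace Pool.Agent.MinDeg.Pa

open FirstOrder FirstOrder.Language

/-- a model of Peano arithmetic -/
structure PM (M : Type) [LA.Structure M] : Prop where
  qa : QA M
  lnp : LNP M

variable {M : Type} [LA.Structure M]

namespace PM

theorem least (h : PM M) {P : ∀ (M : Type) [LA.Structure M], (ℕ → M) → M → Prop}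
    (hP : UD fun M _ w => P M (fun i => w (i + 1)) (w 0)) (v : ℕ → M) (ha : ∃ a, P M v a) :
    ∃ a, P M v a ∧ ∀ b, lM b a → ¬ P M v b := by
  obtain ⟨n, φ, hφ⟩ := UD.snoc (P := fun M _ v a => ¬ P M v a) hP.not
  have := h.lnp φ ((List.range n).map v) (by simpa only [← hφ, not_not] using ha)
  simpa only [← hφ, not_not] using this

theorem ind (h : PM M) {P : ∀ (M : Type) [LA.Structure M], (ℕ → M) → M → Prop}
    (hP : UD fun M _ w => P M (fun i => w (i + 1)) (w 0)) (v : ℕ → M) (h0 : P M v zM)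
    (hs : ∀ a, P M v a → P M v (aM a oM)) (a : M) : P M v a := by
  by_contra ha
  obtain ⟨b, hb1, hb2⟩ := h.least (P := fun M _ v a => ¬ P M v a) hP.not v ⟨a, ha⟩
  rcases h.qa.pred b with rfl | ⟨y, rfl⟩
  · exact hb1 h0
  · exact hb1 (hs _ (not_not.1 (hb2 _ ((h.qa.a8 _ _).2 (Or.inr rfl)))))

theorem zero_add (h : PM M) (x : M) : aM zM x = x :=
  h.ind (P := fun _ _ _ a => aM zM a = a) (.eq (.add .zero (.var 0)) (.var 0)) (fun _ => x)
    (h.qa.a3 _) (fun a ha => by rw [h.qa.a4, ha]) x

theorem add_assoc (h : PM M) (x y z : M) : aM (aM x y) z = aM x (aM y z) :=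
  h.ind (P := fun _ _ v a => aM (aM (v 0) (v 1)) a = aM (v 0) (aM (v 1) a))
    (.eq (.add (.add (.var 1) (.var 2)) (.var 0)) (.add (.var 1) (.add (.var 2) (.var 0))))
    (fun i => Nat.casesOn i x fun _ => y) (by rw [h.qa.a3, h.qa.a3])
    (fun a ha => by rw [h.qa.a4, h.qa.a4, h.qa.a4, ha]) z

theorem one_add (h : PM M) (x : M) : aM oM x = aM x oM :=
  h.ind (P := fun _ _ _ a => aM oM a = aM a oM)
    (.eq (.add .one (.var 0)) (.add (.var 0) .one)) (fun _ => x)
    (by rw [h.qa.a3, h.zero_add]) (fun a ha => by rw [h.qa.a4, ha]) x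

theorem add_comm (h : PM M) (x y : M) : aM x y = aM y x :=
  h.ind (P := fun _ _ v a => aM (v 0) a = aM a (v 0))
    (.eq (.add (.var 1) (.var 0)) (.add (.var 0) (.var 1))) (fun _ => x)
    (by rw [h.qa.a3, h.zero_add])
    (fun a ha => by rw [h.qa.a4, ha, h.add_assoc, h.add_assoc, h.one_add]) y

theorem zero_mul (h : PM M) (x : M) : mM zM x = zM :=
  h.ind (P := fun _ _ _ a => mM zM a = zM) (.eq (.mul .zero (.var 0)) .zero) (fun _ => x)
    (h.qa.a5 _) (fun a ha => by rw [h.qa.a6, ha, h.qa.a3]) x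

theorem mul_one (h : PM M) (x : M) : mM x oM = x := by
  have := h.qa.a6 x zM
  rwa [h.zero_add, h.qa.a5, h.zero_add] at this

theorem mul_add (h : PM M) (x y z : M) : mM x (aM y z) = aM (mM x y) (mM x z) :=
  h.ind (P := fun _ _ v a => mM (v 0) (aM (v 1) a) = aM (mM (v 0) (v 1)) (mM (v 0) a))
    (.eq (.mul (.var 1) (.add (.var 2) (.var 0)))
      (.add (.mul (.var 1) (.var 2)) (.mul (.var 1) (.var 0))))
    (fun i => Nat.casesOn i x fun _ => y) (by rw [h.qa.a3, h.qa.a5, h.qa.a3])
    (fun a ha => by rw [h.qa.a4, h.qa.a6, h.qa.a6, ha, h.add_assoc]) z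

theorem succ_mul (h : PM M) (x y : M) : mM (aM x oM) y = aM (mM x y) y :=
  h.ind (P := fun _ _ v a => mM (aM (v 0) oM) a = aM (mM (v 0) a) a)
    (.eq (.mul (.add (.var 1) .one) (.var 0)) (.add (.mul (.var 1) (.var 0)) (.var 0)))
    (fun _ => x) (by rw [h.qa.a5, h.qa.a5, h.qa.a3])
    (fun a ha => by
      rw [h.qa.a6, h.qa.a6, ha, h.qa.a4, h.qa.a4, h.add_assoc, h.add_assoc, h.add_assoc,
        h.add_assoc, ← h.add_assoc a, ← h.add_assoc x, h.add_comm a x]) y

theorem mul_comm (h : PM M) (x y : M) : mM x y = mM y x :=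
  h.ind (P := fun _ _ v a => mM (v 0) a = mM a (v 0))
    (.eq (.mul (.var 1) (.var 0)) (.mul (.var 0) (.var 1))) (fun _ => x)
    (by rw [h.qa.a5, h.zero_mul]) (fun a ha => by rw [h.qa.a6, h.succ_mul, ha]) y

theorem mul_assoc (h : PM M) (x y z : M) : mM (mM x y) z = mM x (mM y z) :=
  h.ind (P := fun _ _ v a => mM (mM (v 0) (v 1)) a = mM (v 0) (mM (v 1) a))
    (.eq (.mul (.mul (.var 1) (.var 2)) (.var 0)) (.mul (.var 1) (.mul (.var 2) (.var 0))))
    (fun i => Nat.casesOn i x fun _ => y) (by rw [h.qa.a5, h.qa.a5, h.qa.a5])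
    (fun a ha => by rw [h.qa.a6, h.qa.a6, ha, h.mul_add]) z

theorem add_cancel (h : PM M) (x y z : M) : aM x z = aM y z → x = y :=
  h.ind (P := fun _ _ v a => aM (v 0) a = aM (v 1) a → v 0 = v 1)
    (.imp (.eq (.add (.var 1) (.var 0)) (.add (.var 2) (.var 0))) (.eq (.var 1) (.var 2)))
    (fun i => Nat.casesOn i x fun _ => y) (by rw [h.qa.a3, h.qa.a3]; exact id)
    (fun a ha e => by rw [h.qa.a4, h.qa.a4] at e; exact ha (h.qa.a2 _ _ e)) z

theorem lt_ex (h : PM M) (x y : M) : lM x y → ∃ z, y = aM (aM x z) oM :=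
  h.ind (P := fun _ _ v a => lM (v 0) a → ∃ z, a = aM (aM (v 0) z) oM)
    (.imp (.lt (.var 1) (.var 0)) (.ex (.eq (.var 1) (.add (.add (.var 2) (.var 0)) .one))))
    (fun _ => x) (fun e => (h.qa.a7 _ e).elim)
    (fun a ha e => by
      rcases (h.qa.a8 _ _).1 e with e | e
      · obtain ⟨z, hz⟩ := ha e
        exact ⟨aM z oM, by rw [h.qa.a4, ← hz]⟩
      · exact ⟨zM, by rw [h.qa.a3, e]⟩) y

theorem lt_add (h : PM M) (x z : M) : lM x (aM (aM x z) oM) :=
  h.ind (P := fun _ _ v a => lM (v 0) (aM (aM (v 0) a) oM))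
    (.lt (.var 1) (.add (.add (.var 1) (.var 0)) .one)) (fun _ => x)
    (by rw [h.qa.a3]; exact (h.qa.a8 _ _).2 (Or.inr rfl))
    (fun a ha => by rw [h.qa.a4]; exact (h.qa.a8 _ _).2 (Or.inl ha)) z

/-- the semiring structure of a model -/
@[reducible] def cs (h : PM M) : CommSemiring M where
  add := aM
  zero := zM
  mul := mM
  one := oM
  add_assoc := h.add_assoc
  zero_add := h.zero_add
  add_zero := h.qa.a3
  add_comm := h.add_comm
  nsmul := @nsmulRec M ⟨zM⟩ ⟨aM⟩
  left_distrib := h.mul_add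
  right_distrib a b c := by
    show mM (aM a b) c = aM (mM a c) (mM b c)
    rw [h.mul_comm, h.mul_add, h.mul_comm c, h.mul_comm c]
  zero_mul := h.zero_mul
  mul_zero := h.qa.a5
  mul_assoc := h.mul_assoc
  one_mul a := (h.mul_comm _ _).trans (h.mul_one a)
  mul_one := h.mul_one
  mul_comm := h.mul_comm
  natCast := num
  natCast_zero := rfl
  natCast_succ _ := rfl

end PM

/-- `x` is entry `i` of the sequence with code `(a, b)` -/
def Bt (a b i x : M) : Prop :=
  lM x (aM oM (mM (aM i oM) b)) ∧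
    ∃ s t, aM a (mM (aM oM (mM (aM i oM) b)) s) = aM x (mM (aM oM (mM (aM i oM) b)) t)

theorem UD.bt {a b i x : UF} (ha : UT a) (hb : UT b) (hi : UT i) (hx : UT x) :
    UD fun M _ v => Bt (a M v) (b M v) (i M v) (x M v) :=
  have hm := UT.add .one (.mul (.add hi .one) hb)
  (UD.lt hx hm).and (.ex (.ex (.eq
    (.add (ha.ren fun i => i + 1 + 1) (.mul (hm.ren fun i => i + 1 + 1) (.var 1)))
    (.add (hx.ren fun i => i + 1 + 1) (.mul (hm.ren fun i => i + 1 + 1) (.var 0))))))

theorem PM.rem_unique (h : PM M) {m x y s t : M} (hx : lM x m) (hy : lM y m)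
    (e : aM x (mM m s) = aM y (mM m t)) : x = y := by
  let _ := h.cs
  have key : ∀ {x y s t : M}, lM x m → aM x (mM m s) = aM y (mM m t) → ¬ lM s t := by
    intro x y s t hx e hst
    obtain ⟨u, hu⟩ := h.lt_ex _ _ hx
    obtain ⟨z, rfl⟩ := h.lt_ex _ _ hst
    change m = x + u + 1 at hu
    change x + m * s = y + m * (s + z + 1) at e
    have e2 : x = y + m * z + m := h.add_cancel _ _ (m * s)
      (show x + m * s = y + m * z + m + m * s by rw [e]; ring)
    refine h.qa.a1 (y + m * z + u) (h.add_cancel _ _ x ?_)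
    show y + m * z + u + 1 + x = 0 + x
    calc y + m * z + u + 1 + x = y + m * z + (x + u + 1) := by ring
      _ = 0 + x := by rw [← hu, ← e2]; ring
  rcases h.qa.tri s t with e1 | rfl | e1
  · exact (key hx e e1).elim
  · exact h.add_cancel _ _ _ e
  · exact (key hy e.symm e1).elim

theorem PM.bt_unique (h : PM M) {a b i x y : M} (hx : Bt a b i x) (hy : Bt a b i y) : x = y := by
  let _ := h.cs
  obtain ⟨hx, s, t, e⟩ := hx
  obtain ⟨hy, s', t', e'⟩ := hy
  refine h.rem_unique hx hy (s := t + s') (t := t' + s) ?_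
  generalize aM oM (mM (aM i oM) b) = m at *
  change a + m * s = x + m * t at e
  change a + m * s' = y + m * t' at e'
  show x + m * (t + s') = y + m * (t' + s)
  calc x + m * (t + s') = (x + m * t) + m * s' := by ring
    _ = (a + m * s') + m * s := by rw [← e]; ring
    _ = _ := by rw [e']; ring

/-- Chinese remainder theorem for the moduli `1 + (i + 1) b` in a commutative semiring -/
theorem pa_crt {R : Type} [CommSemiring R] [IsRightCancelAdd R] (N : ℕ) (c : R) (v : ℕ → R) : ∀ n ≤ N, ∃ a : R,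
    ∀ i < n, ∃ s t, a + (1 + ((i : R) + 1) * (N.factorial * c)) * s =
      v i + (1 + ((i : R) + 1) * (N.factorial * c)) * t := by
  intro n
  induction n with
  | zero => exact fun _ => ⟨0, fun i hi => absurd hi (Nat.not_lt_zero i)⟩
  | succ n ih =>
    intro hn
    obtain ⟨a, ha⟩ := ih (by omega)
    set m : ℕ → R := fun i => 1 + ((i : R) + 1) * (N.factorial * c) with hm
    have inv : ∀ k ≤ n, ∃ u s t : R, (∏ i ∈ Finset.range k, m i) * u + m n * s = 1 + m n * t := by
      intro k
      induction k with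
      | zero => exact fun _ => ⟨1, 0, 0, by simp⟩
      | succ k ik =>
        intro hk
        obtain ⟨u, s, t, e⟩ := ik (by omega)
        obtain ⟨d, rfl⟩ : ∃ d, n = k + (d + 1) := ⟨n - k - 1, by omega⟩
        obtain ⟨q, hq⟩ : d + 1 ∣ N.factorial := Nat.dvd_factorial (by omega) (by omega)
        have hq' : (N.factorial : R) = (d + 1) * q := by rw [hq]; push_cast; ring
        have e' : m k * ((k + d + 2) * (q * c * (k + d + 2)) * ((k + d + 2) * (N.factorial * c))) +
            m (k + (d + 1)) * 1 = 1 + m (k + (d + 1)) * ((k + d + 2) * (N.factorial * c) +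
              (k + 1) * (q * c * (k + d + 2)) * ((k + d + 2) * (N.factorial * c))) := by
          simp only [hm, hq']
          push_cast
          ring
        rw [Finset.prod_range_succ]
        generalize (k + d + 2 : R) * (q * c * (k + d + 2)) * ((k + d + 2) * (N.factorial * c)) = u'
          at e'
        generalize ((k + d + 2 : R) * (N.factorial * c) +
          (k + 1) * (q * c * (k + d + 2)) * ((k + d + 2) * (N.factorial * c))) = t' at e'
        exact ⟨u * u', s * (m k * u') + 1, t' + t * (m k * u'), by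
          linear_combination (m k * u') * e + e'⟩
    obtain ⟨u, s, t, e⟩ := inv n le_rfl
    set P := ∏ i ∈ Finset.range n, m i
    set w : R := ((n : R) + 1) * (N.factorial * c)
    refine ⟨a + P * u * (v n + w * a), fun i hi => ?_⟩
    rcases Nat.lt_succ_iff_lt_or_eq.1 hi with hi | rfl
    · obtain ⟨s', t', e'⟩ := ha i hi
      obtain ⟨P', hP⟩ : m i ∣ P := Finset.dvd_prod_of_mem _ (Finset.mem_range.2 hi)
      refine ⟨s', t' + P' * u * (v n + w * a), ?_⟩
      change a + P * u * (v n + w * a) + m i * s' = v i + m i * (t' + P' * u * (v n + w * a))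
      change a + m i * s' = v i + m i * t' at e'
      rw [hP]
      linear_combination e'
    · refine ⟨s * (v i + w * a), a + t * (v i + w * a), ?_⟩
      change P * u + (1 + w) * s = 1 + (1 + w) * t at e
      change _ + (1 + w) * _ = _ + (1 + w) * _
      linear_combination (v i + w * a) * e

/-- every sequence of standard length has a code -/
theorem PM.exists_bt (h : PM M) (v : ℕ → M) (n : ℕ) :
    ∃ a b, lM zM b ∧ ∀ i < n, Bt a b (num i) (v i) := by
  let _ := h.cs
  have : IsRightCancelAdd M := ⟨fun z _ _ e => h.add_cancel _ _ z e⟩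
  obtain ⟨a, ha⟩ := pa_crt n (∑ i ∈ Finset.range n, v i + 1) v n le_rfl
  obtain ⟨f, hf⟩ : ∃ f : ℕ, n.factorial = f + 1 := ⟨n.factorial - 1, by
    have := n.factorial_pos; omega⟩
  set c : M := ∑ i ∈ Finset.range n, v i
  refine ⟨a, n.factorial * (c + 1), ?_, fun i hi => ⟨?_, ha i hi⟩⟩
  · have := h.lt_add zM (f * (c + 1) + c)
    rwa [show aM (aM zM (f * (c + 1) + c)) oM = n.factorial * (c + 1) from by
      show 0 + (f * (c + 1) + c) + 1 = _
      rw [hf]; push_cast; ring] at this
  · obtain ⟨r, hr⟩ : ∃ r, c = v i + r :=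
      ⟨_, (Finset.add_sum_erase _ v (Finset.mem_range.2 hi)).symm⟩
    have := h.lt_add (v i) (r + 1 + f * (c + 1) + i * (n.factorial * (c + 1)))
    rwa [show aM (aM (v i) (r + 1 + f * (c + 1) + i * (n.factorial * (c + 1)))) oM =
        aM oM (mM (aM (num i) oM) (n.factorial * (c + 1))) from by
      show v i + (r + 1 + f * (c + 1) + i * (n.factorial * (c + 1))) + 1 =
        1 + (i + 1) * (n.factorial * (c + 1))
      rw [hf, hr]; push_cast; ring] at this

end Pool.Agent.MinDeg.Pa
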