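import Pool.Agent.P.MP_f8f34d_lc.a.PaRep
import Pool.Agent.P.MP_f8f34d_lc.a.Sat

/-! Truth of block formulas of a fixed level is definable in models of Peano arithmetic. -/

namespace Pool.Agent.MinDeg.Pa

open FirstOrder FirstOrder.Language Pool.Agent.Lib.ComputableProp

/-- number of variables that the code `c` of level `k` reads -/
def paSup : ℕ → ℕ → ℕ
  | 0, _ => 3
  | k + 1, c => cond (eqb (c % 2) 0) (paSup k (c / 2)) (blk (c / 2)).1

theorem c_paSup : ∀ k, Computable (paSup k)
  | 0 => Computable.const 3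
  | k + 1 => by
    have := c_paSup k
    show Computable fun c => cond (eqb (c % 2) 0) (paSup k (c / 2)) (blk (c / 2)).1
    fun_prop

/-- literal number `j` of the block with code `c` -/
def paIt (c j : ℕ) : Lt := (blk (c / 2)).2.getD j (true, 0, [])

@[fun_prop] theorem c_paIt {α : Type} [Primcodable α] {f g : α → ℕ} (hf : Computable f)
    (hg : Computable g) : Computable (fun a => paIt (f a) (g a)) := by
  unfold paIt; fun_prop

theorem pa_phi0 : ∃ P : ∀ (M : Type) [LA.Structure M], M → M → M → Prop,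
    (∀ i j l, UD fun M _ v => P M (v i) (v j) (v l)) ∧
    ∀ (M : Type) [LA.Structure M], PM M → ∀ (c : ℕ) (a b : M) (v : ℕ → M),
      (∀ i < 3, Bt a b (num i) (v i)) → (P M (num c) a b ↔ PreLA M c (v 0) (v 1) (v 2)) := by
  refine ⟨fun M _ c a b => ∃ x y z, Bt a b (num 0) x ∧ Bt a b (num 1) y ∧ Bt a b (num 2) z ∧
    (c = num 0 → x = y) ∧ (c = num 1 → lM x y) ∧ (c = num 2 → aM x y = z) ∧
    (c = num 3 → mM x y = z) ∧ (c = num 4 → x = zM) ∧ (lM (num 4) c → x = oM),
    fun i j l => ?_, fun M _ h c a b v hv => ?_⟩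
  · repeat' first
      | apply UD.bt | apply UD.and | apply UD.imp | apply UD.ex | apply UD.eq | apply UD.lt
      | exact UT.num _ | exact UT.var _ | exact UT.zero | exact UT.one | apply UT.add
      | apply UT.mul
  · have inj : ∀ a b : ℕ, (num a : M) = num b ↔ a = b := fun a b =>
      ⟨rep_num_inj h.qa a b, fun e => e ▸ rfl⟩
    simp only [inj, rep_lt_num_num h.qa]
    have e : ∀ Q : M → M → M → Prop, (∃ x y z, Bt a b (num 0) x ∧ Bt a b (num 1) y ∧
        Bt a b (num 2) z ∧ Q x y z) ↔ Q (v 0) (v 1) (v 2) := fun Q =>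
      ⟨fun ⟨x, y, z, h0, h1, h2, h3⟩ => by
        rwa [h.bt_unique h0 (hv 0 (by omega)), h.bt_unique h1 (hv 1 (by omega)),
          h.bt_unique h2 (hv 2 (by omega))] at h3,
      fun h3 => ⟨_, _, _, hv 0 (by omega), hv 1 (by omega), hv 2 (by omega), h3⟩⟩
    rw [e, PreLA]
    split_ifs with h0 h1 h2 h3 h4
    · simp [h0]
    · simp [h1]
    · simp [h2]
    · simp [h3]
    · simp [h4]
    · simp [h0, h1, h2, h3, h4, show 4 < c by omega]

theorem pa_phi (k : ℕ) : ∃ P : ∀ (M : Type) [LA.Structure M], M → M → M → Prop,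
    (∀ i j l, UD fun M _ v => P M (v i) (v j) (v l)) ∧
    ∀ (M : Type) [LA.Structure M], PM M → ∀ (c : ℕ) (a b : M) (v : ℕ → M),
      (∀ i < paSup k c, Bt a b (num i) (v i)) → (P M (num c) a b ↔ sat (PreLA M) k c v) := by
  induction k with
  | zero => exact pa_phi0
  | succ k ih =>
    obtain ⟨P, uP, hP⟩ := ih
    have := c_paSup k
    obtain ⟨G1, u1, h1⟩ := rep_fun2 (f := fun c _ => c % 2) (by fun_prop)
    obtain ⟨G2, u2, h2⟩ := rep_fun2 (f := fun c _ => c / 2) (by fun_prop)
    obtain ⟨G3, u3, h3⟩ := rep_fun2 (f := fun c _ => (blk (c / 2)).1) (by fun_prop)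
    obtain ⟨G4, u4, h4⟩ := rep_fun2 (f := fun c _ => (blk (c / 2)).2.length) (by fun_prop)
    obtain ⟨G5, u5, h5⟩ := rep_fun2 (f := fun c j => paSup k (paIt c j).2.1) (by fun_prop)
    obtain ⟨G6, u6, h6⟩ := rep_fun2 (f := fun c j => (paIt c j).2.1) (by fun_prop)
    obtain ⟨G7, u7, h7⟩ := rep_fun2 (f := fun c j => cond (paIt c j).1 0 1) (by fun_prop)
    obtain ⟨G8, u8, h8⟩ := rep_fun2
      (f := fun e i => (paIt e.unpair.1 e.unpair.2).2.2.getD i 0) (by fun_prop)
    refine ⟨fun M _ c a b => ∀ p, G1 M c c p → (p = zM → ∀ d, G2 M c c d → P M d a b) ∧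
      (¬ p = zM → ∃ a' b', (∀ n, G3 M c c n → ∀ i, lM i n → ∀ x, Bt a b i x → Bt a' b' i x) ∧
        ∀ m, G4 M c c m → ∀ j, lM j m → ∃ a'' b'',
          (∀ s, G5 M c j s → ∀ i, lM i s → ∀ e, PrM c j e → ∀ r, G8 M e i r →
            ∃ x, Bt a' b' r x ∧ Bt a'' b'' i x) ∧
          ∀ d, G6 M c j d → ∀ g, G7 M c j g → (P M d a'' b'' ↔ g = zM)),
      fun i j l => ?_, fun M _ h c a b v hv => ?_⟩
    · repeat' first
        | apply u1 | apply u2 | apply u3 | apply u4 | apply u5 | apply u6 | apply u7 | apply u8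
        | apply uP | apply UD.bt | apply UD.pr | apply UD.and | apply UD.not | apply UD.imp
        | apply UD.iff | apply UD.ex | apply UD.all | apply UD.eq | apply UD.lt | exact UT.var _
        | exact UT.zero
    · have q := h.qa
      have z : ∀ a : ℕ, (num a : M) = zM ↔ a = 0 := fun a =>
        ⟨rep_num_inj q a 0, fun e => e ▸ rfl⟩
      have bd : ∀ (n : ℕ) (Q : M → Prop), (∀ i, lM i (num n) → Q i) ↔ ∀ i < n, Q (num i) :=
        fun n Q => ⟨fun H i hi => H _ ((rep_lt_num_num q _ _).2 hi), fun H i hi => by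
          obtain ⟨k, hk, rfl⟩ := (rep_lt_num q _ _).1 hi
          exact H k hk⟩
      simp only [h1 M q, h2 M q, h3 M q, h4 M q, forall_eq, z, bd, h5 M q, h6 M q, h7 M q,
        prM_num q, h8 M q, Nat.unpair_pair]
      by_cases hc : c % 2 = 0
      · rw [sat_even _ hc,
          ← hP M h (c / 2) a b v fun i hi => hv i (by simpa [paSup, eqb, hc] using hi)]
        simp [hc]
      · have hs : paSup (k + 1) c = (blk (c / 2)).1 := by simp [paSup, eqb, hc]
        rw [hs] at hv
        rw [sat_odd _ (by omega)]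
        simp only [hc, false_imp_iff, true_and, not_false_eq_true, forall_true_left]
        have hL : ∀ w : ℕ → M, Hold (PreLA M) k (blk (c / 2)).2 w ↔
            ∀ j < (blk (c / 2)).2.length, (sat (PreLA M) k (paIt c j).2.1 (ren w (paIt c j).2.2) ↔
              (cond (paIt c j).1 0 1 = 0)) := fun w => by
          rw [Hold, List.forall_mem_iff_getElem]
          refine forall_congr' fun j => forall_congr' fun hj => ?_
          rw [paIt, List.getD_eq_getElem _ _ hj]
          cases ((blk (c / 2)).2[j]).1 <;> simp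
        simp only [hL]
        constructor
        · rintro ⟨a', b', H1, H2⟩
          classical
          let w : ℕ → M := fun i => if e : ∃ x, Bt a' b' (num i) x then e.choose else zM
          have hw : ∀ i x, Bt a' b' (num i) x → w i = x := fun i x hx => by
            have e : ∃ x, Bt a' b' (num i) x := ⟨x, hx⟩
            simp only [w, dif_pos e]
            exact h.bt_unique e.choose_spec hx
          refine ⟨w, fun i hi => hw _ _ (H1 i hi _ (hv i hi)), fun j hj => ?_⟩
          obtain ⟨a'', b'', H3, H4⟩ := H2 j hj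
          rw [← H4]
          refine (hP M h _ _ _ _ fun i hi => ?_).symm
          obtain ⟨x, hx1, hx2⟩ := H3 i hi
          rwa [ren, hw _ _ hx1]
        · rintro ⟨w, H1, H2⟩
          obtain ⟨a', b', -, H3⟩ := h.exists_bt w ((blk (c / 2)).1 +
            ((Finset.range (blk (c / 2)).2.length).sup fun j =>
              (Finset.range (paSup k (paIt c j).2.1)).sup fun i => (paIt c j).2.2.getD i 0) + 1)
          refine ⟨a', b', fun i hi x hx => ?_, fun j hj => ?_⟩
          · rw [h.bt_unique hx (hv i hi), ← H1 i hi]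
            exact H3 i (by omega)
          · obtain ⟨a'', b'', -, H4⟩ := h.exists_bt (ren w (paIt c j).2.2) (paSup k (paIt c j).2.1)
            refine ⟨a'', b'', fun i hi => ⟨_, H3 _ ?_, H4 i hi⟩, (hP M h _ _ _ _ H4).trans (H2 j hj)⟩
            have e1 := Finset.le_sup (f := fun i => (paIt c j).2.2.getD i 0) (Finset.mem_range.2 hi)
            have e2 := Finset.le_sup (f := fun j => (Finset.range (paSup k (paIt c j).2.1)).sup
              fun i => (paIt c j).2.2.getD i 0) (Finset.mem_range.2 hj)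
            beta_reduce at e1 e2
            omega

/-- the theory over level `k` is defined on numerals by one formula -/
theorem pa_TK (k : ℕ) : ∃ φ : Fm, ∀ (M : Type) [LA.Structure M], PM M → ∀ n : ℕ,
    Sat (M := M) φ [num n] ↔ TK (PreLA M) k n = true := by
  obtain ⟨P, uP, hP⟩ := pa_phi (k + 1)
  obtain ⟨G, uG, hG⟩ := rep_fun2 (f := fun n _ => exC 0 (decL n)) (by fun_prop)
  obtain ⟨φ, hφ⟩ := (UD.all (P := fun M _ v d => G M (v 0) (v 0) d → P M d d d)
    ((uG 1 1 0).imp (uP 0 0 0))).one
  refine ⟨φ, fun M _ h n => ?_⟩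
  rw [← hφ]
  simp only [hG M h.qa, forall_eq]
  rw [hP M h _ _ _ (fun _ => zM) fun i hi => ?_, sat_exC]
  · simp only [Nat.not_lt_zero, false_imp_iff, implies_true, true_and]
    exact (@decide_eq_true_iff _ (Classical.propDecidable _)).symm
  · have e1 : exC 0 (decL n) % 2 = 1 := by unfold exC; omega
    have e2 : exC 0 (decL n) / 2 = Encodable.encode (0, decL n) := by unfold exC; omega
    rw [paSup, e1, e2, blk_encode] at hi
    exact absurd hi (Nat.not_lt_zero i)

end Pool.Agent.MinDeg.Pa
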