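import Pool.Agent.P.MP_f8f34d_lc.a.PaAr
import Pool.Agent.Lib.ComputableProp.Basic

/-! Computable functions are represented on numerals. -/

namespace Pool.Agent.MinDeg.Pa

open FirstOrder FirstOrder.Language Pool.Agent.Lib.ComputableProp

theorem rep_dec' {p : ℕ → Prop} (hp : REPred p) (hn : REPred fun c => ¬ p c) :
    ∃ φ : Fm, ∀ (M : Type) [LA.Structure M], QA M → ∀ c : ℕ, Sat (M := M) φ [num c] ↔ p c := by
  obtain ⟨A, RA, hA, sA⟩ := rep_re hp 1
  obtain ⟨B, RB, hB, sB⟩ := rep_re hn 2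
  refine ⟨.ex (.and A (.all (.imp (.lt (Term.var 2) (Term.var 1)) B.neg))), fun M _ h c => ?_⟩
  have hs : Sat (M := M) (.ex (.and A (.all (.imp (.lt (Term.var 2) (Term.var 1)) B.neg))))
      [num c] ↔ ∃ a : M, Sat A [num c, a] ∧ ∀ b : M, lM b a → ¬ Sat B [num c, a, b] := by
    simp
  rw [hs]
  constructor
  · rintro ⟨a, ha, hb⟩
    by_contra h1
    obtain ⟨w, hw⟩ := (hB c).1 h1
    have hstd : ∀ k : ℕ, a ≠ num k := by
      rintro k rfl
      exact h1 ((hA c).2 ⟨k, (sA M h _ c k rfl rfl rfl).1 ha⟩)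
    rcases h.tri a (num w) with e | e | e
    · obtain ⟨k, -, e⟩ := (rep_lt_num h a w).1 e
      exact hstd k e
    · exact hstd w e
    · exact hb _ e ((sB M h _ c w rfl rfl rfl).2 hw)
  · intro h0
    obtain ⟨w, hw⟩ := (hA c).1 h0
    refine ⟨num w, (sA M h _ c w rfl rfl rfl).2 hw, fun b hb hB' => ?_⟩
    obtain ⟨k, -, rfl⟩ := (rep_lt_num h b w).1 hb
    exact (hB c).2 ⟨k, (sB M h _ c k rfl rfl rfl).1 hB'⟩ h0

theorem rep_lt_num_num {M : Type} [LA.Structure M] (h : QA M) (a b : ℕ) :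
    lM (num a : M) (num b) ↔ a < b := by
  rw [rep_lt_num h]
  exact ⟨fun ⟨k, hk, e⟩ => rep_num_inj h _ _ e ▸ hk, fun e => ⟨a, e, rfl⟩⟩

/-- the pairing relation -/
def PrM {M : Type} [LA.Structure M] (a b z : M) : Prop :=
  (lM a b ∧ z = aM (mM b b) a) ∨ (¬ lM a b ∧ z = aM (aM (mM a a) a) b)

theorem UD.pr {a b z : UF} (ha : UT a) (hb : UT b) (hz : UT z) :
    UD fun M _ v => PrM (a M v) (b M v) (z M v) :=
  ((UD.lt ha hb).and (.eq hz (.add (.mul hb hb) ha))).or
    ((UD.lt ha hb).not.and (.eq hz (.add (.add (.mul ha ha) ha) hb)))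

theorem prM_num {M : Type} [LA.Structure M] (h : QA M) (a b : ℕ) (z : M) :
    PrM (num a) (num b) z ↔ z = num (Nat.pair a b) := by
  unfold PrM Nat.pair
  rw [rep_lt_num_num h]
  split_ifs with e <;> simp [e, rep_num_add h, rep_num_mul h]

/-- a computable function of one argument is represented on numerals -/
theorem rep_fun1 {f : ℕ → ℕ} (hf : Computable f) :
    ∃ G : ∀ (M : Type) [LA.Structure M], M → M → Prop, (UD fun M _ v => G M (v 0) (v 1)) ∧
      ∀ (M : Type) [LA.Structure M], QA M → ∀ (c : ℕ) (x : M), G M (num c) x ↔ x = num (f c) := by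
  have h1 : ComputablePred fun z : ℕ => f z.unpair.1 = z.unpair.2 :=
    ComputablePred.computable_iff.2 ⟨fun z => eqb (f z.unpair.1) z.unpair.2, by fun_prop,
      by funext z; simp⟩
  obtain ⟨φ, hφ⟩ := rep_dec' h1.to_re h1.not.to_re
  refine ⟨fun M _ c x => (∃ z, PrM c x z ∧ Sat φ [z]) ∧ ∀ y, lM y x → ¬ ∃ z, PrM c y z ∧ Sat φ [z],
    .and (.ex (.and (.pr (.var 1) (.var 2) (.var 0)) (.sat φ 0)))
      (.all (.imp (.lt (.var 0) (.var 2))
        (.not (.ex (.and (.pr (.var 2) (.var 1) (.var 0)) (.sat φ 0)))))), fun M _ h c x => ?_⟩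
  have key : ∀ k, (∃ z : M, PrM (num c) (num k) z ∧ Sat φ [z]) ↔ f c = k := fun k => by
    simp only [prM_num h, exists_eq_left, hφ M h, Nat.unpair_pair]
  constructor
  · rintro ⟨h2, h3⟩
    rcases h.tri x (num (f c)) with e | e | e
    · obtain ⟨k, -, rfl⟩ := (rep_lt_num h _ _).1 e
      rw [(key k).1 h2]
    · exact e
    · exact (h3 _ e ((key _).2 rfl)).elim
  · rintro rfl
    refine ⟨(key _).2 rfl, fun y hy => ?_⟩
    obtain ⟨k, hk, rfl⟩ := (rep_lt_num h _ _).1 hy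
    rw [key]
    omega

/-- a computable function of two arguments is represented on numerals -/
theorem rep_fun2 {f : ℕ → ℕ → ℕ} (hf : Computable fun z : ℕ => f z.unpair.1 z.unpair.2) :
    ∃ G : ∀ (M : Type) [LA.Structure M], M → M → M → Prop,
      (∀ i j k, UD fun M _ v => G M (v i) (v j) (v k)) ∧
      ∀ (M : Type) [LA.Structure M], QA M → ∀ (c d : ℕ) (x : M),
        G M (num c) (num d) x ↔ x = num (f c d) := by
  obtain ⟨G, hG, h1⟩ := rep_fun1 hf
  refine ⟨fun M _ c d x => ∃ z, PrM c d z ∧ G M z x, fun i j k =>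
    .ex (.and (.pr (.var (i + 1)) (.var (j + 1)) (.var 0)) (hG.app2 (.var 0) (.var (k + 1)))),
    fun M _ h c d x => ?_⟩
  simp only [prM_num h, exists_eq_left, h1 M h, Nat.unpair_pair]

end Pool.Agent.MinDeg.Pa
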