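import Pool.Agent.P.MP_f8f34d_lc.a.Sol0
import Pool.Agent.P.MP_f8f34d_lc.W.Rel

/-! Definitions and elementary lemmas of section 8. -/

namespace Pool.Agent.MinDeg.Sol

open Pool.Agent.Lib.ComputableProp

/-- all variables read through the list `r` are below `d` -/
def bd (d : ℕ) (r : List ℕ) : Prop := 0 < d ∧ ∀ i ∈ r, i < d

/-- a list as an assignment -/
def asg (r : List ℕ) : ℕ → ℕ := fun i => r.getD i 0

/-- one literal holds -/
def H1 {M : Type} (P : Pre M) (k : ℕ) (l : Lt) (v : ℕ → M) : Prop :=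
  sat P k l.2.1 (ren v l.2.2) ↔ l.1 = true

/-- a set of literals: a column read on the variables below a bound, and a finite list -/
abbrev Pm : Type := ℕ × ℕ × List Lt

def lits (A : CS) (p : Pm) (l : Lt) : Prop :=
  l ∈ p.2.2 ∨ (bd p.2.1 l.2.2 ∧ colm A p.1 (ix l.2.1 l.2.2) = l.1)

def Vb (p : Pm) (d : ℕ) : Prop := p.2.1 ≤ d ∧ ∀ l ∈ p.2.2, bd d l.2.2

/-- renaming of a literal -/
def rl (ρ : ℕ → ℕ) (l : Lt) : Lt :=
  (l.1, l.2.1, (List.range (l.2.1 + 3)).map fun i => ρ (l.2.2.getD i 0))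

/-- lifting of a literal by `j` levels -/
def up (j : ℕ) (l : Lt) : Lt := (l.1, 2 ^ j * l.2.1, l.2.2)

/-- `w` has the values prescribed by `π` on an initial segment and the value `j` at `e` -/
def Pin {M : Type} (π : List ℕ) (e j : ℕ) (u w : ℕ → M) : Prop :=
  (∀ i < π.length, w i = u (π.getD i 0)) ∧ w e = u j

def sg (n e i : ℕ) : ℕ := cond (leb (i + 1) n) i (cond (eqb i e) n (i + 1))

/-- code of: the list holds at some pinned assignment -/
def pinC (n e : ℕ) (L : List Lt) : ℕ := exC (n + 1) (L.map (rl (sg n e)))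

/-- columns for the types of level `K` are found computably in `y` -/
def Idx (X y : CS) (P : Pre ℕ) (K : ℕ) : Prop :=
  ∃ τ : ℕ → ℕ, CF y τ ∧ ∀ d c r, bd d r → (colm X (τ d) (ix c r) = true ↔ sat P K c (asg r))

/-- saturation for types of level `K` given by columns -/
def Satu (X : CS) (P : Pre ℕ) (K : ℕ) : Prop :=
  ∀ (p : Pm) (d : ℕ) (π : List ℕ) (e j : ℕ), Vb p d → π.length ≤ e →
    (∀ L : List Lt, (∀ l ∈ L, lits X p l) → ∃ w, Pin π e j id w ∧ Hold P K L w) →
    ∃ w, Pin π e j id w ∧ ∀ l, lits X p l → H1 P K l w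

/-- the column `g.1` says that `L` is realized over the first `g.2` variables -/
def cmp (A : CS) (g : ℕ × ℕ) (L : List Lt) : Prop :=
  colm A g.1 (ix (exC g.2 L) (List.range g.2)) = true

def Cpt (A : CS) (p : Pm) (g : ℕ × ℕ) : Prop := ∀ L : List Lt, (∀ l ∈ L, lits A p l) → cmp A g L

/-- `w` realizes the column `g.1` on the variables below `g.2` -/
def Rz {M : Type} (X : CS) (P : Pre M) (K : ℕ) (g : ℕ × ℕ) (w : ℕ → M) : Prop :=
  ∀ c r, bd g.2 r → (sat P K c (ren w r) ↔ colm X g.1 (ix c r) = true)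

/-- the extension step of the lower worker -/
def ExtP (X x : CS) (k : ℕ) (Inv : ℕ → Pm → Prop) : Prop :=
  ∃ E : ℕ × Pm × List (ℕ × ℕ) → Pm × ℕ, CF x E ∧
    ∀ (P : Pre ℕ) (t : ℕ) (p : Pm) (gs : List (ℕ × ℕ)) (n : ℕ) (w : ℕ → ℕ), Inv t p →
      n < gs.length →
      (∀ j ≤ n, Rz X P (k + 1) (gs.getD j (0, 0)) w ∧ 0 < (gs.getD j (0, 0)).2 ∧
        (gs.getD j (0, 0)).2 ≤ (gs.getD n (0, 0)).2) →
      Cpt X p (gs.getD n (0, 0)) →
      Inv (t + 1) (E (t, p, gs)).1 ∧ (∀ l, lits X p l → lits X (E (t, p, gs)).1 l) ∧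
        n < (E (t, p, gs)).2 ∧ ∀ j ≤ n, Cpt X (E (t, p, gs)).1 (gs.getD j (0, 0))

def Inv0 (t : ℕ) (p : Pm) : Prop :=
  p.2.1 = 0 ∧ Vb p t ∧ ∀ c r, ix c r < t → ∃ s, (s, c, r) ∈ p.2.2

def Inv1 (t : ℕ) (p : Pm) : Prop := p.2.1 = t ∧ p.2.2 = []

section Comp
variable {α : Type} [Primcodable α]

theorem re_bd {f : α → ℕ} {g : α → List ℕ} (hf : Computable f) (hg : Computable g) :
    RE (fun a => bd (f a) (g a)) :=
  (RE.lt (by fun_prop) hf).and (RE.forall_mem hg (RE.lt (by fun_prop) (by fun_prop)))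

theorem re_not_bd {f : α → ℕ} {g : α → List ℕ} (hf : Computable f) (hg : Computable g) :
    RE (fun a => ¬ bd (f a) (g a)) :=
  ((RE.eq hf (g := fun _ => 0) (by fun_prop)).or (RE.exists_mem (R := fun a i => f a ≤ i) hg
    (RE.le (f := fun w : α × ℕ => f w.1) (g := fun w => w.2) (by fun_prop) (by fun_prop)))).of_iff
    fun a => by
      simp only [bd, not_and_or, not_forall, not_lt, Nat.le_zero, exists_prop]

@[fun_prop] theorem c_rl {ρ : α → ℕ → ℕ} {l : α → Lt}
    (hρ : Computable fun w : α × ℕ => ρ w.1 w.2) (hl : Computable l) :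
    Computable (fun a => rl (ρ a) (l a)) := by
  unfold rl
  refine c_pair (by fun_prop) (c_pair (by fun_prop) (c_map (by fun_prop) ?_))
  exact hρ.comp (g := fun w : α × ℕ => (w.1, (l w.1).2.2.getD w.2 0)) (by fun_prop)

@[fun_prop] theorem c_up {j : α → ℕ} {l : α → Lt} (hj : Computable j) (hl : Computable l) :
    Computable (fun a => up (j a) (l a)) := by
  unfold up; fun_prop

@[fun_prop] theorem c_sg {f g h : α → ℕ} (hf : Computable f) (hg : Computable g)
    (hh : Computable h) : Computable (fun a => sg (f a) (g a) (h a)) := by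
  unfold sg; fun_prop

@[fun_prop] theorem c_pinC {f g : α → ℕ} {L : α → List Lt} (hf : Computable f) (hg : Computable g)
    (hL : Computable L) : Computable (fun a => pinC (f a) (g a) (L a)) := by
  unfold pinC
  refine c_exC (by fun_prop) (c_map hL (c_rl (by fun_prop) (by fun_prop)))

theorem cm_colm {F : CS → α → CS} (h : CM F) {m : α → ℕ} (hm : Computable m) :
    CM (fun z a => colm (F z a) (m a)) := h.col hm

theorem cm_cutc {F : CS → α → CS} (h : CM F) {b : α → ℕ} (hb : Computable b) :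
    CM (fun z a => cutc (b a) (F z a)) := by
  have := CM.cond h CM.zz (c := fun a n => leb (n.unpair.1 + 1) (b a)) (by fun_prop)
  refine Sig.of_iff this fun z w => ?_
  simp only [cutc, zz]
  cases leb (w.2.1.unpair.1 + 1) (b w.1) <;> simp

theorem sig_lits {F : CS → α → CS} (h : CM F) {p : α → Pm} {l : α → Lt} (hp : Computable p)
    (hl : Computable l) : Sig (fun z a => lits (F z a) (p a) (l a)) :=
  (Sig.of_re (RE.mem hl (by fun_prop))).or ((Sig.of_re (re_bd (by fun_prop) (by fun_prop))).and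
    ((cm_colm h (by fun_prop)).bit (by fun_prop) (by fun_prop)))

theorem sig_cmp {F : CS → α → CS} (h : CM F) {g : α → ℕ × ℕ} {L : α → List Lt}
    (hg : Computable g) (hL : Computable L) : Sig (fun z a => cmp (F z a) (g a) (L a)) :=
  (cm_colm h (by fun_prop)).bit (by fun_prop) (by fun_prop)

theorem pii_cmp {F : CS → α → CS} (h : CM F) {g : α → ℕ × ℕ} {L : α → List Lt}
    (hg : Computable g) (hL : Computable L) : Pii (fun z a => cmp (F z a) (g a) (L a)) :=
  Pii.bit (cm_colm h (by fun_prop)) (by fun_prop) (by fun_prop)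

end Comp

theorem colm_cutc {b m : ℕ} (h : m < b) (X : CS) : colm (cutc b X) m = colm X m := by
  funext n
  simp [colm, cutc, leb, h]

/-- use of the path property: a class closed uniformly in `X` that looks only at the columns
below a computable bound -/
theorem path_use {X : CS} (hP : PathP X) {α : Type} [Primcodable α] {C : CS → CS → α → Prop}
    (hC : Pii (fun z a => C (lf z) (rt z) a)) {b : α → ℕ} (hb : Computable b)
    (loc : ∀ Y a, C (cutc (b a) X) Y a ↔ C X Y a) :
    ∃ k : α → ℕ, Computable k ∧ ∀ a, (∃ Y, C X Y a) → C X (colm X (k a)) a := by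
  obtain ⟨k, hk, H⟩ := hP α _ hC
  refine ⟨fun a => k (b a, a), by fun_prop, fun a ⟨Y, hY⟩ => ?_⟩
  have := H (b a) a ⟨Y, by simpa [loc] using hY⟩
  simpa [loc] using this

theorem bd.getD {d : ℕ} {r : List ℕ} (h : bd d r) (i : ℕ) : r.getD i 0 < d := by
  by_cases hi : i < r.length
  · rw [List.getD_eq_getElem _ _ hi]; exact h.2 _ (List.getElem_mem hi)
  · rw [List.getD_eq_default _ _ (by omega)]; exact h.1

theorem bd.mono {d d' : ℕ} {r : List ℕ} (h : bd d r) (k : d ≤ d') : bd d' r :=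
  ⟨by have := h.1; omega, fun i hi => (h.2 i hi).trans_le k⟩

theorem exists_bd (r : List ℕ) : ∃ d, bd d r :=
  ⟨ix 0 r + 1, by omega, fun i hi => (lt_ix (p := 0) hi).trans (by omega)⟩

theorem bd_range {d : ℕ} (h : 0 < d) : bd d (List.range d) := ⟨h, fun _ hi => List.mem_range.1 hi⟩

theorem Vb.mono {p : Pm} {d d' : ℕ} (h : Vb p d) (k : d ≤ d') : Vb p d' :=
  ⟨h.1.trans k, fun l hl => (h.2 l hl).mono k⟩

theorem lits.bd {A : CS} {p : Pm} {l : Lt} {d : ℕ} (h : lits A p l) (k : Vb p d) : bd d l.2.2 :=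
  h.elim (k.2 l) fun h => h.1.mono k.1

theorem lits_cutc {b : ℕ} {p : Pm} (h : p.1 < b) (X : CS) : lits (cutc b X) p = lits X p := by
  funext l; simp only [lits, colm_cutc h]

theorem cmp_cutc {b : ℕ} {g : ℕ × ℕ} (h : g.1 < b) (X : CS) : cmp (cutc b X) g = cmp X g := by
  funext l; simp only [cmp, colm_cutc h]

section Sem
variable {M : Type} (P : Pre M)

theorem hold_iff (k : ℕ) (L : List Lt) (v : ℕ → M) : Hold P k L v ↔ ∀ l ∈ L, H1 P k l v := Iff.rfl

theorem ren_eq (v : ℕ → M) (r : List ℕ) : ren v r = v ∘ asg r := rfl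

theorem ren_congr {v w : ℕ → M} {d : ℕ} {r : List ℕ} (h : bd d r) (k : ∀ i < d, v i = w i) :
    ren v r = ren w r := funext fun i => k _ (h.getD i)

theorem H1_congr {v w : ℕ → M} {d k : ℕ} {l : Lt} (h : bd d l.2.2) (e : ∀ i < d, v i = w i) :
    H1 P k l v ↔ H1 P k l w := by
  rw [H1, H1, ren_congr h e]

theorem blk_le (c : ℕ) : (blk c).1 ≤ c := by
  unfold blk
  cases h : Encodable.decode (α := ℕ × List Lt) c with
  | none => simp
  | some a =>
    rw [Encodable.decode_prod_val] at h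
    simp only [Encodable.decode_nat, Option.bind_some, Option.map_eq_some_iff] at h
    obtain ⟨b, -, rfl⟩ := h
    exact Nat.unpair_left_le c

/-- locality -/
theorem sat_loc : ∀ (k c : ℕ) (v w : ℕ → M), (∀ i < c + 3, v i = w i) →
    (sat P k c v ↔ sat P k c w) := by
  intro k
  induction k with
  | zero =>
    intro c v w h
    rw [sat_zero, sat_zero, h 0 (by omega), h 1 (by omega), h 2 (by omega)]
  | succ k ih =>
    intro c v w h
    rcases Nat.mod_two_eq_zero_or_one c with hc | hc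
    · rw [sat_even P hc, sat_even P hc]
      exact ih _ _ _ fun i hi => h i (by omega)
    · rw [sat_odd P hc, sat_odd P hc]
      have := blk_le (c / 2)
      refine exists_congr fun u => and_congr_left fun _ => forall₂_congr fun i hi => ?_
      rw [h i (by omega)]

theorem H1_rl (k : ℕ) (ρ : ℕ → ℕ) (l : Lt) (v : ℕ → M) : H1 P k (rl ρ l) v ↔ H1 P k l (v ∘ ρ) := by
  refine iff_congr (sat_loc P k _ _ _ fun i hi => ?_) Iff.rfl
  simp only [rl] at hi ⊢
  rw [ren, getD_range_map _ _ hi]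
  rfl

theorem hold_rl (k : ℕ) (ρ : ℕ → ℕ) (L : List Lt) (v : ℕ → M) :
    Hold P k (L.map (rl ρ)) v ↔ Hold P k L (v ∘ ρ) := by
  simp only [hold_iff, List.forall_mem_map, H1_rl]

theorem bd_rl {ρ : ℕ → ℕ} {l : Lt} {d d' : ℕ} (h : bd d l.2.2) (k : ∀ i < d, ρ i < d') :
    bd d' (rl ρ l).2.2 := by
  refine ⟨(Nat.zero_le _).trans_lt (k 0 h.1), fun i hi => ?_⟩
  obtain ⟨j, -, rfl⟩ := List.mem_map.1 hi
  exact k _ (h.getD j)

theorem sat_pow (k j c : ℕ) (v : ℕ → M) : sat P (k + j) (2 ^ j * c) v ↔ sat P k c v := by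
  induction j with
  | zero => simp
  | succ j ih => rw [← add_assoc, pow_succ', mul_assoc, sat_two_mul, ih]

theorem H1_up (k j : ℕ) (l : Lt) (v : ℕ → M) : H1 P (k + j) (up j l) v ↔ H1 P k l v :=
  iff_congr (sat_pow P k j _ _) Iff.rfl

theorem sat_pinC (k : ℕ) {π : List ℕ} {e : ℕ} (he : π.length ≤ e) (j : ℕ) (L : List Lt)
    (u : ℕ → M) : sat P (k + 1) (pinC π.length e L) (ren u (π ++ [j])) ↔
      ∃ w, Pin π e j u w ∧ Hold P k L w := by
  rw [pinC, sat_exC]
  have s1 : ∀ i < π.length, sg π.length e i = i := fun i hi => by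
    simp [sg, leb, hi]
  have s2 : sg π.length e e = π.length := by
    have : ¬ e < π.length := by omega
    simp [sg, leb, eqb, this]
  have s3 : ∀ i, ¬ i < π.length → i ≠ e → sg π.length e i = i + 1 := fun i hi hj => by
    simp [sg, leb, eqb, hi, hj]
  have r1 : ∀ i < π.length, ren u (π ++ [j]) i = u (π.getD i 0) := fun i hi => by
    rw [ren, List.getD_append _ _ _ _ hi]
  have r2 : ren u (π ++ [j]) π.length = u j := by
    rw [ren, List.getD_append_right _ _ _ _ le_rfl]; simp
  constructor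
  · rintro ⟨w, h1, h2⟩
    refine ⟨w ∘ sg π.length e, ⟨fun i hi => ?_, ?_⟩, (hold_rl P k _ L w).1 h2⟩
    · rw [Function.comp, s1 i hi, h1 i (by omega), r1 i hi]
    · rw [Function.comp, s2, h1 _ (by omega), r2]
  · rintro ⟨w, ⟨h1, h2⟩, h3⟩
    refine ⟨fun n => if n < π.length then w n else if n = π.length then w e else w (n - 1),
      fun i hi => ?_, (hold_rl P k _ L _).2 ?_⟩
    · beta_reduce
      by_cases h : i < π.length
      · rw [if_pos h, r1 i h, h1 i h]
      · obtain rfl : i = π.length := by omega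
        rw [if_neg h, if_pos rfl, r2, h2]
    · have : (fun n => if n < π.length then w n else if n = π.length then w e else w (n - 1)) ∘
          sg π.length e = w := by
        funext i
        by_cases h : i < π.length
        · simp only [Function.comp, s1 i h, if_pos h]
        · by_cases h' : i = e
          · subst h'
            simp only [Function.comp, s2, lt_irrefl, if_false, if_true]
          · simp only [Function.comp, s3 i h h']
            rw [if_neg (by omega), if_neg (by omega), Nat.add_sub_cancel]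
      rwa [this]

/-- meaning of the test for a realized column -/
theorem Rz.cmp_iff {X : CS} {k : ℕ} {g : ℕ × ℕ} {w : ℕ → M} (h : Rz X P (k + 1) g w) (hg : 0 < g.2)
    (L : List Lt) : cmp X g L ↔ ∃ w', (∀ i < g.2, w' i = w i) ∧ Hold P k L w' := by
  rw [cmp, ← h _ _ (bd_range hg), sat_exC]
  refine exists_congr fun u => and_congr_left fun _ => forall₂_congr fun i hi => ?_
  have := getD_range_map (fun i => i) 0 hi
  rw [List.map_id'] at this
  rw [ren, this]

/-- back and forth -/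
theorem sat_bisim {M' : Type} (P' : Pre M') (Z : M → M' → Prop) (h1 : ∀ a, ∃ b, Z a b)
    (h2 : ∀ b, ∃ a, Z a b)
    (h3 : ∀ c a a' b b' d d', Z a a' → Z b b' → Z d d' → (P c a b d ↔ P' c a' b' d')) :
    ∀ (k c : ℕ) (v : ℕ → M) (v' : ℕ → M'), (∀ i, Z (v i) (v' i)) →
      (sat P k c v ↔ sat P' k c v') := by
  intro k
  induction k with
  | zero => intro c v v' h; exact h3 _ _ _ _ _ _ _ (h 0) (h 1) (h 2)
  | succ k ih =>
    intro c v v' h
    rcases Nat.mod_two_eq_zero_or_one c with hc | hc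
    · rw [sat_even P hc, sat_even P' hc]; exact ih _ _ _ h
    · rw [sat_odd P hc, sat_odd P' hc]
      constructor
      · rintro ⟨w, a1, a2⟩
        have : ∀ i, ∃ b, Z (w i) b ∧ (i < (blk (c / 2)).1 → b = v' i) := fun i => by
          by_cases hi : i < (blk (c / 2)).1
          · exact ⟨v' i, by rw [a1 i hi]; exact h i, fun _ => rfl⟩
          · obtain ⟨b, hb⟩ := h1 (w i); exact ⟨b, hb, fun k => absurd k hi⟩
        choose w' hw using this
        exact ⟨w', fun i hi => (hw i).2 hi, fun l hl =>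
          (ih _ (ren w l.2.2) (ren w' l.2.2) fun i => (hw _).1).symm.trans (a2 l hl)⟩
      · rintro ⟨w, a1, a2⟩
        have : ∀ i, ∃ b, Z b (w i) ∧ (i < (blk (c / 2)).1 → b = v i) := fun i => by
          by_cases hi : i < (blk (c / 2)).1
          · exact ⟨v i, by rw [a1 i hi]; exact h i, fun _ => rfl⟩
          · obtain ⟨b, hb⟩ := h2 (w i); exact ⟨b, hb, fun k => absurd k hi⟩
        choose w' hw using this
        exact ⟨w', fun i hi => (hw i).2 hi, fun l hl =>
          (ih _ (ren w' l.2.2) (ren w l.2.2) fun i => (hw _).1).trans (a2 l hl)⟩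

theorem TK_bisim {M' : Type} (P' : Pre M') (Z : M → M' → Prop) (h1 : ∀ a, ∃ b, Z a b)
    (h2 : ∀ b, ∃ a, Z a b)
    (h3 : ∀ c a a' b b' d d', Z a a' → Z b b' → Z d d' → (P c a b d ↔ P' c a' b' d')) (k : ℕ) :
    TK P k = TK P' k := by
  funext n
  have : th P k (decL n) ↔ th P' k (decL n) := by
    constructor
    · rintro ⟨v, hv⟩
      choose g hg using h1
      exact ⟨g ∘ v, fun l hl => (sat_bisim P P' Z (fun a => ⟨_, hg a⟩) h2 h3 k _ (ren v l.2.2)
        (ren (g ∘ v) l.2.2) fun i => hg _).symm.trans (hv l hl)⟩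
    · rintro ⟨v, hv⟩
      choose g hg using h2
      exact ⟨g ∘ v, fun l hl => (sat_bisim P P' Z h1 (fun a => ⟨_, hg a⟩) h3 k _
        (ren (g ∘ v) l.2.2) (ren v l.2.2) fun i => hg _).trans (hv l hl)⟩
  unfold TK
  rw [propext this]

open Classical in
/-- the type of level `K` of an ultrafilter of assignments -/
noncomputable def tpU (U : Ultrafilter (ℕ → M)) (K : ℕ) : CS := fun n =>
  decide ({v | sat P K n.unpair.1 (ren v (Denumerable.ofNat (List ℕ) n.unpair.2))} ∈ U)

theorem tpU_iff (U : Ultrafilter (ℕ → M)) (K c : ℕ) (r : List ℕ) :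
    tpU P U K (ix c r) = true ↔ {v | sat P K c (ren v r)} ∈ U := by
  unfold tpU
  refine (@decide_eq_true_iff _ (_)).trans ?_
  rw [ix, Nat.unpair_pair, Denumerable.ofNat_encode]

theorem tpU_eq (U : Ultrafilter (ℕ → M)) (K : ℕ) (l : Lt) :
    tpU P U K (ix l.2.1 l.2.2) = l.1 ↔ {v | H1 P K l v} ∈ U := by
  obtain ⟨s, c, r⟩ := l
  cases s
  · have : {v | H1 P K (false, c, r) v} = {v | sat P K c (ren v r)}ᶜ := by
      ext v; simp [H1]
    rw [this, Ultrafilter.compl_mem_iff_notMem, ← tpU_iff]; simp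
  · have : {v | H1 P K (true, c, r) v} = {v | sat P K c (ren v r)} := by
      ext v; simp [H1]
    rw [this, ← tpU_iff]

theorem hold_mem {U : Ultrafilter (ℕ → M)} {K : ℕ} {L : List Lt}
    (h : ∀ l ∈ L, {v | H1 P K l v} ∈ U) : {v | Hold P K L v} ∈ U := by
  induction L with
  | nil => exact Filter.mem_of_superset Filter.univ_mem fun v _ => by simp [Hold]
  | cons l L ih =>
    refine Filter.mem_of_superset (Filter.inter_mem (h l List.mem_cons_self)
      (ih fun l hl => h l (List.mem_cons_of_mem _ hl))) fun v hv => ?_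
    exact List.forall_mem_cons.2 ⟨hv.1, hv.2⟩

/-- compactness: a finitely realized set of literals lies in an ultrafilter -/
theorem exists_ultra (K : ℕ) (W : Set (ℕ → M)) (G : Lt → Prop)
    (h : ∀ L : List Lt, (∀ l ∈ L, G l) → ∃ v ∈ W, Hold P K L v) :
    ∃ U : Ultrafilter (ℕ → M), W ∈ U ∧ ∀ l, G l → {v | H1 P K l v} ∈ U := by
  let F : {L : List Lt // ∀ l ∈ L, G l} → Filter (ℕ → M) :=
    fun L => Filter.principal {v | v ∈ W ∧ Hold P K L.1 v}
  have hne : Nonempty {L : List Lt // ∀ l ∈ L, G l} := ⟨⟨[], by simp⟩⟩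
  have hd : Directed (· ≥ ·) F := by
    intro a b
    refine ⟨⟨a.1 ++ b.1, fun l hl => (List.mem_append.1 hl).elim (a.2 l) (b.2 l)⟩, ?_, ?_⟩
    · exact Filter.principal_mono.2 fun v hv => ⟨hv.1, fun l hl => hv.2 l (List.mem_append_left _ hl)⟩
    · exact Filter.principal_mono.2 fun v hv => ⟨hv.1, fun l hl => hv.2 l (List.mem_append_right _ hl)⟩
  have hb : (iInf F).NeBot := Filter.iInf_neBot_of_directed' hd fun L =>
    Filter.principal_neBot_iff.2 (h L.1 L.2)
  have key : ∀ L : {L : List Lt // ∀ l ∈ L, G l}, {v | v ∈ W ∧ Hold P K L.1 v} ∈ Ultrafilter.of (iInf F) := fun L =>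
    Ultrafilter.of_le _ (Filter.mem_iInf_of_mem (f := F) L (Filter.mem_principal_self _))
  refine ⟨Ultrafilter.of (iInf F), Filter.mem_of_superset (key ⟨[], by simp⟩) fun v hv => hv.1,
    fun l hl => Filter.mem_of_superset (key ⟨[l], by simpa using hl⟩) fun v hv => ?_⟩
  exact hv.2 l List.mem_cons_self

end Sem

end Pool.Agent.MinDeg.Sol
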