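import Pool.Agent.P.MP_f8f34d_lc.a.SolD

/-! The limit lemma for relations and runs along an invariant. -/

namespace Pool.Agent.MinDeg.Sol

open Pool.Agent.Lib.ComputableProp Filter

variable {α β : Type} [Primcodable α] [Primcodable β]

theorem solL_least {γ : Type} [Primcodable γ] {P : γ → Prop} (h : ∃ w, P w) :
    ∃ w, P w ∧ ∀ w', Encodable.encode w' < Encodable.encode w → ¬ P w' := by
  obtain ⟨w, hw, hm⟩ := (measure (Encodable.encode : γ → ℕ)).wf.has_min {w | P w} h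
  exact ⟨w, hw, fun w' hlt hw' => hm w' hw' hlt⟩

theorem limit {x : CS} {R : α → β → Prop} (h : SE (jp x) (fun z : α × β => R z.1 z.2)) (b0 : β) :
    ∃ g : α × ℕ → β, CF x g ∧
      ∀ a, (∃ b, R a b) → ∃ b, R a b ∧ ∃ t0, ∀ t, t0 ≤ t → g (a, t) = b := by
  obtain ⟨S, ⟨R0, ⟨τ, hτ, h1⟩, -, h3⟩, h2⟩ := h
  obtain ⟨St, s1, s2, s3, s4⟩ := sig_Un.stage
  have dSt : DE x (St x) := ⟨s1.se x, s2.neg.se x⟩
  let Ok : α × ℕ → List Bool × β × ℕ → Prop := fun p w =>
    (∀ k < w.1.length, (w.1.getD k false = true → St x (k, p.2)) ∧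
      (St x (k, p.2) → w.1.getD k false = true)) ∧ τ ((w.1, (p.1, w.2.1)), w.2.2) = true
  have dOk : DE x (fun z : (α × ℕ) × (List Bool × β × ℕ) => Ok z.1 z.2) := by
    refine DE.and (DE.forall_lt (l := fun z : (α × ℕ) × (List Bool × β × ℕ) => z.2.1.length)
      (by fun_prop) ?_) (DE.eq (by fun_prop) (by fun_prop))
    have e1 : DE x (fun u : ((α × ℕ) × (List Bool × β × ℕ)) × ℕ =>
        u.1.2.1.getD u.2 false = true) := DE.eq (by fun_prop) (by fun_prop)
    have e2 : DE x (fun u : ((α × ℕ) × (List Bool × β × ℕ)) × ℕ => St x (u.2, u.1.1.2)) :=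
      dSt.comp (by fun_prop)
    exact (e1.imp e2).and (e2.imp e1)
  let G : α × ℕ → β → Prop := fun p b =>
    (∃ w, Ok p w ∧ (∀ w', Encodable.encode w' < Encodable.encode w → ¬ Ok p w') ∧ w.2.1 = b) ∨
      ((∀ w, Encodable.encode w < p.2 → ¬ Ok p w) ∧ b0 = b)
  have sG : SE x (fun z : (α × ℕ) × β => G z.1 z.2) := by
    refine SE.or (SE.ex (SE.and ?_ (SE.and ?_ ?_))) (SE.and ?_ ?_)
    · exact dOk.1.comp (f := fun u : ((α × ℕ) × β) × (List Bool × β × ℕ) => (u.1.1, u.2))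
        (by fun_prop)
    · refine SE.forall_enc (l := fun u : ((α × ℕ) × β) × (List Bool × β × ℕ) =>
        Encodable.encode u.2) (by fun_prop) ?_
      exact dOk.2.comp (f := fun u : (((α × ℕ) × β) × (List Bool × β × ℕ)) ×
        (List Bool × β × ℕ) => (u.1.1.1, u.2)) (by fun_prop)
    · exact SE.of_re (RE.eq (by fun_prop) (by fun_prop))
    · refine SE.forall_enc (l := fun u : (α × ℕ) × β => u.1.2) (by fun_prop) ?_
      exact dOk.2.comp (f := fun u : ((α × ℕ) × β) × (List Bool × β × ℕ) => (u.1.1, u.2))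
        (by fun_prop)
    · exact SE.of_re (RE.eq (by fun_prop) (by fun_prop))
  have tG : ∀ p, ∃ b, G p b := fun p => by
    by_cases hp : ∃ w, Ok p w
    · obtain ⟨w, hw, hm⟩ := solL_least hp
      exact ⟨_, Or.inl ⟨w, hw, hm, rfl⟩⟩
    · exact ⟨b0, Or.inr ⟨fun w _ hw => hp ⟨w, hw⟩, rfl⟩⟩
  obtain ⟨g, hg, hG⟩ := sG.unif tG
  refine ⟨g, hg, fun a ha => ?_⟩
  let Tr : List Bool × β × ℕ → Prop := fun w =>
    Ext w.1 (jp x) ∧ τ ((w.1, (a, w.2.1)), w.2.2) = true
  have ex : ∃ w, Tr w := by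
    obtain ⟨b, hb⟩ := ha
    obtain ⟨n, hn⟩ := (h3 _ _).1 ((h2 (a, b)).2 hb)
    obtain ⟨m, hm⟩ := (h1 (_, (a, b))).1 hn
    exact ⟨(pre (jp x) n, b, m), ext_pre _ _, hm⟩
  obtain ⟨w0, hw0, hm0⟩ := solL_least ex
  refine ⟨w0.2.1, (h2 (a, w0.2.1)).1 ((h3 _ _).2 ⟨w0.1.length, ?_⟩), ?_⟩
  · rw [hw0.1.eq_pre]
    exact (h1 (w0.1, (a, w0.2.1))).2 ⟨_, hw0.2⟩
  have ev1 : ∀ k, ∀ᶠ t in atTop, St x (k, t) ↔ jp x k = true := fun k => by
    by_cases hk : Un k x
    · obtain ⟨s, hs⟩ := (s4 x k).1 hk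
      filter_upwards [eventually_ge_atTop s] with t ht
      simp [jp, hk, s3 x k s t ht hs]
    · refine Eventually.of_forall fun t => ?_
      have : ¬ St x (k, t) := fun H => hk ((s4 x k).2 ⟨t, H⟩)
      simp [jp, hk, this]
  have ev2 : ∀ w, ∀ᶠ t in atTop, Ok (a, t) w ↔ Tr w := fun w => by
    filter_upwards [(eventually_all_finite (Set.finite_lt_nat w.1.length)).2
      fun k _ => ev1 k] with t ht
    refine and_congr_left fun _ => forall₂_congr fun k hk => ?_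
    rw [ht k hk]
    cases jp x k <;> cases w.1.getD k false <;> simp
  have fin : {w : List Bool × β × ℕ | Encodable.encode w ≤ Encodable.encode w0}.Finite :=
    (Set.finite_le_nat _).preimage Encodable.encode_injective.injOn
  have ev3 := ((eventually_all_finite fin).2 fun w _ => ev2 w).and
    (eventually_gt_atTop (Encodable.encode w0))
  obtain ⟨t0, ht0⟩ := eventually_atTop.1 ev3
  refine ⟨t0, fun t ht => ?_⟩
  obtain ⟨k1, k2⟩ := ht0 t ht
  have ok0 : Ok (a, t) w0 := (k1 w0 (le_refl (Encodable.encode w0))).2 hw0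
  rcases hG (a, t) with ⟨w, hw, hm, e⟩ | ⟨hn, -⟩
  · rcases lt_trichotomy (Encodable.encode w) (Encodable.encode w0) with l | l | l
    · exact absurd ((k1 w l.le).1 hw) (hm0 w l)
    · rw [← e, Encodable.encode_injective l]
    · exact absurd ok0 (hm w0 l)
  · exact absurd ok0 (hn w0 k2)

theorem solL_leT {y A : CS} (h : DE y (fun n => A n = true)) : LeT A y := by
  have : SE y (fun w : ℕ × Bool => (A w.1 = true ∧ w.2 = true) ∨ (¬ A w.1 = true ∧ w.2 = false)) :=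
    ((h.1.comp Computable.fst).and (SE.of_re (RE.eq (by fun_prop) (by fun_prop)))).or
      ((h.2.comp Computable.fst).and (SE.of_re (RE.eq (by fun_prop) (by fun_prop))))
  refine this.of_iff fun w => ?_
  cases A w.1 <;> cases w.2 <;> simp

theorem se_of_isJump {X X1 X2 : CS} (h1 : IsJump X X1) (h2 : IsJump X1 X2) {P : α → Prop}
    (h : SE X2 P) : SE (jp (jp X)) P := by
  obtain ⟨P1, s1, e1⟩ := h1.1
  obtain ⟨P2, s2, e2⟩ := h2.1
  have l1 : LeT X1 (jp X) := solL_leT ((s1.de X).of_iff fun n => (e1 n).symm)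
  exact h.trans (solL_leT ((((s2.se X1).trans l1).de).of_iff fun n => (e2 n).symm))

end Pool.Agent.MinDeg.Sol
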