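import Pool.Agent.P.MP_f8f34d_lc.a.SolD

/-! The top worker: a saturated pre-structure with all types indexed in the double jump. -/

namespace Pool.Agent.MinDeg.Sol

open Pool.Agent.Lib.ComputableProp

/-- request: level, literals, bound, pins -/
abbrev Rq : Type := ℕ × Pm × ℕ × List ℕ × ℕ × ℕ

def rho (p : ℕ) (π : List ℕ) (e j i : ℕ) : ℕ :=
  cond (leb (i + 1) π.length) (π.getD i 0) (cond (eqb i e) j (p + i))

def rq (l : ℕ) : Rq := (Encodable.decode (α := Rq) l.unpair.1).getD (0, (0, 0, []), 0, [], 0, 0)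

theorem c_rq : Computable rq := Computable.option_getD (by fun_prop) (Computable.const _)

theorem rq_pair (q : Rq) (n : ℕ) : rq (Nat.pair (Encodable.encode q) n) = q := by
  rw [rq, Nat.unpair_pair, Encodable.encodek]; rfl

/-- the class of admissible next types -/
def TC (A Y : CS) (l u p g : ℕ) (b : Bool) (q : Rq) : Prop :=
  (∀ c r, bd p r → Y (ix (2 * c) r) = colm A u (ix c r)) ∧
  (b = true → ∀ x, lits A q.2.1 x → Y (ix (2 ^ (l + 1 - q.1) * x.2.1)
    (rl (rho p q.2.2.2.1 q.2.2.2.2.1 q.2.2.2.2.2) x).2.2) = x.1) ∧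
  ∀ L : List Lt, (∀ x ∈ L, bd (p + q.2.2.1 + 1) x.2.2 ∧ Y (ix x.2.1 x.2.2) = x.1) →
    colm A g (Encodable.encode L) = true

abbrev TD : Type := (ℕ × ℕ × ℕ × ℕ) × Bool × Rq

theorem pii_TC : Pii (fun z (a : TD) =>
    TC (lf z) (rt z) a.1.1 a.1.2.1 a.1.2.2.1 a.1.2.2.2 a.2.1 a.2.2) := by
  unfold TC
  refine Pii.and ?_ (Pii.and ?_ ?_)
  · refine Pii.all (Pii.all (Pii.imp (Sig.of_re (re_bd (by fun_prop) (by fun_prop))) ?_))
    exact Pii.beq CM.id.rt (cm_colm CM.id.lf (by fun_prop)) (by fun_prop) (by fun_prop)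
  · refine Pii.imp (Sig.of_re (RE.eq (by fun_prop) (by fun_prop))) (Pii.all (Pii.imp
      (sig_lits CM.id.lf (by fun_prop) (by fun_prop)) ?_))
    refine Pii.bit CM.id.rt (c_ix (by fun_prop) (c_snd (c_snd (c_rl ?_ (by fun_prop))))) (by fun_prop)
    unfold rho; fun_prop
  · refine Pii.all (Pii.imp (Sig.forall_mem (by fun_prop) (Sig.and
      (Sig.of_re (re_bd (by fun_prop) (by fun_prop))) ?_)) ?_)
    · exact CM.id.rt.bit (by fun_prop) (by fun_prop)
    · exact Pii.bit (cm_colm CM.id.lf (by fun_prop)) (by fun_prop) (by fun_prop)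

theorem ultra_of_fip {Ω ι : Type} (S : ι → Set Ω) (h : ∀ L : List ι, ∃ v, ∀ i ∈ L, v ∈ S i) :
    ∃ U : Ultrafilter Ω, ∀ i, S i ∈ U := by
  let F : List ι → Filter Ω := fun L => Filter.principal {v | ∀ i ∈ L, v ∈ S i}
  have hd : Directed (· ≥ ·) F := fun a b => ⟨a ++ b,
    Filter.principal_mono.2 fun v hv i hi => hv i (List.mem_append_left _ hi),
    Filter.principal_mono.2 fun v hv i hi => hv i (List.mem_append_right _ hi)⟩
  have hb : (iInf F).NeBot := Filter.iInf_neBot_of_directed' hd fun L =>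
    Filter.principal_neBot_iff.2 (h L)
  refine ⟨Ultrafilter.of (iInf F), fun i => Filter.mem_of_superset (Ultrafilter.of_le _
    (Filter.mem_iInf_of_mem (f := F) [i] (Filter.mem_principal_self _))) fun v hv => ?_⟩
  exact hv i List.mem_cons_self

theorem ultra_iff {Ω : Type} (U : Ultrafilter Ω) (A : Ω → Prop) (s : Bool) :
    ({v | A v} ∈ U ↔ s = true) ↔ {v | A v ↔ s = true} ∈ U := by
  cases s
  · have : {v | A v ↔ false = true} = {v | A v}ᶜ := by ext v; simp
    rw [this, Ultrafilter.compl_mem_iff_notMem]; simp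
  · simp

/-- copies of columns with lifted codes -/
theorem exists_copy {X : CS} (hP : PathP X) : ∃ k : ℕ × ℕ → ℕ, Computable k ∧
    ∀ m j c r, colm X (k (m, j)) (ix c r) = colm X m (ix (2 ^ j * c) r) := by
  obtain ⟨k, hk, H⟩ := path_use hP (C := fun A Y (a : ℕ × ℕ) => ∀ c r,
      Y (ix c r) = colm A a.1 (ix (2 ^ a.2 * c) r))
    (Pii.all (Pii.all (Pii.beq CM.id.rt (cm_colm CM.id.lf (by fun_prop)) (by fun_prop)
      (by fun_prop)))) (b := fun a => a.1 + 1) (by fun_prop)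
    (fun Y a => by rw [colm_cutc (Nat.lt_succ_self _)])
  refine ⟨k, hk, fun m j => H (m, j) ⟨fun n => colm X m (ix (2 ^ j * n.unpair.1)
    (Denumerable.ofNat (List ℕ) n.unpair.2)), fun c r => ?_⟩⟩
  simp only [ix, Nat.unpair_pair, Denumerable.ofNat_encode]

section Top
variable {N : Type} (PN : Pre N) {X : CS}

theorem TC_of_ultra {l u p g : ℕ} {b : Bool} {q : Rq} (hg : colm X g = TK PN (l + 1))
    (U : Ultrafilter (ℕ → N)) (h1 : ∀ x, lits X (u, p, []) x → {v | H1 PN l x v} ∈ U)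
    (h2 : b = true → ∀ x, lits X q.2.1 x → {v | H1 PN (l + 1) (up (l + 1 - q.1)
      (rl (rho p q.2.2.2.1 q.2.2.2.2.1 q.2.2.2.2.2) x)) v} ∈ U) :
    TC X (tpU PN U (l + 1)) l u p g b q := by
  refine ⟨fun c r hr => ?_, fun hb x hx => (tpU_eq PN U (l + 1) (up (l + 1 - q.1)
      (rl (rho p q.2.2.2.1 q.2.2.2.2.1 q.2.2.2.2.2) x))).2 (h2 hb x hx), fun L hL => ?_⟩
  · refine (tpU_eq PN U (l + 1) (colm X u (ix c r), 2 * c, r)).2 (Filter.mem_of_superset
      (h1 (colm X u (ix c r), c, r) (Or.inr ⟨hr, rfl⟩)) fun v hv => ?_)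
    exact (iff_congr (sat_two_mul PN l c _) Iff.rfl).2 hv
  · rw [hg, TK_iff]
    exact Ultrafilter.nonempty_of_mem (hold_mem PN fun x hx => (tpU_eq PN U _ x).1 (hL x hx).2)

theorem top_dec {y : CS} {Q : TD → Prop} (hD : DE y Q) {k : TD → ℕ} (hk : Computable k)
    (ι : ℕ → ℕ) (hι : CF y ι) : ∃ st : ℕ → ℕ × ℕ, CF y st ∧ st 0 = (0, 0) ∧ ∀ l, ∃ b : Bool,
      (b = true ↔ Q ((l, (st l).1, (st l).2, ι (l + 1)), true, rq l)) ∧ st (l + 1) =
        (k ((l, (st l).1, (st l).2, ι (l + 1)), b, rq l), (st l).2 + (rq l).2.2.1 + 1) := by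
  have hr := c_rq
  have hf : Computable fun w : ((ℕ × ℕ × ℕ) × ℕ × ℕ) × ℕ =>
      (((w.1.1.1, w.1.1.2.1, w.1.1.2.2, w.2), true, rq w.1.1.1) : TD) := by fun_prop
  have hg : ∀ b : Bool, Computable fun w : ((ℕ × ℕ × ℕ) × ℕ × ℕ) × ℕ =>
      (k ((w.1.1.1, w.1.1.2.1, w.1.1.2.2, w.2), b, rq w.1.1.1),
        w.1.1.2.2 + (rq w.1.1.1).2.2.1 + 1) := fun b =>
    c_pair (hk.comp (by fun_prop)) (by fun_prop)
  obtain ⟨st, h1, h2, h3⟩ := SE.run (y := y) (R := fun l (s s' : ℕ × ℕ) => ∃ g, ι (l + 1) = g ∧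
      ((Q ((l, s.1, s.2, g), true, rq l) ∧
        s' = (k ((l, s.1, s.2, g), true, rq l), s.2 + (rq l).2.2.1 + 1)) ∨
      (¬ Q ((l, s.1, s.2, g), true, rq l) ∧
        s' = (k ((l, s.1, s.2, g), false, rq l), s.2 + (rq l).2.2.1 + 1))))
    (SE.ex (SE.and
      (SE.comp (f := fun w : ((ℕ × ℕ × ℕ) × ℕ × ℕ) × ℕ => (w.1.1.1 + 1, w.2)) hι (by fun_prop))
      (SE.or (SE.and (hD.1.comp hf) (SE.of_re (RE.eq (by fun_prop) (hg true))))
        (SE.and (hD.2.comp hf) (SE.of_re (RE.eq (by fun_prop) (hg false)))))))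
    (fun l s => by
      by_cases h : Q ((l, s.1, s.2, ι (l + 1)), true, rq l)
      · exact ⟨_, _, rfl, Or.inl ⟨h, rfl⟩⟩
      · exact ⟨_, _, rfl, Or.inr ⟨h, rfl⟩⟩) (0, 0)
  refine ⟨st, h1, h2, fun l => ?_⟩
  obtain ⟨g, rfl, ⟨h, e⟩ | ⟨h, e⟩⟩ := h3 l
  · exact ⟨true, by simpa using h, e⟩
  · exact ⟨false, by simpa using h, e⟩

/-- the run of the top worker -/
theorem top_run (hP : PathP X) {y : CS} (hy : LeT (jp X) y) (ι : ℕ → ℕ) (hι : CF y ι) :
    ∃ st : ℕ → ℕ × ℕ, CF y st ∧ st 0 = (0, 0) ∧ ∀ l,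
      (st (l + 1)).2 = (st l).2 + (rq l).2.2.1 + 1 ∧ ∀ b,
      (∃ Y, TC X Y l (st l).1 (st l).2 (ι (l + 1)) b (rq l)) →
        TC X (colm X (st (l + 1)).1) l (st l).1 (st l).2 (ι (l + 1)) b (rq l) := by
  obtain ⟨k, hk, H⟩ := path_use hP (C := fun A Y (a : TD) =>
      TC A Y a.1.1 a.1.2.1 a.1.2.2.1 a.1.2.2.2 a.2.1 a.2.2) pii_TC
    (b := fun a => a.1.2.1 + a.1.2.2.2 + a.2.2.2.1.1 + 1) (by fun_prop) (fun Y a => by
      unfold TC
      rw [colm_cutc (by omega), colm_cutc (by omega), lits_cutc (by omega)])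
  have hD : DE y (fun a : TD => ∃ Y, TC X Y a.1.1 a.1.2.1 a.1.2.2.1 a.1.2.2.2 a.2.1 a.2.2) := by
    have := (Pii.exC (P := fun A Y (a : TD) =>
      TC A Y a.1.1 a.1.2.1 a.1.2.2.1 a.1.2.2.2 a.2.1 a.2.2) pii_TC).de X
    exact ⟨this.1.trans hy, this.2.trans hy⟩
  obtain ⟨st, h1, h2, h3⟩ := top_dec hD hk ι hι
  refine ⟨st, h1, h2, fun l => ?_⟩
  obtain ⟨b, hb, e⟩ := h3 l
  have H' := H ((l, (st l).1, (st l).2, ι (l + 1)), b, rq l)
  have e1 := congrArg Prod.fst e
  have e2 := congrArg Prod.snd e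
  dsimp only at hb H' e1 e2
  rw [← e1] at H'
  refine ⟨e2, fun b' hb' => ?_⟩
  cases b
  · cases b'
    · exact H' hb'
    · exact absurd (hb.2 hb') (by simp)
  · have := H' (hb.1 rfl)
    exact ⟨this.1, fun _ => this.2.1 rfl, this.2.2⟩

theorem exists_vb (L : List Lt) : ∃ d, ∀ l ∈ L, bd d l.2.2 := by
  induction L with
  | nil => exact ⟨0, by simp⟩
  | cons a L ih =>
    obtain ⟨d, hd⟩ := ih
    obtain ⟨e, he⟩ := exists_bd a.2.2
    exact ⟨max d e, List.forall_mem_cons.2 ⟨he.mono (le_max_right _ _),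
      fun l hl => (hd l hl).mono (le_max_left _ _)⟩⟩

theorem rho_lt {p : ℕ} {π : List ℕ} {e j i : ℕ} (h : i < π.length) : rho p π e j i = π.getD i 0 := by
  simp [rho, leb, h]

theorem rho_e {p : ℕ} {π : List ℕ} {e j : ℕ} (h : π.length ≤ e) : rho p π e j e = j := by
  have : ¬ e < π.length := by omega
  simp [rho, leb, eqb, this]

theorem rho_ge {p : ℕ} {π : List ℕ} {e j i : ℕ} (h : ¬ i < π.length) (k : i ≠ e) :
    rho p π e j i = p + i := by
  simp [rho, leb, eqb, h, k]

/-- the limit of the run -/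
theorem top_ultra [Nonempty N] (hP : PathP X) {y : CS} (hy : LeT (jp X) y) (ι : ℕ → ℕ)
    (hι : CF y ι) (h : ∀ K, colm X (ι K) = TK PN K) :
    ∃ (U : Ultrafilter (ℕ → N)) (u : ℕ → ℕ), CF y u ∧
      (∀ l c r, bd l r → colm X (u l) (ix c r) = tpU PN U l (ix c r)) ∧
      ∀ (K : ℕ) (pm : Pm) (d : ℕ) (π : List ℕ) (e j : ℕ), Vb pm d → π.length ≤ e →
        (∀ L : List Lt, (∀ l ∈ L, lits X pm l) → {v | ∃ w, Pin π e j v w ∧ Hold PN K L w} ∈ U) →
        ∃ ρ : ℕ → ℕ, Pin π e j id ρ ∧ ∀ x, lits X pm x → {v | H1 PN K x (v ∘ ρ)} ∈ U := by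
  obtain ⟨st, c1, c2, c3⟩ := top_run hP hy ι hι
  have hp : ∀ l, l ≤ (st l).2 := by
    intro l
    induction l with
    | zero => omega
    | succ l ih => rw [(c3 l).1]; omega
  have step : ∀ l, (∀ L : List Lt, (∀ x ∈ L, lits X ((st l).1, (st l).2, []) x) → th PN l L) →
      TC X (colm X (st (l + 1)).1) l (st l).1 (st l).2 (ι (l + 1)) false (rq l) := by
    intro l hl
    obtain ⟨U, -, hU⟩ := exists_ultra PN l Set.univ _ fun L hL =>
      (hl L hL).imp fun v hv => ⟨trivial, hv⟩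
    exact (c3 l).2 false ⟨_, TC_of_ultra PN (h _) U hU (by simp)⟩
  have fs : ∀ l, ∀ L : List Lt, (∀ x ∈ L, lits X ((st l).1, (st l).2, []) x) → th PN l L := by
    intro l
    induction l with
    | zero =>
      intro L hL
      refine ⟨fun _ => Classical.arbitrary N, fun x hx => ?_⟩
      have := hL x hx
      rw [c2] at this
      rcases this with k | k
      · simp at k
      · exact absurd k.1.1 (lt_irrefl _)
    | succ l ih =>
      intro L hL
      rw [← TK_iff, ← h]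
      refine (step l ih).2.2 L fun x hx => ?_
      rcases hL x hx with k | k
      · simp at k
      · rw [← (c3 l).1]; exact k
  have coh : ∀ l x n, lits X ((st l).1, (st l).2, []) x →
      lits X ((st (l + n)).1, (st (l + n)).2, []) (up n x) := by
    intro l x n hx
    induction n with
    | zero => simpa [up] using hx
    | succ n ih =>
      rcases ih with k | k
      · simp at k
      refine Or.inr ⟨k.1.mono (by rw [← add_assoc, (c3 _).1]; dsimp only; omega), ?_⟩
      have := (step _ (fs (l + n))).1 (up n x).2.1 _ k.1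
      simp only [up, pow_succ', mul_assoc] at this k ⊢
      exact this.trans k.2
  obtain ⟨U, hU⟩ := ultra_of_fip (ι := {a : ℕ × Lt // lits X ((st a.1).1, (st a.1).2, []) a.2})
    (fun a => {v | H1 PN a.1.1 a.1.2 v}) fun L => by
      have hb : ∃ m, ∀ a ∈ L, a.1.1 ≤ m := ⟨(L.map fun a => a.1.1).sum, fun a ha =>
        List.single_le_sum (by simp) _ (List.mem_map_of_mem ha)⟩
      obtain ⟨m, hm⟩ := hb
      obtain ⟨v, hv⟩ := fs m (L.map fun a => up (m - a.1.1) a.1.2) (by
        intro x hx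
        obtain ⟨a, ha, rfl⟩ := List.mem_map.1 hx
        have := coh _ _ (m - a.1.1) a.2
        rwa [Nat.add_sub_cancel' (hm a ha)] at this)
      refine ⟨v, fun a ha => ?_⟩
      have : H1 PN m (up (m - a.1.1) a.1.2) v := hv _ (List.mem_map_of_mem ha)
      show H1 PN a.1.1 a.1.2 v
      rw [← H1_up PN _ (m - a.1.1), Nat.add_sub_cancel' (hm a ha)]
      exact this
  have hU' : ∀ l x, lits X ((st l).1, (st l).2, []) x → {v | H1 PN l x v} ∈ U :=
    fun l x hx => hU ⟨(l, x), hx⟩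
  refine ⟨U, fun l => (st l).1, (CF.of_computable Computable.fst).comp c1, fun l c r hr => ?_, ?_⟩
  · exact ((tpU_eq PN U l (colm X (st l).1 (ix c r), c, r)).2
      (hU' l _ (Or.inr ⟨hr.mono (hp l), rfl⟩))).symm
  intro K pm d π e j hV he hF
  obtain ⟨B, hB⟩ := exists_bd (j :: π)
  obtain ⟨l, hl, hK, hBl⟩ : ∃ l, rq l = (K, pm, d, π, e, j) ∧ K ≤ l ∧ B ≤ l :=
    ⟨Nat.pair (Encodable.encode ((K, pm, d, π, e, j) : Rq)) (K + B), rq_pair _ _,
      le_trans (by omega) (Nat.right_le_pair _ _), le_trans (by omega) (Nat.right_le_pair _ _)⟩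
  have hpl := hp l
  have hj : j < (st l).2 := by have := hB.2 j List.mem_cons_self; omega
  have hπ : ∀ i, π.getD i 0 < (st l).2 := fun i => by
    have := hB.getD (i + 1)
    rw [List.getD_cons_succ] at this
    omega
  have e1 : ∀ x v, H1 PN (l + 1) (up (l + 1 - K) (rl (rho (st l).2 π e j) x)) v ↔
      H1 PN K x (v ∘ rho (st l).2 π e j) := fun x v => by
    rw [← H1_rl, ← H1_up PN K (l + 1 - K), Nat.add_sub_cancel' (by omega)]
  obtain ⟨U', hU1⟩ := ultra_of_fip (ι := {x // lits X ((st l).1, (st l).2, []) x} ⊕ {x // lits X pm x})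
    (Sum.elim (fun x => {v | H1 PN l x.1 v}) fun x => {v | H1 PN K x.1 (v ∘ rho (st l).2 π e j)})
    fun L => by
      have a1 := hold_mem PN (L := (L.filterMap Sum.getLeft?).map Subtype.val) fun x hx => by
        obtain ⟨a, -, rfl⟩ := List.mem_map.1 hx
        exact hU' l _ a.2
      have a2 := hF ((L.filterMap Sum.getRight?).map Subtype.val) fun x hx => by
        obtain ⟨a, -, rfl⟩ := List.mem_map.1 hx
        exact a.2
      obtain ⟨v, hv, w, ⟨p1, p2⟩, hw⟩ := Ultrafilter.nonempty_of_mem (Filter.inter_mem a1 a2)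
      refine ⟨fun i => if i < (st l).2 then v i else w (i - (st l).2), ?_⟩
      rintro (x | x) hx
      · refine (H1_congr PN (x.2.bd ⟨le_rfl, by simp⟩) fun i hi => if_pos hi).2 (hv _ ?_)
        exact List.mem_map_of_mem (List.mem_filterMap.2 ⟨_, hx, rfl⟩)
      · have : (fun i => if i < (st l).2 then v i else w (i - (st l).2)) ∘ rho (st l).2 π e j = w := by
          funext i
          by_cases h1 : i < π.length
          · simp only [Function.comp, rho_lt h1, if_pos (hπ i), p1 i h1]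
          · by_cases h2 : i = e
            · subst h2
              simp only [Function.comp, rho_e he, if_pos hj, p2]
            · simp only [Function.comp, rho_ge h1 h2]
              rw [if_neg (by omega), Nat.add_sub_cancel_left]
        show H1 PN K x.1 (_ ∘ _)
        rw [this]
        exact hw _ (List.mem_map_of_mem (List.mem_filterMap.2 ⟨_, hx, rfl⟩))
  have hT := (c3 l).2 true ⟨_, TC_of_ultra PN (h _) U' (fun x hx => hU1 (Sum.inl ⟨x, hx⟩))
    fun _ x hx => by
      rw [hl] at hx ⊢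
      exact Filter.mem_of_superset (hU1 (Sum.inr ⟨x, hx⟩)) fun v hv => (e1 x v).2 hv⟩
  have hp' := (c3 l).1
  rw [hl] at hT hp'
  refine ⟨rho (st l).2 π e j, ⟨fun i hi => rho_lt hi, rho_e he⟩, fun x hx => ?_⟩
  refine Filter.mem_of_superset (hU' (l + 1) (up (l + 1 - K) (rl (rho (st l).2 π e j) x))
    (Or.inr ⟨?_, hT.2.1 rfl x hx⟩)) fun v hv => (e1 x v).1 hv
  refine bd_rl (hx.bd hV) fun i hi => ?_
  rw [hp']
  dsimp only
  by_cases h1 : i < π.length
  · rw [rho_lt h1]; have := hπ i; omega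
  · by_cases h2 : i = e
    · rw [h2, rho_e he]; omega
    · rw [rho_ge h1 h2]; omega

theorem top [Nonempty N] (hP : PathP X) {y : CS} (hy : LeT (jp X) y) (ι : ℕ → ℕ)
    (hι : CF y ι) (h : ∀ K, colm X (ι K) = TK PN K) :
    ∃ P : Pre ℕ, (∀ K, TK P K = TK PN K) ∧ (∀ K, Idx X y P K) ∧ ∀ K, Satu X P K := by
  obtain ⟨U, u, hu, h1, h2⟩ := top_ultra PN hP hy ι hι h
  let P : Pre ℕ := fun c a b d => {v : ℕ → N | PN c (v a) (v b) (v d)} ∈ U
  have truth : ∀ K c (w : ℕ → ℕ), sat P K c w ↔ {v | sat PN K c (v ∘ w)} ∈ U := by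
    intro K
    induction K with
    | zero => intro c w; rfl
    | succ K ih =>
      intro c w
      have ih1 : ∀ x (w : ℕ → ℕ), H1 P K x w ↔ {v | H1 PN K x (v ∘ w)} ∈ U := fun x w => by
        rw [H1, ih]; exact ultra_iff U _ _
      rcases Nat.mod_two_eq_zero_or_one c with hc | hc
      · simp only [sat_even _ hc, ih]
      · simp only [sat_odd _ hc]
        generalize (blk (c / 2)).1 = n
        generalize (blk (c / 2)).2 = L
        constructor
        · rintro ⟨w', a1, a2⟩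
          have : {v | Hold PN K L (v ∘ w')} ∈ U := by
            have := hold_mem PN (U := U) (K := K) (L := L.map (rl w')) fun x hx => by
              obtain ⟨z, hz, rfl⟩ := List.mem_map.1 hx
              simp only [H1_rl]
              exact (ih1 z w').1 (a2 z hz)
            simpa only [hold_rl] using this
          exact Filter.mem_of_superset this fun v hv =>
            ⟨v ∘ w', fun i hi => by simp only [Function.comp, a1 i hi], hv⟩
        · intro hs
          obtain ⟨d, hd⟩ := exists_vb L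
          have hl : ∀ x, lits X (0, 0, L) x ↔ x ∈ L := fun x =>
            ⟨fun k => k.elim id fun k => absurd k.1.1 (lt_irrefl _), Or.inl⟩
          obtain ⟨ρ, ⟨r1, -⟩, r2⟩ := h2 K (0, 0, L) d ((List.range n).map w) (n + d) 0
            ⟨Nat.zero_le _, hd⟩ (by simp) fun L' hL' => Filter.mem_of_superset hs (by
              rintro v ⟨w', a1, a2⟩
              refine ⟨Function.update w' (n + d) (v 0), ⟨fun i hi => ?_, by simp⟩, fun x hx => ?_⟩
              · have hi' : i < n := by simpa using hi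
                rw [Function.update_of_ne (by omega), getD_range_map _ _ hi', a1 i hi']
                rfl
              · have hx' := (hl x).1 (hL' x hx)
                exact (H1_congr PN (hd x hx') fun i hi =>
                  Function.update_of_ne (by omega) _ _).2 (a2 x hx'))
          refine ⟨ρ, fun i hi => ?_, fun x hx => (ih1 x ρ).2 (r2 x ((hl x).2 hx))⟩
          rw [r1 i (by simpa using hi), getD_range_map _ _ hi]
          rfl
  have truth1 : ∀ K x (w : ℕ → ℕ), H1 P K x w ↔ {v | H1 PN K x (v ∘ w)} ∈ U := fun K x w => by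
    rw [H1, truth]; exact ultra_iff U _ _
  obtain ⟨k, hk, hc⟩ := exists_copy hP
  refine ⟨P, fun K => ?_, fun K => ⟨fun d => k (u (K + d), d), ?_, fun d c r hr => ?_⟩, ?_⟩
  · funext n
    have : th P K (decL n) ↔ th PN K (decL n) := by
      have e := truth (K + 1) (exC 0 (decL n)) id
      simp only [sat_exC, Nat.not_lt_zero, IsEmpty.forall_iff, implies_true, true_and] at e
      refine e.trans ⟨fun k => ?_, fun k => Filter.mem_of_superset Filter.univ_mem fun v _ => k⟩
      obtain ⟨v, hv⟩ := Ultrafilter.nonempty_of_mem k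
      exact hv
    unfold TK
    rw [propext this]
  · exact (CF.of_computable hk).comp ((hu.compC (by fun_prop)).pair (CF.of_computable Computable.id))
  · rw [hc, h1 _ _ _ (hr.mono (by omega)), tpU_iff, truth]
    simp only [sat_pow]
    rfl
  · intro K pm d π e j hV he hF
    obtain ⟨ρ, r1, r2⟩ := h2 K pm d π e j hV he fun L hL => by
      obtain ⟨w, ⟨p1, p2⟩, hw⟩ := hF L hL
      have := hold_mem PN (U := U) (K := K) (L := L.map (rl w)) fun x hx => by
        obtain ⟨z, hz, rfl⟩ := List.mem_map.1 hx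
        simp only [H1_rl]
        exact (truth1 K z w).1 (hw z hz)
      refine Filter.mem_of_superset this fun v hv => ⟨v ∘ w, ⟨fun i hi => ?_, ?_⟩,
        (hold_rl PN K w L v).1 hv⟩
      · simp only [Function.comp, p1 i hi, id]
      · simp only [Function.comp, p2, id]
    exact ⟨ρ, r1, fun x hx => (truth1 K x ρ).2 (r2 x hx)⟩

end Top

end Pool.Agent.MinDeg.Sol
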