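import Pool.Agent.P.MP_f8f34d_lc.a.SolL

/-! The lowering lemma: requests, answers and the stack argument. -/

namespace Pool.Agent.MinDeg.Sol

open Pool.Agent.Lib.ComputableProp Filter

/-- stack entry: positions, their column, pinned variable, its value, requested column -/
abbrev En : Type := List ℕ × ℕ × ℕ × ℕ × ℕ

def gd (a : En) : ℕ × ℕ := (a.2.2.2.2, a.2.2.1 + 1)

def Cor (X : CS) (P : Pre ℕ) (k : ℕ) (g : List ℕ × ℕ) (j : ℕ) : Prop :=
  ∀ c, colm X g.2 (ix c (g.1 ++ [j])) = true ↔ sat P (k + 2) c (asg (g.1 ++ [j]))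

def Ans (X : CS) (P : Pre ℕ) (k : ℕ) (a : En) (g : List ℕ × ℕ) : Prop :=
  g.1.length = a.2.2.1 + 1 ∧ Pin a.1 a.2.2.1 a.2.2.2.1 id (asg g.1) ∧
    Rz X P (k + 1) (gd a) (asg g.1) ∧ Cor X P k g (a.2.2.2.1 + 1)

def Rea (X : CS) (P : Pre ℕ) (k : ℕ) (a : En) : Prop :=
  a.1.length ≤ a.2.2.1 ∧ ∃ w, Pin a.1 a.2.2.1 a.2.2.2.1 id w ∧ Rz X P (k + 1) (gd a) w

theorem Rz.congr {M : Type} {X : CS} {P : Pre M} {K : ℕ} {g : ℕ × ℕ} {v w : ℕ → M}
    (h : Rz X P K g v) (e : ∀ i < g.2, w i = v i) : Rz X P K g w := fun c r hr => by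
  rw [ren_congr hr e]; exact h c r hr

variable {X x : CS} {P : Pre ℕ} {k : ℕ}

theorem low_ans (hx : LeT X x) (hI : Idx X (jp x) P (k + 2)) :
    ∃ G : En × ℕ → List ℕ × ℕ, CF x G ∧
      ∀ a, Rea X P k a → ∃ g, Ans X P k a g ∧ ∀ᶠ t in atTop, G (a, t) = g := by
  obtain ⟨τ, hτ, H⟩ := hI
  have h1 : Pii (fun z (w : En × List ℕ × ℕ) => ∀ c r, bd (w.1.2.2.1 + 1) r →
      colm z w.1.2.2.2.2 (ix c r) =
        colm z w.2.2 (ix (2 * c) (rl (fun i => w.2.1.getD i 0) (true, c, r)).2.2)) := by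
    refine Pii.all (Pii.all (Pii.imp (Sig.of_re (re_bd (by fun_prop) (by fun_prop))) ?_))
    exact Pii.beq (cm_colm CM.id (by fun_prop)) (cm_colm CM.id (by fun_prop)) (by fun_prop)
      (c_ix (by fun_prop) (c_snd (c_snd (c_rl (by fun_prop) (by fun_prop)))))
  have h2 := (((Sig.se h1 X).trans hx).up_not).of_iff fun _ => not_not
  have h3 : SE (jp x) (fun w : En × List ℕ × ℕ => ∃ B, bd B ((w.1.2.2.2.1 + 1) :: w.2.1) ∧
      τ B = w.2.2) := SE.ex (SE.and (SE.of_re (re_bd (by fun_prop) (by fun_prop)))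
    (SE.comp (f := fun u : (En × List ℕ × ℕ) × ℕ => (u.2, u.1.2.2)) hτ (by fun_prop)))
  have h4 : RE (fun w : En × List ℕ × ℕ => w.2.1.length = w.1.2.2.1 + 1 ∧
      (∀ i < w.1.1.length, w.2.1.getD i 0 = w.1.1.getD i 0) ∧
        w.2.1.getD w.1.2.2.1 0 = w.1.2.2.2.1) :=
    RE.and (RE.eq (by fun_prop) (by fun_prop)) (RE.and (RE.forall_lt (by fun_prop)
      (RE.eq (by fun_prop) (by fun_prop))) (RE.eq (by fun_prop) (by fun_prop)))
  have key : ∀ (π : List ℕ) (j B c : ℕ) (r : List ℕ), bd B (j :: π) →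
      (colm X (τ B) (ix (2 * c) (rl (fun i => π.getD i 0) (true, c, r)).2.2) = true ↔
        sat P (k + 1) c (ren (asg π) r)) := by
    intro π j B c r hB
    obtain ⟨d, hd⟩ := exists_bd r
    rw [H B _ _ (bd_rl (l := (true, c, r)) hd fun i _ => by
      have := hB.getD (i + 1)
      rwa [List.getD_cons_succ] at this), sat_two_mul]
    have := H1_rl P (k + 1) (fun i => π.getD i 0) (true, c, r) id
    simp only [H1, rl, iff_true] at this
    exact this
  obtain ⟨G, hG, HG⟩ := limit (R := fun (a : En) (g : List ℕ × ℕ) =>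
    (g.1.length = a.2.2.1 + 1 ∧ (∀ i < a.1.length, g.1.getD i 0 = a.1.getD i 0) ∧
      g.1.getD a.2.2.1 0 = a.2.2.2.1) ∧ (∃ B, bd B ((a.2.2.2.1 + 1) :: g.1) ∧ τ B = g.2) ∧
      ∀ c r, bd (a.2.2.1 + 1) r → colm X a.2.2.2.2 (ix c r) =
        colm X g.2 (ix (2 * c) (rl (fun i => g.1.getD i 0) (true, c, r)).2.2))
    ((SE.of_re h4).and (h3.and h2)) ([], 0)
  refine ⟨G, hG, fun a ⟨ha, w, ⟨p1, p2⟩, hw⟩ => ?_⟩
  obtain ⟨B, hB⟩ := exists_bd ((a.2.2.2.1 + 1) :: (List.range (a.2.2.1 + 1)).map w)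
  have e : ∀ i < a.2.2.1 + 1, ((List.range (a.2.2.1 + 1)).map w).getD i 0 = w i :=
    fun i hi => getD_range_map _ _ hi
  obtain ⟨g, ⟨⟨g1, g2, g3⟩, ⟨B', g4, g5⟩, g6⟩, t0, ht⟩ := HG a
    ⟨((List.range (a.2.2.1 + 1)).map w, τ B), ⟨by simp, fun i hi => (e i (by omega)).trans (p1 i hi),
      (e _ (by omega)).trans p2⟩, ⟨B, hB, rfl⟩, fun c r hr => by
        rw [Bool.eq_iff_iff, key _ _ _ _ _ hB]
        exact ((hw.congr e) c r hr).symm⟩
  refine ⟨g, ⟨g1, ⟨g2, g3⟩, fun c r hr => ?_, fun c => ?_⟩, eventually_atTop.2 ⟨t0, ht⟩⟩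
  · rw [← key _ _ _ _ _ g4, g5, ← g6 c r hr]; rfl
  · rw [← g5]
    refine H B' c _ ⟨g4.1, fun i hi => g4.2 i ?_⟩
    simpa [or_comm] using hi

theorem low_mk (hP : PathP X) (hS : Satu X P (k + 1)) :
    ∃ kk : (List ℕ × ℕ) × Pm × ℕ × ℕ → ℕ, Computable kk ∧ ∀ g p e j, g.1.length ≤ e → Vb p e →
      Cor X P k g j → (∀ L : List Lt, (∀ l ∈ L, lits X p l) →
        ∃ w, (∀ i < g.1.length, w i = asg g.1 i) ∧ Hold P k L w) →
      Rea X P k (g.1, g.2, e, j, kk (g, p, e, j)) ∧ Cpt X p (kk (g, p, e, j), e + 1) := by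
  have hC : Pii (fun z (a : (List ℕ × ℕ) × Pm × ℕ × ℕ) =>
      (∀ L : List Lt, (∀ l ∈ L, lits (lf z) a.2.1 l) →
        rt z (ix (exC (a.2.2.1 + 1) L) (List.range (a.2.2.1 + 1))) = true) ∧
      ∀ L : List Lt, (∀ l ∈ L, bd (a.2.2.1 + 1) l.2.2 ∧ rt z (ix l.2.1 l.2.2) = l.1) →
        colm (lf z) a.1.2 (ix (pinC a.1.1.length a.2.2.1 L) (a.1.1 ++ [a.2.2.2])) = true) := by
    refine Pii.and (Pii.all (Pii.imp (Sig.forall_mem (by fun_prop)
      (sig_lits CM.id.lf (by fun_prop) (by fun_prop))) ?_)) (Pii.all (Pii.imp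
      (Sig.forall_mem (by fun_prop) (Sig.and (Sig.of_re (re_bd (by fun_prop) (by fun_prop))) ?_)) ?_))
    · exact Pii.bit CM.id.rt (by fun_prop) (by fun_prop)
    · exact CM.id.rt.bit (by fun_prop) (by fun_prop)
    · exact Pii.bit (cm_colm CM.id.lf (by fun_prop)) (by fun_prop) (by fun_prop)
  obtain ⟨kk, hk, H⟩ := path_use hP (C := fun A Y (a : (List ℕ × ℕ) × Pm × ℕ × ℕ) =>
      (∀ L : List Lt, (∀ l ∈ L, lits A a.2.1 l) →
        Y (ix (exC (a.2.2.1 + 1) L) (List.range (a.2.2.1 + 1))) = true) ∧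
      ∀ L : List Lt, (∀ l ∈ L, bd (a.2.2.1 + 1) l.2.2 ∧ Y (ix l.2.1 l.2.2) = l.1) →
        colm A a.1.2 (ix (pinC a.1.1.length a.2.2.1 L) (a.1.1 ++ [a.2.2.2])) = true) hC
    (b := fun a => a.1.2 + a.2.1.1 + 1) (by fun_prop) (fun Y a => by
      rw [colm_cutc (by omega), lits_cutc (by omega)])
  refine ⟨kk, hk, fun g p e j he hV hc hF => ?_⟩
  have H' := H (g, p, e, j)
  dsimp only at H'
  obtain ⟨U, hW, hU⟩ := exists_ultra P k {w | Pin g.1 e j id w} (lits X p) fun L hL => by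
    obtain ⟨w, a1, a2⟩ := hF L hL
    refine ⟨Function.update w e j, ⟨fun i hi => ?_, by simp⟩, fun l hl => ?_⟩
    · rw [Function.update_of_ne (by omega), a1 i hi]; rfl
    · exact (H1_congr P ((hL l hl).bd hV) fun i hi =>
        Function.update_of_ne (by omega) _ _).2 (a2 l hl)
  obtain ⟨b1, b2⟩ := H' ⟨tpU P U (k + 1), fun L hL => by
      rw [tpU_iff]
      refine mem_of_superset (hold_mem P fun l hl => hU l (hL l hl)) fun v hv => ?_
      refine (sat_exC P k _ L _).2 ⟨v, fun i hi => ?_, hv⟩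
      have := getD_range_map (fun i => i) 0 hi
      rw [List.map_id'] at this
      rw [ren, this], fun L hL => by
      obtain ⟨v, h1, h2⟩ := Ultrafilter.nonempty_of_mem (inter_mem hW
        (hold_mem P fun l hl => (tpU_eq P U _ l).1 (hL l hl).2))
      exact (hc _).2 ((sat_pinC P (k + 1) he j L id).2 ⟨v, h1, h2⟩)⟩
  refine ⟨⟨he, ?_⟩, b1⟩
  obtain ⟨w, w1, w2⟩ := hS (kk (g, p, e, j), e + 1, []) (e + 1) g.1 e j ⟨le_rfl, by simp⟩ he
    fun L hL => (sat_pinC P (k + 1) he j L id).1 ((hc _).1 (b2 L fun l hl =>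
      (hL l hl).resolve_left (by simp)))
  exact ⟨w, w1, fun c r hr => w2 (_, c, r) (Or.inr ⟨hr, rfl⟩)⟩

section Stack
variable {ε γ : Type}

/-- entry number `i` of the stack with bottom `e0` -/
def en (e0 : ε) (S : List ε) (i : ℕ) : ε := (e0 :: S).getD i e0

theorem en_take (e0 : ε) (S : List ε) {i n : ℕ} (h : i ≤ n) : en e0 (S.take n) i = en e0 S i := by
  cases i with
  | zero => rfl
  | succ i =>
    simp only [en, List.getD_eq_getElem?_getD, List.getElem?_cons_succ]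
    rw [List.getElem?_take_of_lt (by omega)]

theorem en_append (e0 : ε) (S T : List ε) {i : ℕ} (h : i ≤ S.length) :
    en e0 (S ++ T) i = en e0 S i := by
  cases i with
  | zero => rfl
  | succ i => simp only [en, List.getD_cons_succ]; rw [List.getD_append _ _ _ _ (by omega)]

theorem en_last (e0 : ε) (S : List ε) (a : ε) : en e0 (S ++ [a]) (S.length + 1) = a := by
  simp [en]

/-- the first `n` entries carry limit values -/
def Cr (e0 : ε) (Lim : ε → ε → Prop) (S : List ε) (n : ℕ) : Prop :=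
  n ≤ S.length ∧ ∀ i < n, Lim (en e0 S i) (en e0 S (i + 1))

theorem Cr.mono {e0 : ε} {Lim : ε → ε → Prop} {S : List ε} {m n : ℕ} (h : Cr e0 Lim S n)
    (k : m ≤ n) : Cr e0 Lim S m := ⟨k.trans h.1, fun i hi => h.2 i (by omega)⟩

theorem Cr.congr {e0 : ε} {Lim : ε → ε → Prop} {S T : List ε} {n : ℕ} (h : Cr e0 Lim S n)
    (k : n ≤ T.length) (e : ∀ i ≤ n, en e0 T i = en e0 S i) : Cr e0 Lim T n :=
  ⟨k, fun i hi => by rw [e i (by omega), e (i + 1) hi]; exact h.2 i hi⟩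

theorem stack (e0 : ε) (val : ε → γ) (G : ε × ℕ → γ) (A : ε → γ → Prop) (S : ℕ → List ε)
    (hs : ∀ t, ∃ (n : ℕ) (b : ε), n ≤ (S t).length ∧
      (∀ i < n, G (en e0 (S t) i, t) = val (en e0 (S t) (i + 1))) ∧
      (n = (S t).length ∨ G (en e0 (S t) n, t) ≠ val (en e0 (S t) (n + 1))) ∧
      val b = G (en e0 (S t) n, t) ∧
      ∀ m, Cr e0 (fun a c => A a (val c) ∧ ∀ᶠ s in atTop, G (a, s) = val c) ((S t).take n ++ [b]) m →
        m ≤ (S (t + 1)).length ∧ ∀ i ≤ m, en e0 (S (t + 1)) i = en e0 ((S t).take n ++ [b]) i)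
    (hl : ∀ t n, Cr e0 (fun a c => A a (val c) ∧ ∀ᶠ s in atTop, G (a, s) = val c) (S t) n →
      ∃ g, A (en e0 (S t) n) g ∧ ∀ᶠ s in atTop, G (en e0 (S t) n, s) = g) :
    ∃ a : ℕ → ε, ∀ n, ∀ᶠ t in atTop,
      Cr e0 (fun a c => A a (val c) ∧ ∀ᶠ s in atTop, G (a, s) = val c) (S t) n ∧
        ∀ i ≤ n, en e0 (S t) i = a i := by
  set Lim : ε → ε → Prop := fun a c => A a (val c) ∧ ∀ᶠ s in atTop, G (a, s) = val c with hLim
  have key : ∀ n, ∃ t0, ∀ t, t0 ≤ t → Cr e0 Lim (S t) n ∧ ∀ i ≤ n, en e0 (S t) i = en e0 (S t0) i := by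
    intro n
    induction n with
    | zero =>
      refine ⟨0, fun t _ => ⟨⟨Nat.zero_le _, by simp⟩, fun i hi => ?_⟩⟩
      obtain rfl : i = 0 := by omega
      rfl
    | succ n ih =>
      obtain ⟨t0, h0⟩ := ih
      have c0 := (h0 t0 le_rfl).1
      obtain ⟨g, hg, hg'⟩ := hl t0 n c0
      have h1 : ∀ᶠ s in atTop, ∀ i ∈ Finset.range n,
          G (en e0 (S t0) i, s) = val (en e0 (S t0) (i + 1)) :=
        (eventually_all_finset _).2 fun i hi => (c0.2 i (Finset.mem_range.1 hi)).2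
      obtain ⟨t1, h1⟩ := eventually_atTop.1 ((h1.and hg').and (eventually_ge_atTop t0))
      have step : ∀ t, t1 ≤ t → Cr e0 Lim (S (t + 1)) (n + 1) ∧
          (Cr e0 Lim (S t) (n + 1) → en e0 (S (t + 1)) (n + 1) = en e0 (S t) (n + 1)) := by
        intro t ht
        obtain ⟨⟨k1, k2⟩, k3⟩ := h1 t ht
        obtain ⟨c1, c2⟩ := h0 t k3
        obtain ⟨m, b, s1, s2, s3, s4, s5⟩ := hs t
        have hlen : ((S t).take m).length = m := by simp [s1]
        have e1 : ∀ i ≤ m, en e0 ((S t).take m ++ [b]) i = en e0 (S t) i := fun i hi => by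
          rw [en_append _ _ _ (by omega), en_take _ _ hi]
        have hm : n ≤ m := by
          by_contra hlt
          have := c1.1
          rcases s3 with s3 | s3
          · omega
          · rw [c2 m (by omega), c2 (m + 1) (by omega)] at s3
            exact s3 (k1 m (Finset.mem_range.2 (by omega)))
        have hv : val (en e0 ((S t).take m ++ [b]) (n + 1)) = g := by
          rcases hm.eq_or_lt with rfl | hlt
          · have := en_last e0 ((S t).take n) b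
            rw [hlen] at this
            rw [this, s4, c2 n le_rfl, k2]
          · rw [e1 _ hlt, ← s2 n hlt, c2 n le_rfl, k2]
        have c3 : Cr e0 Lim ((S t).take m ++ [b]) (n + 1) := by
          refine ⟨by simp [s1, hm], fun i hi => ?_⟩
          rcases (by omega : i < n ∨ i = n) with h | rfl
          · rw [e1 i (by omega), e1 (i + 1) (by omega)]; exact c1.2 i h
          · rw [hLim]
            dsimp only
            rw [hv, e1 i hm, c2 i le_rfl]
            exact ⟨hg, hg'⟩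
        obtain ⟨d1, d2⟩ := s5 _ c3
        refine ⟨c3.congr d1 d2, fun c4 => ?_⟩
        rw [d2 _ le_rfl]
        refine e1 _ (Nat.succ_le_of_lt (lt_of_le_of_ne hm fun h => ?_))
        subst h
        have := c4.1
        rcases s3 with s3 | s3
        · omega
        · have h5 := (c4.2 n (by omega)).2
          rw [c2 n le_rfl] at h5 s3
          obtain ⟨s, h6, h7⟩ := (h5.and hg').exists
          exact s3 (k2.trans (h7.symm.trans h6))
      have t01 : t0 ≤ t1 := (h1 t1 le_rfl).2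
      refine ⟨t1 + 1, fun t ht => ?_⟩
      induction t, ht using Nat.le_induction with
      | base => exact ⟨(step t1 le_rfl).1, fun _ _ => rfl⟩
      | succ t ht ih =>
        refine ⟨(step t (by omega)).1, fun i hi => ?_⟩
        rcases (by omega : i ≤ n ∨ i = n + 1) with h | rfl
        · rw [(h0 (t + 1) (by omega)).2 i h, (h0 (t1 + 1) (by omega)).2 i h]
        · rw [(step t (by omega)).2 ih.1, ih.2 _ le_rfl]
  choose T hT using key
  refine ⟨fun i => en e0 (S (T i)) i, fun n => ?_⟩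
  have h1 : ∀ᶠ t in atTop, ∀ i ∈ Finset.range (n + 1), T i ≤ t :=
    (eventually_all_finset _).2 fun i _ => eventually_ge_atTop _
  filter_upwards [h1] with t ht
  exact ⟨(hT n t (ht n (by simp))).1, fun i hi =>
    (hT i t (ht i (Finset.mem_range.2 (by omega)))).2 i le_rfl⟩

end Stack

end Pool.Agent.MinDeg.Sol
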